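import Pool.Agent.Q257.MD.PInv
import Pool.Agent.Q270.SQ.Exp

/-!
# Weyl sums over the integers and over the primes of a residue class

A power is saved for polynomial phases whose leading coefficient is not close to a rational number
with a small denominator.
-/

set_option autoImplicit false

namespace Pool.Agent.Q270.PX

open Finset Real Filter
open Pool.Agent.H469R2.NK (e norm_e e_add)
open Pool.Agent.Helper602.MK (ee)
open Pool.Agent.H373R2.NB (Ph IW IW_all Ph_poly)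
open Q257.MD (Ph_shift Ph_add Ph_lin prime_inv inv_Ioc)
open Pool.Agent.TH915.PW (prime_bound abel_bound class_bound)
open Pool.Agent.Q270.SP (PrA)

lemma e_ee (x : ℝ) : e x = ee x := by
  unfold Pool.Agent.H469R2.NK.e Pool.Agent.Helper602.MK.ee
  push_cast
  rfl

/-- no rational number with a denominator up to `X ^ η` is close to `α` -/
def Far (η σ : ℝ) (X : ℕ) (α : ℝ) : Prop :=
  ∀ t : ℕ, 1 ≤ t → (t : ℝ) ≤ (X : ℝ) ^ η → ∀ a : ℤ, (X : ℝ) ^ (-σ) < |t * α - a|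

/-- an index set along which Weyl's inequality holds -/
def WeylI (I : ℕ → Finset ℕ) : Prop :=
  ∀ d : ℕ, 1 ≤ d → ∀ η : ℝ, 0 < η → ∃ τ : ℝ, 0 < τ ∧ ∃ x₀ : ℕ, ∀ X : ℕ, x₀ ≤ X →
    ∀ (α : ℝ) (φ : ℕ → ℝ), Ph d α φ → Far η (1 / 4) X α →
      ‖∑ n ∈ I X, e (φ n)‖ ≤ (X : ℝ) ^ (1 - τ)

lemma weylI_int : WeylI (fun N => Ioc 0 N) := by
  intro d hd η hη
  obtain ⟨c, m, hc, hI⟩ := IW_all d hd
  set τ : ℝ := min η 1 / (4 * (m + 1)) with hτ
  have hm0 : (0 : ℝ) ≤ m := Nat.cast_nonneg m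
  have hη1 : 0 < min η 1 := lt_min hη one_pos
  have hτ0 : 0 < τ := by positivity
  have hmτ : τ * m ≤ min η 1 / 4 := by
    rw [hτ, div_mul_eq_mul_div, div_le_iff₀ (by positivity)]
    nlinarith
  have hmτ1 : τ * m ≤ η / 4 := hmτ.trans (by gcongr; exact min_le_left _ _)
  have hmτ2 : τ * m ≤ 1 / 4 := hmτ.trans (by gcongr; exact min_le_right _ _)
  have hev : ∀ᶠ x : ℝ in atTop, (c : ℝ) ≤ x ^ (min η 1 / 2) ∧ 1 ≤ x := by
    filter_upwards [(tendsto_rpow_atTop (show (0 : ℝ) < min η 1 / 2 by positivity)).eventually_ge_atTop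
      (c : ℝ), eventually_ge_atTop (1 : ℝ)] with x a1 a2
    exact ⟨a1, a2⟩
  obtain ⟨x₁, hx₁⟩ := eventually_atTop.mp hev
  refine ⟨τ, hτ0, max 1 ⌈x₁⌉₊, ?_⟩
  intro X hX α φ hφ hfar
  obtain ⟨a1, a2⟩ := hx₁ X (Nat.ceil_le.mp (le_of_max_le_right hX))
  have hX1 : 1 ≤ X := le_of_max_le_left hX
  have hX0 : (0 : ℝ) < X := by linarith
  by_contra hcon
  push Not at hcon
  have h1 : (((X : ℕ) : ℝ) - (0 : ℕ)) ≤ (X : ℝ) ^ τ * ‖∑ n ∈ Ioc 0 X, ee (φ n)‖ := by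
    have h2 : ∑ n ∈ Ioc 0 X, ee (φ n) = ∑ n ∈ Ioc 0 X, e (φ n) :=
      sum_congr rfl fun n _ => (e_ee _).symm
    rw [h2, Nat.cast_zero, sub_zero]
    calc (X : ℝ) = (X : ℝ) ^ τ * (X : ℝ) ^ (1 - τ) := by
          rw [← Real.rpow_add hX0]; simp
      _ ≤ _ := by gcongr
  obtain ⟨q, hq1, hq2, a, ha⟩ := inv_Ioc hI 0 X (by omega) ((X : ℝ) ^ τ) α φ
    (Real.one_le_rpow a2 hτ0.le) hφ h1
  have h3 : (c : ℝ) * ((X : ℝ) ^ τ) ^ m ≤ (X : ℝ) ^ (min η 1 / 2 + τ * m) := by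
    rw [← Real.rpow_natCast, ← Real.rpow_mul hX0.le, Real.rpow_add hX0]
    gcongr
  have h4 := hfar q hq1 (hq2.trans (h3.trans (Real.rpow_le_rpow_of_exponent_le a2 (by
    have := min_le_left η 1
    linarith)))) a
  have h5 : c * ((X : ℝ) ^ τ) ^ m / ((X : ℝ) - (0 : ℕ)) ^ d ≤ (X : ℝ) ^ (-(1 / 4 : ℝ)) := by
    rw [Nat.cast_zero, sub_zero, div_le_iff₀ (by positivity)]
    refine h3.trans ?_
    calc (X : ℝ) ^ (min η 1 / 2 + τ * m) ≤ (X : ℝ) ^ (-(1 / 4 : ℝ) + (1 : ℝ)) :=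
          Real.rpow_le_rpow_of_exponent_le a2 (by
            have := min_le_right η 1
            linarith)
      _ = (X : ℝ) ^ (-(1 / 4 : ℝ)) * (X : ℝ) ^ (1 : ℕ) := by
          rw [Real.rpow_add hX0, Real.rpow_one, pow_one]
      _ ≤ (X : ℝ) ^ (-(1 / 4 : ℝ)) * (X : ℝ) ^ d := by
          gcongr
  linarith

/-- from the von Mangoldt function to the primes, in dyadic blocks -/
lemma vm_prime (τ : ℝ) (hτ : 0 < τ) (hτ16 : τ ≤ 1 / 16) :
    ∃ x₀ : ℕ, ∀ N : ℕ, x₀ ≤ N → ∀ f : ℕ → ℂ, (∀ n, ‖f n‖ ≤ 1) →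
      (∀ N' : ℕ, N ≤ N' → N' ≤ 2 * N →
        ‖∑ n ∈ Ioc N N', ((ArithmeticFunction.vonMangoldt n : ℝ) : ℂ) * f n‖ ≤
          (N : ℝ) ^ (1 - τ)) →
      ∀ N' : ℕ, N ≤ N' → N' ≤ 2 * N →
      ‖∑ n ∈ Ioc N N', (if n.Prime then f n else 0)‖ ≤ (N : ℝ) ^ (1 - τ / 2) := by
  have hev : ∀ᶠ x : ℝ in atTop, Real.log (2 * x) ≤ x ^ (1 / 4 : ℝ) ∧ 4 ≤ x ^ (τ / 2) ∧ 4 ≤ x := by
    have e1 := (isLittleO_log_rpow_atTop (show (0 : ℝ) < 1 / 8 by norm_num)).def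
      (show (0 : ℝ) < 1 by norm_num)
    filter_upwards [e1, eventually_ge_atTop (4 : ℝ),
      (tendsto_rpow_atTop (show (0 : ℝ) < 1 / 8 by norm_num)).eventually_ge_atTop 2,
      (tendsto_rpow_atTop (show (0 : ℝ) < τ / 2 by positivity)).eventually_ge_atTop 4]
      with x h1 h2 h3 h4
    refine ⟨?_, h4, h2⟩
    have hx0 : (0 : ℝ) < x := by linarith
    rw [Real.norm_eq_abs, Real.norm_eq_abs, abs_of_nonneg (Real.log_nonneg (by linarith)),
      abs_of_nonneg (by positivity), one_mul] at h1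
    have h5 : Real.log (2 * x) = Real.log 2 + Real.log x := Real.log_mul (by norm_num) hx0.ne'
    have h6 := Real.log_two_lt_d9
    have h7 : x ^ (1 / 4 : ℝ) = x ^ (1 / 8 : ℝ) * x ^ (1 / 8 : ℝ) := by
      rw [← Real.rpow_add hx0]; norm_num
    rw [h5, h7]
    nlinarith
  obtain ⟨x₁, hx₁⟩ := eventually_atTop.mp hev
  refine ⟨⌈x₁⌉₊, ?_⟩
  intro N hN f hf hvm N' hNN' hN'
  obtain ⟨hlog, hpow, hN4⟩ := hx₁ N (Nat.ceil_le.mp hN)
  have hN0 : (0 : ℝ) < N := by linarith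
  have hN1 : (1 : ℝ) ≤ N := by linarith
  have hN4n : 4 ≤ N := by exact_mod_cast hN4
  rcases eq_or_lt_of_le hNN' with rfl | hlt
  · simp only [Finset.Ioc_self, sum_empty, norm_zero]
    positivity
  set G : ℕ → ℂ := fun n => (((if n.Prime then Real.log n else 0 : ℝ)) : ℂ) * f n with hG
  set E : ℝ := 4 * (N : ℝ) ^ (1 - τ) with hE
  have hcls : ∀ t : ℕ, N < t → t ≤ N' → ‖∑ n ∈ Ioc N t, G n‖ ≤ E := by
    intro t ht1 ht2
    have h1 := prime_bound N t (by omega) f hf _ (hvm t ht1.le (ht2.trans hN'))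
    refine h1.trans ?_
    have htr : (t : ℝ) ≤ 2 * N := by exact_mod_cast ht2.trans hN'
    have ht0 : (1 : ℝ) ≤ t := by exact_mod_cast (by omega : 1 ≤ t)
    have h7 : √(t : ℝ) ≤ 3 / 2 * (N : ℝ) ^ (1 / 2 : ℝ) := by
      rw [← Real.sqrt_eq_rpow]
      calc √(t : ℝ) ≤ √((3 / 2) ^ 2 * N) := Real.sqrt_le_sqrt (by linarith)
        _ = 3 / 2 * √N := by rw [Real.sqrt_mul (by norm_num), Real.sqrt_sq (by norm_num)]
    have h8 : Real.log (t : ℝ) ≤ (N : ℝ) ^ (1 / 4 : ℝ) :=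
      (Real.log_le_log (by linarith) htr).trans hlog
    have h9 : 0 ≤ Real.log (t : ℝ) := Real.log_nonneg ht0
    have h10 : 2 * √(t : ℝ) * Real.log t ≤ 3 * (N : ℝ) ^ (1 - τ) := by
      calc 2 * √(t : ℝ) * Real.log t ≤
            2 * (3 / 2 * (N : ℝ) ^ (1 / 2 : ℝ)) * (N : ℝ) ^ (1 / 4 : ℝ) := by gcongr
        _ = 3 * ((N : ℝ) ^ (1 / 2 : ℝ) * (N : ℝ) ^ (1 / 4 : ℝ)) := by ring
        _ = 3 * (N : ℝ) ^ (3 / 4 : ℝ) := by rw [← Real.rpow_add hN0]; norm_num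
        _ ≤ _ := by
            have : (N : ℝ) ^ (3 / 4 : ℝ) ≤ (N : ℝ) ^ (1 - τ) :=
              Real.rpow_le_rpow_of_exponent_le hN1 (by linarith)
            linarith
    rw [hE]
    linarith
  set w : ℕ → ℝ := fun n => (Real.log n)⁻¹ with hw
  have hlogpos : ∀ n : ℕ, N < n → 1 ≤ Real.log n := by
    intro n hn
    rw [Real.le_log_iff_exp_le (by
      have : 0 < n := by omega
      exact_mod_cast this)]
    have h1 := Real.exp_one_lt_d9
    have h2 : (5 : ℝ) ≤ n := by exact_mod_cast (by omega : 5 ≤ n)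
    linarith
  have hab := abel_bound w G N E (fun n hn => by
      have := hlogpos n hn
      rw [hw]
      positivity) (fun n hn => by
      have h1 := hlogpos n hn
      rw [hw]
      simp only
      apply inv_anti₀ (by linarith)
      apply Real.log_le_log
      · have : 0 < n := by omega
        exact_mod_cast this
      · push_cast
        linarith) N' hlt hcls
  have hsum : ∑ n ∈ Ioc N N', (if n.Prime then f n else 0) =
      ∑ i ∈ Ioc N N', (w i : ℂ) * G i := by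
    refine sum_congr rfl fun n hn => ?_
    have hn0 := hlogpos n (Finset.mem_Ioc.mp hn).1
    rw [hw, hG]
    simp only
    by_cases h2 : n.Prime
    · rw [if_pos h2, if_pos h2, ← mul_assoc]
      rw [← Complex.ofReal_mul, inv_mul_cancel₀ (by linarith), Complex.ofReal_one, one_mul]
    · rw [if_neg h2, if_neg h2]
      simp
  rw [hsum]
  refine hab.trans ?_
  have hE0 : 0 ≤ E := by positivity
  have hw1 : w (N + 1) ≤ 1 := by
    rw [hw]
    exact inv_le_one_of_one_le₀ (hlogpos (N + 1) (by omega))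
  calc w (N + 1) * E ≤ 1 * E := mul_le_mul_of_nonneg_right hw1 hE0
    _ = 4 * (N : ℝ) ^ (1 - τ) := by rw [one_mul, hE]
    _ ≤ (N : ℝ) ^ (τ / 2) * (N : ℝ) ^ (1 - τ) := by gcongr
    _ = (N : ℝ) ^ (1 - τ / 2) := by
        rw [← Real.rpow_add hN0]
        congr 1
        ring

/-- Weyl sums over the primes of a dyadic block -/
theorem weyl_block (d : ℕ) (hd : 1 ≤ d) (η : ℝ) (hη : 0 < η) :
    ∃ τ : ℝ, 0 < τ ∧ τ ≤ 1 / 16 ∧ ∃ x₀ : ℕ, ∀ N : ℕ, x₀ ≤ N → ∀ (α : ℝ) (φ : ℕ → ℝ), Ph d α φ →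
      Far η (1 / 2) N α → ∀ N' : ℕ, N ≤ N' → N' ≤ 2 * N →
      ‖∑ n ∈ Ioc N N', (if n.Prime then e (φ n) else 0)‖ ≤ (N : ℝ) ^ (1 - τ) := by
  obtain ⟨C, m, hC, hI⟩ := prime_inv d hd
  set τ : ℝ := min η 1 / (8 * (m + 1)) with hτ
  have hm0 : (0 : ℝ) ≤ m := Nat.cast_nonneg m
  have hη1 : 0 < min η 1 := lt_min hη one_pos
  have hη2 : min η 1 ≤ 1 := min_le_right _ _
  have hτ0 : 0 < τ := by positivity
  have hmτ : τ * m ≤ min η 1 / 8 := by
    rw [hτ, div_mul_eq_mul_div, div_le_iff₀ (by positivity)]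
    nlinarith
  have hτ8 : τ ≤ 1 / 8 := by
    rw [hτ, div_le_iff₀ (by positivity)]
    nlinarith
  obtain ⟨x₂, hx₂⟩ := vm_prime (τ / 2) (by positivity) (by linarith)
  have hev : ∀ᶠ x : ℝ in atTop, (C : ℝ) ≤ x ^ (min η 1 / 4) ∧
      39 * (1 + Real.log (4 * x)) ^ 5 ≤ x ^ (τ / 2) ∧ 1 ≤ x := by
    have e1 := (isLittleO_log_rpow_atTop (show (0 : ℝ) < τ / 20 by positivity)).def
      (show (0 : ℝ) < 1 / 2 by norm_num)
    filter_upwards [(tendsto_rpow_atTop (show (0 : ℝ) < min η 1 / 4 by positivity)).eventually_ge_atTop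
      (C : ℝ), eventually_ge_atTop (1 : ℝ), e1,
      (tendsto_rpow_atTop (show (0 : ℝ) < τ / 20 by positivity)).eventually_ge_atTop
        (2 * (1 + Real.log 4)),
      (tendsto_rpow_atTop (show (0 : ℝ) < τ / 4 by positivity)).eventually_ge_atTop 39]
      with x a1 a2 a3 a4 a5
    have hx0 : (0 : ℝ) < x := by linarith
    rw [Real.norm_eq_abs, Real.norm_eq_abs, abs_of_nonneg (Real.log_nonneg a2),
      abs_of_nonneg (by positivity)] at a3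
    refine ⟨a1, ?_, a2⟩
    have h5 : Real.log (4 * x) = Real.log 4 + Real.log x := Real.log_mul (by norm_num) hx0.ne'
    have h6 : 1 + Real.log (4 * x) ≤ x ^ (τ / 20) := by
      rw [h5]
      linarith
    have h7 : 0 ≤ 1 + Real.log (4 * x) := by
      have := Real.log_nonneg (show (1 : ℝ) ≤ 4 * x by linarith)
      linarith
    calc 39 * (1 + Real.log (4 * x)) ^ 5 ≤ x ^ (τ / 4) * (x ^ (τ / 20)) ^ 5 := by gcongr
      _ = x ^ (τ / 2) := by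
          rw [← Real.rpow_natCast, ← Real.rpow_mul hx0.le, ← Real.rpow_add hx0]
          congr 1
          push_cast
          ring
  obtain ⟨x₁, hx₁⟩ := eventually_atTop.mp hev
  refine ⟨τ / 4, by positivity, by linarith, max (max 1 x₂) ⌈x₁⌉₊, ?_⟩
  intro N hN α φ hφ hfar
  obtain ⟨a1, a2, a3⟩ := hx₁ N (Nat.ceil_le.mp (le_of_max_le_right hN))
  have hN1 : 1 ≤ N := le_of_max_le_left (le_of_max_le_left hN)
  have hN0 : (0 : ℝ) < N := by linarith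
  have h3 : (C : ℝ) * ((N : ℝ) ^ τ) ^ m ≤ (N : ℝ) ^ (min η 1 / 4 + τ * m) := by
    rw [← Real.rpow_natCast, ← Real.rpow_mul hN0.le, Real.rpow_add hN0]
    gcongr
  have key := hx₂ N (le_of_max_le_right (le_of_max_le_left hN)) (fun n => e (φ n))
    (fun n => (norm_e _).le) (fun N' hNN' hN' => ?_)
  · intro N' hNN' hN'
    have := key N' hNN' hN'
    rwa [show τ / 4 = τ / 2 / 2 by ring]
  have hee : ∑ n ∈ Ioc N N', ((ArithmeticFunction.vonMangoldt n : ℝ) : ℂ) * e (φ n) =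
      ∑ n ∈ Ioc N N', ((ArithmeticFunction.vonMangoldt n : ℝ) : ℂ) * ee (φ n) :=
    sum_congr rfl fun n _ => by rw [e_ee]
  rw [hee]
  rcases hI N N' ((N : ℝ) ^ τ) α φ hN1 hNN' hN' (Real.one_le_rpow a3 hτ0.le) (h3.trans (by
    calc (N : ℝ) ^ (min η 1 / 4 + τ * m) ≤ (N : ℝ) ^ (1 : ℝ) :=
          Real.rpow_le_rpow_of_exponent_le a3 (by linarith)
      _ = N := Real.rpow_one _)) hφ with h4 | ⟨q, hq1, hq2, a, ha⟩
  · refine h4.trans ?_
    rw [div_le_iff₀ (by positivity)]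
    calc 39 * (1 + Real.log (4 * N)) ^ 5 * N ≤ (N : ℝ) ^ (τ / 2) * N := by gcongr
      _ = (N : ℝ) ^ (1 - τ / 2) * (N : ℝ) ^ τ := by
          rw [← Real.rpow_add hN0]
          nth_rw 2 [← Real.rpow_one (N : ℝ)]
          rw [← Real.rpow_add hN0]
          congr 1
          ring
  · exfalso
    have h4 := hfar q hq1 (hq2.trans (h3.trans (Real.rpow_le_rpow_of_exponent_le a3 (by
      have := min_le_left η 1
      linarith)))) a
    have h5 : C * ((N : ℝ) ^ τ) ^ m / (N : ℝ) ^ d ≤ (N : ℝ) ^ (-(1 / 2 : ℝ)) := by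
      rw [div_le_iff₀ (by positivity)]
      refine h3.trans ?_
      calc (N : ℝ) ^ (min η 1 / 4 + τ * m) ≤ (N : ℝ) ^ (-(1 / 2 : ℝ) + (1 : ℝ)) :=
            Real.rpow_le_rpow_of_exponent_le a3 (by linarith)
        _ = (N : ℝ) ^ (-(1 / 2 : ℝ)) * (N : ℝ) ^ (1 : ℕ) := by
            rw [Real.rpow_add hN0, Real.rpow_one, pow_one]
        _ ≤ (N : ℝ) ^ (-(1 / 2 : ℝ)) * (N : ℝ) ^ d := by
            gcongr
    linarith

/-- Weyl sums over the primes of a residue class -/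
theorem weylI_PrA (a q : ℕ) (hq : 1 ≤ q) : WeylI (PrA a q) := by
  intro d hd η hη
  obtain ⟨ρ, hρ, hρ16, X0, hX0⟩ := weyl_block d hd (η / 4) (by positivity)
  set μ : ℝ := min (1 / 8) (ρ / 4) with hμ
  have hμ0 : 0 < μ := lt_min (by positivity) (by positivity)
  obtain ⟨x₂, hx₂⟩ := Pool.Agent.Q270.SQ.dyadic (1 / 4) ρ μ (by norm_num) hμ0 (by
    have := min_le_left (1 / 8) (ρ / 4); linarith)
    (by have := min_le_right (1 / 8) (ρ / 4); linarith) (by linarith)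
  have hq0 : (0 : ℝ) < q := by exact_mod_cast hq
  have hev : ∀ᶠ x : ℝ in atTop, (q : ℝ) ≤ x ^ (3 * η / 4) ∧ 2 * (q : ℝ) ≤ x ^ (1 / 8 : ℝ) ∧
      (2 * X0 : ℝ) ≤ x ^ (3 / 4 : ℝ) ∧ 1 ≤ x := by
    filter_upwards [(tendsto_rpow_atTop (show (0 : ℝ) < 3 * η / 4 by positivity)).eventually_ge_atTop
      (q : ℝ), (tendsto_rpow_atTop (show (0 : ℝ) < 1 / 8 by norm_num)).eventually_ge_atTop
      (2 * (q : ℝ)), (tendsto_rpow_atTop (show (0 : ℝ) < 3 / 4 by norm_num)).eventually_ge_atTop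
      (2 * X0 : ℝ), eventually_ge_atTop (1 : ℝ)] with x a1 a2 a3 a4
    exact ⟨a1, a2, a3, a4⟩
  obtain ⟨x₁, hx₁⟩ := eventually_atTop.mp hev
  refine ⟨μ, hμ0, max ⌈x₁⌉₊ x₂, ?_⟩
  intro X hX α φ hφ hfar
  obtain ⟨a1, a2, a3, a4⟩ := hx₁ X (Nat.ceil_le.mp (le_of_max_le_left hX))
  have hXp : (0 : ℝ) < X := by linarith
  have h0 : PrA a q X = ((Ioc 0 X).filter (fun p => p ≡ a [MOD q])).filter Nat.Prime := by
    unfold Pool.Agent.Q270.SP.PrA
    rw [Finset.filter_filter]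
    refine filter_congr fun p _ => ?_
    tauto
  rw [h0, sum_filter]
  refine class_bound (Ioc 0 X) (fun n => if n.Prime then e (φ n) else 0) q (by omega) a _ ?_
  intro j _
  have h1 : ∑ n ∈ Ioc 0 X, (if n.Prime then e (φ n) else 0) * e ((j : ℝ) / q * n) =
      ∑ n ∈ Ioc 0 X, (if n.Prime then e (φ n + (j : ℝ) / q * n) else 0) := by
    refine sum_congr rfl fun n _ => ?_
    split_ifs
    · rw [← e_add]
    · rw [zero_mul]
  rw [h1]
  have hφ' := Ph_add d _ _ _ _ hφ (Ph_lin d hd ((j : ℝ) / q))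
  refine hx₂ X (le_of_max_le_right hX) _ (fun n => ?_) ?_
  · split_ifs
    · exact (norm_e _).le
    · rw [norm_zero]; exact zero_le_one
  intro K N hK hKN hN hNX
  have hKX : K ≤ X := hKN.trans hNX
  have hKXr : (K : ℝ) ≤ X := by exact_mod_cast hKX
  have hK34 : (X : ℝ) ^ (3 / 4 : ℝ) ≤ 2 * K := by
    refine le_trans (le_of_eq ?_) hK
    norm_num
  have hKX0 : X0 ≤ K := by
    have : (2 * X0 : ℝ) ≤ 2 * K := a3.trans hK34
    have h2 : (X0 : ℝ) ≤ K := by linarith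
    exact_mod_cast h2
  have hK0 : (0 : ℝ) < K := by
    have : 0 < (X : ℝ) ^ (3 / 4 : ℝ) := by positivity
    linarith
  refine hX0 K hKX0 _ _ hφ' ?_ N hKN hN
  intro t ht1 ht2 b
  have ht3 : ((t * q : ℕ) : ℝ) ≤ (X : ℝ) ^ η := by
    push_cast
    calc (t : ℝ) * q ≤ (K : ℝ) ^ (η / 4) * (X : ℝ) ^ (3 * η / 4) := by gcongr
      _ ≤ (X : ℝ) ^ (η / 4) * (X : ℝ) ^ (3 * η / 4) := by gcongr
      _ = (X : ℝ) ^ η := by
          rw [← Real.rpow_add hXp]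
          congr 1
          ring
  have h2 := hfar (t * q) (Nat.mul_pos ht1 (by omega)) ht3
    (q * b - (if d = 1 then (t * j : ℤ) else 0))
  have h3 : ((t * q : ℕ) : ℝ) * α - ((q * b - (if d = 1 then (t * j : ℤ) else 0) : ℤ) : ℝ) =
      q * (t * (α + (if d = 1 then (j : ℝ) / q else 0)) - b) := by
    split_ifs
    · push_cast
      field_simp
      ring
    · push_cast
      ring
  rw [h3, abs_mul, abs_of_pos hq0] at h2
  have h4 : (q : ℝ) * (K : ℝ) ^ (-(1 / 2 : ℝ)) ≤ (X : ℝ) ^ (-(1 / 4 : ℝ)) := by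
    have h5 : (X : ℝ) ^ (3 / 8 : ℝ) ≤ 2 * (K : ℝ) ^ (1 / 2 : ℝ) := by
      have h6 : (X : ℝ) ^ (3 / 8 : ℝ) = ((X : ℝ) ^ (3 / 4 : ℝ)) ^ (1 / 2 : ℝ) := by
        rw [← Real.rpow_mul hXp.le]
        norm_num
      rw [h6]
      calc ((X : ℝ) ^ (3 / 4 : ℝ)) ^ (1 / 2 : ℝ) ≤ (2 * (K : ℝ)) ^ (1 / 2 : ℝ) := by gcongr
        _ = 2 ^ (1 / 2 : ℝ) * (K : ℝ) ^ (1 / 2 : ℝ) := Real.mul_rpow (by norm_num) hK0.le
        _ ≤ 2 * (K : ℝ) ^ (1 / 2 : ℝ) := by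
            gcongr
            calc (2 : ℝ) ^ (1 / 2 : ℝ) ≤ 2 ^ (1 : ℝ) :=
                  Real.rpow_le_rpow_of_exponent_le (by norm_num) (by norm_num)
              _ = 2 := Real.rpow_one _
    have h7 : 0 < (K : ℝ) ^ (1 / 2 : ℝ) := by positivity
    rw [Real.rpow_neg hK0.le, ← div_eq_mul_inv, div_le_iff₀ h7]
    have h8 : (X : ℝ) ^ (-(1 / 4 : ℝ)) * (X : ℝ) ^ (3 / 8 : ℝ) = (X : ℝ) ^ (1 / 8 : ℝ) := by
      rw [← Real.rpow_add hXp]
      norm_num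
    have h9 : (X : ℝ) ^ (-(1 / 4 : ℝ)) * (X : ℝ) ^ (3 / 8 : ℝ) ≤
        (X : ℝ) ^ (-(1 / 4 : ℝ)) * (2 * (K : ℝ) ^ (1 / 2 : ℝ)) := by gcongr
    rw [h8] at h9
    nlinarith
  have h10 : (q : ℝ) * (K : ℝ) ^ (-(1 / 2 : ℝ)) <
      q * |t * (α + (if d = 1 then (j : ℝ) / q else 0)) - b| := lt_of_le_of_lt h4 h2
  exact lt_of_mul_lt_mul_left h10 hq0.le

end Pool.Agent.Q270.PX
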