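import Pool.Agent.Q270.PX.Branch
import Pool.Agent.Q270.PX.Weyl

/-!
# Integer combinations of branches

Stabilisation of the vanishing conditions, common denominators, and exponential sums over
polynomials some of whose coefficients are rational with a fixed denominator.
-/

set_option autoImplicit false

namespace Pool.Agent.Q270.PX

open Finset Real Filter Topology
open Pool.Agent.H469R2.NK (e norm_e e_add)
open Pool.Agent.H373R2.NB (Ph Ph_poly)
open Q257.MD (Ph_add Ph_lin Ph_shift)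
open Pool.Agent.TH915.PW (class_bound)

/-- finitely many vanishing conditions imply all of them -/
theorem stab {r : ℕ} (p : ℕ → Prop) (c : Fin r → ℕ → ℝ) :
    ∃ J0 : ℕ, ∀ x : Fin r → ℝ, (∀ j < J0, p j → ∑ i, x i * c i j = 0) →
      ∀ j, p j → ∑ i, x i * c i j = 0 := by
  let W : ℕ → Submodule ℝ (Fin r → ℝ) := fun J =>
    { carrier := {x | ∀ j < J, p j → ∑ i, x i * c i j = 0}
      add_mem' := by
        intro x y hx hy j hj hp
        simp only [Pi.add_apply, add_mul, sum_add_distrib, hx j hj hp, hy j hj hp, add_zero]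
      zero_mem' := by
        intro j _ _
        simp
      smul_mem' := by
        intro a x hx j hj hp
        simp only [Pi.smul_apply, smul_eq_mul, mul_assoc]
        rw [← mul_sum, hx j hj hp, mul_zero] }
  have hW : ∀ J x, x ∈ W J ↔ ∀ j < J, p j → ∑ i, x i * c i j = 0 := fun J x => Iff.rfl
  obtain ⟨n, hn⟩ := IsArtinian.monotone_stabilizes (R := ℝ) (M := Fin r → ℝ)
    ⟨fun J => OrderDual.toDual (W J), fun J J' h => by
      show W J' ≤ W J
      intro x hx
      rw [hW] at hx ⊢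
      exact fun j hj => hx j (hj.trans_le h)⟩
  refine ⟨n, fun x hx j hp => ?_⟩
  have h1 : x ∈ W n := (hW n x).2 hx
  have h2 : W n = W (max n (j + 1)) := by
    have := hn (max n (j + 1)) (le_max_left _ _)
    exact this
  rw [h2, hW] at h1
  exact h1 j (lt_of_lt_of_le (Nat.lt_succ_self j) (le_max_right _ _)) hp

/-- the rational integer combinations of given real numbers have a common denominator -/
theorem denom {r : ℕ} (α : Fin r → ℝ) :
    ∃ Q : ℕ, 1 ≤ Q ∧ ∀ l : Fin r → ℤ, ¬ Irrational (∑ i, (l i : ℝ) * α i) →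
      ∃ a : ℤ, (Q : ℝ) * ∑ i, (l i : ℝ) * α i = a := by
  classical
  let H : Submodule ℤ (Fin r → ℤ) :=
    { carrier := {l | ∃ x : ℚ, (x : ℝ) = ∑ i, (l i : ℝ) * α i}
      add_mem' := by
        rintro l l' ⟨x, hx⟩ ⟨x', hx'⟩
        refine ⟨x + x', ?_⟩
        push_cast
        rw [hx, hx', ← sum_add_distrib]
        refine sum_congr rfl fun i _ => ?_
        simp only [Pi.add_apply]
        push_cast
        ring
      zero_mem' := ⟨0, by simp⟩
      smul_mem' := by
        rintro a l ⟨x, hx⟩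
        refine ⟨a * x, ?_⟩
        push_cast
        rw [hx, mul_sum]
        refine sum_congr rfl fun i _ => ?_
        simp only [Pi.smul_apply, smul_eq_mul]
        push_cast
        ring }
  have hH : ∀ l, l ∈ H ↔ ∃ x : ℚ, (x : ℝ) = ∑ i, (l i : ℝ) * α i := fun l => Iff.rfl
  obtain ⟨s, hs⟩ : H.FG := IsNoetherian.noetherian H
  have hx : ∀ l ∈ s, ∃ x : ℚ, (x : ℝ) = ∑ i, (l i : ℝ) * α i := by
    intro l hl
    rw [← hH, ← hs]
    exact Submodule.subset_span hl
  choose! x hx using hx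
  refine ⟨∏ l ∈ s, (x l).den, Finset.prod_pos fun l _ => (x l).den_pos, ?_⟩
  intro l hl
  have hl' : l ∈ H := by
    rw [hH]
    unfold Irrational at hl
    rw [not_not] at hl
    exact hl
  rw [← hs] at hl'
  refine Submodule.span_induction (p := fun l _ => ∃ a : ℤ,
    ((∏ l ∈ s, (x l).den : ℕ) : ℝ) * ∑ i, (l i : ℝ) * α i = a) ?_ ?_ ?_ ?_ hl'
  · intro l hl
    rw [← hx l hl]
    obtain ⟨k, hk⟩ := Finset.dvd_prod_of_mem (fun l => (x l).den) hl
    refine ⟨k * (x l).num, ?_⟩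
    rw [hk]
    push_cast
    have h1 : ((x l : ℚ) : ℝ) * (x l).den = (x l).num := by
      exact_mod_cast Rat.mul_den_eq_num (x l)
    calc ((x l).den : ℝ) * k * (x l : ℝ) = k * ((x l : ℝ) * (x l).den) := by ring
      _ = _ := by rw [h1]
  · exact ⟨0, by simp⟩
  · rintro l l' _ _ ⟨a, ha⟩ ⟨a', ha'⟩
    refine ⟨a + a', ?_⟩
    push_cast at ha ha' ⊢
    rw [← ha, ← ha', ← mul_add, ← sum_add_distrib]
    congr 1
    refine sum_congr rfl fun i _ => ?_
    simp only [Pi.add_apply]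
    push_cast
    ring
  · rintro b l _ ⟨a, ha⟩
    refine ⟨b * a, ?_⟩
    have h1 : ∑ i, (((b • l) i : ℤ) : ℝ) * α i = b * ∑ i, (l i : ℝ) * α i := by
      rw [mul_sum]
      refine sum_congr rfl fun i _ => ?_
      simp only [Pi.smul_apply, smul_eq_mul]
      push_cast
      ring
    rw [h1, mul_left_comm, ha]
    push_cast
    ring

/-- combinations without exponents which are not natural numbers are polynomials, uniformly -/
theorem comb_poly {r D q : ℕ} (hq : 1 ≤ q) {G : Fin r → ℝ → ℝ} {g : Fin r → ℕ → ℝ}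
    (hs : ∀ i, ∀ᶠ t in 𝓝 (0 : ℝ), HasSum (fun n => t ^ n * g i n) (G i t)) :
    ∀ᶠ x : ℝ in atTop, ∀ l : Fin r → ℝ,
      (∀ j, (∀ n : ℕ, ex D q j ≠ n) → ∑ i, l i * g i j = 0) →
      ∑ i, l i * Br D q (G i) x =
        ∑ n ∈ range (D + 1), (∑ i, l i * g i (q * (D - n))) * x ^ n := by
  have h0 : ∀ᶠ t in 𝓝[>] (0 : ℝ), ∀ i, HasSum (fun n => t ^ n * g i n) (G i t) :=
    (Filter.eventually_all.2 hs).filter_mono nhdsWithin_le_nhds
  filter_upwards [(rt_tendsto hq).eventually h0, eventually_gt_atTop 0] with x hx hx0 l hl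
  have h1 : HasSum (fun n => ∑ i, l i * (rt q x ^ n * g i n)) (∑ i, l i * G i (rt q x)) :=
    hasSum_sum fun i _ => (hx i).mul_left (l i)
  have h1' : (fun n => ∑ i, l i * (rt q x ^ n * g i n)) =
      fun n => rt q x ^ n * ∑ i, l i * g i n := by
    funext n
    rw [mul_sum]
    refine sum_congr rfl fun i _ => ?_
    ring
  rw [h1'] at h1
  have h2 : HasSum (fun n => rt q x ^ n * ∑ i, l i * g i n)
      (∑ j ∈ (range (D + 1)).image (fun n => q * (D - n)), rt q x ^ j * ∑ i, l i * g i j) := by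
    refine hasSum_sum_of_ne_finset_zero fun j hj => ?_
    rw [hl j, mul_zero]
    intro n hn
    apply hj
    obtain ⟨h2, h3⟩ := ex_nat hq hn
    rw [mem_image]
    exact ⟨n, mem_range.2 (by omega), h3.symm⟩
  have h3 := h1.unique h2
  have h4 : ∑ i, l i * Br D q (G i) x = x ^ D * ∑ i, l i * G i (rt q x) := by
    unfold Br
    rw [mul_sum]
    refine sum_congr rfl fun i _ => ?_
    ring
  rw [h4, h3, sum_image, mul_sum]
  · refine sum_congr rfl fun n hn => ?_
    have hnD : n ≤ D := by have := mem_range.1 hn; omega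
    rw [pow_mul, rt_pow hq hx0]
    have h3 : x ^ D = x ^ n * x ^ (D - n) := by rw [← pow_add]; congr 1; omega
    rw [h3, inv_pow]
    field_simp
  · intro n hn n' hn' heq
    have h3 := mem_range.1 (Finset.mem_coe.1 hn)
    have h4 := mem_range.1 (Finset.mem_coe.1 hn')
    simp only at heq
    have h5 := Nat.eq_of_mul_eq_mul_left (by omega : 0 < q) heq
    omega

/-- the phase of a polynomial of degree at most `d` -/
lemma Ph_sum (d : ℕ) (β : ℕ → ℝ) :
    Ph d ((d.factorial : ℝ) * β d) (fun m : ℕ => ∑ n ∈ range (d + 1), β n * (m : ℝ) ^ n) := by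
  have h0 : ∀ k, k ≤ d + 1 → Ph d (∑ n ∈ range k, β n * ((d.factorial : ℝ) *
      (((Polynomial.X ^ n : Polynomial ℤ).coeff d : ℤ) : ℝ)))
      (fun m : ℕ => ∑ n ∈ range k, β n * (m : ℝ) ^ n) := by
    intro k
    induction k with
    | zero =>
      intro _
      have h := Ph_poly d 0 (by simp) 0
      simpa using h
    | succ k ih =>
      intro hk
      have h1 := ih (by omega)
      have h2 := Ph_poly d (Polynomial.X ^ k : Polynomial ℤ) (by
        rw [Polynomial.natDegree_X_pow]; omega) (β k)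
      have h3 := Ph_add d _ _ _ _ h1 h2
      simp only [sum_range_succ]
      have h4 : (fun m : ℕ => ∑ n ∈ range k, β n * (m : ℝ) ^ n +
          β k * (((Polynomial.X ^ k : Polynomial ℤ).eval (m : ℤ) : ℤ) : ℝ)) =
          fun m : ℕ => ∑ n ∈ range k, β n * (m : ℝ) ^ n + β k * (m : ℝ) ^ k := by
        funext m
        simp
      rw [h4] at h3
      exact h3
  have h1 := h0 (d + 1) le_rfl
  have h2 : ∑ n ∈ range (d + 1), β n * ((d.factorial : ℝ) *
      (((Polynomial.X ^ n : Polynomial ℤ).coeff d : ℤ) : ℝ)) = (d.factorial : ℝ) * β d := by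
    simp only [Polynomial.coeff_X_pow]
    rw [sum_eq_single_of_mem d (mem_range.2 (Nat.lt_succ_self d))]
    · simp
      ring
    · intro n _ hn
      rw [if_neg (Ne.symm hn)]
      simp
  rw [h2] at h1
  exact h1

/-- sums over polynomials with an irrational coefficient whose higher coefficients have a bounded
denominator -/
theorem poly_sum {I : ℕ → Finset ℕ} (hI : WeylI I) (D Q : ℕ) (hQ : 1 ≤ Q) (η : ℝ) (hη : 0 < η) :
    ∃ τ : ℝ, 0 < τ ∧ ∃ x₀ : ℕ, ∀ X : ℕ, x₀ ≤ X → ∀ (β : ℕ → ℝ) (v : ℝ) (d : ℕ), 1 ≤ d → d ≤ D →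
      Far η (1 / 8) X (β d) → (∀ n, d < n → n ≤ D → ∃ a : ℤ, (Q : ℝ) * β n = a) →
      ‖∑ m ∈ I X, e (∑ n ∈ range (D + 1), β n * (m : ℝ) ^ n + v)‖ ≤ (X : ℝ) ^ (1 - τ) := by
  have hQ0 : (0 : ℝ) < Q := by exact_mod_cast hQ
  have hone : ∀ d : ℕ, ∃ τ : ℝ, 0 < τ ∧ ∃ x₀ : ℕ, ∀ X : ℕ, x₀ ≤ X → ∀ (β : ℕ → ℝ) (v : ℝ), 1 ≤ d →
      d ≤ D → Far η (1 / 8) X (β d) → (∀ n, d < n → n ≤ D → ∃ a : ℤ, (Q : ℝ) * β n = a) →
      ‖∑ m ∈ I X, e (∑ n ∈ range (D + 1), β n * (m : ℝ) ^ n + v)‖ ≤ (X : ℝ) ^ (1 - τ) := by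
    intro d
    rcases Nat.eq_zero_or_pos d with rfl | hd
    · exact ⟨1, one_pos, 0, fun X _ β v h => by omega⟩
    obtain ⟨τ, hτ, x₀, hx₀⟩ := hI d hd (η / 2) (by positivity)
    have hev : ∀ᶠ x : ℝ in atTop, ((d.factorial : ℝ) * Q ≤ x ^ (η / 2)) ∧
        (Q : ℝ) ≤ x ^ (1 / 8 : ℝ) ∧ (Q : ℝ) ≤ x ^ (τ / 2) ∧ 1 ≤ x := by
      filter_upwards [(tendsto_rpow_atTop (show (0 : ℝ) < η / 2 by positivity)).eventually_ge_atTop
        ((d.factorial : ℝ) * Q),
        (tendsto_rpow_atTop (show (0 : ℝ) < 1 / 8 by norm_num)).eventually_ge_atTop (Q : ℝ),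
        (tendsto_rpow_atTop (show (0 : ℝ) < τ / 2 by positivity)).eventually_ge_atTop (Q : ℝ),
        eventually_ge_atTop (1 : ℝ)] with x a1 a2 a3 a4
      exact ⟨a1, a2, a3, a4⟩
    obtain ⟨x₁, hx₁⟩ := eventually_atTop.mp hev
    refine ⟨τ / 2, by positivity, max x₀ ⌈x₁⌉₊, ?_⟩
    intro X hX β v _ hdD hfar hrat
    obtain ⟨a1, a2, a3, a4⟩ := hx₁ X (Nat.ceil_le.mp (le_of_max_le_right hX))
    have hXp : (0 : ℝ) < X := by linarith
    have hXx : x₀ ≤ X := le_of_max_le_left hX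
    set φ : ℕ → ℝ := fun m => ∑ n ∈ range (d + 1), β n * (m : ℝ) ^ n with hφ
    set ψ : ℕ → ℝ := fun m => ∑ n ∈ Ico (d + 1) (D + 1), β n * (m : ℝ) ^ n + v with hψ
    have hsplit : ∀ m : ℕ, ∑ n ∈ range (D + 1), β n * (m : ℝ) ^ n + v = φ m + ψ m := by
      intro m
      rw [hφ, hψ, ← add_assoc]
      congr 1
      exact (Finset.sum_range_add_sum_Ico _ (by omega)).symm
    -- the classes modulo `Q`
    have hper : ∀ m a : ℕ, m ≡ a [MOD Q] → e (ψ m) = e (ψ a) := by
      intro m a hma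
      have h1 : ∃ b : ℤ, ψ m = ψ a + b := by
        have h2 : ∀ n ∈ Ico (d + 1) (D + 1), ∃ b : ℤ, β n * (m : ℝ) ^ n =
            β n * (a : ℝ) ^ n + b := by
          intro n hn
          rw [mem_Ico] at hn
          obtain ⟨b, hb⟩ := hrat n (by omega) (by omega)
          obtain ⟨k, hk⟩ := (Nat.modEq_iff_dvd.mp ((hma.pow n).symm))
          refine ⟨b * k, ?_⟩
          have h3 : ((m : ℝ) ^ n) = (a : ℝ) ^ n + Q * k := by
            have h4 : ((m ^ n : ℕ) : ℤ) = ((a ^ n : ℕ) : ℤ) + Q * k := by rw [← hk]; ring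
            exact_mod_cast h4
          rw [h3, mul_add, ← mul_assoc, mul_comm (β n) (Q : ℝ), hb]
          push_cast
          ring
        choose! b hb using h2
        refine ⟨∑ n ∈ Ico (d + 1) (D + 1), b n, ?_⟩
        rw [hψ]
        simp only
        rw [sum_congr rfl hb, sum_add_distrib]
        push_cast
        ring
      obtain ⟨b, hb⟩ := h1
      rw [hb, e_add]
      have h5 : e ((b : ℤ) : ℝ) = 1 := Pool.Agent.TH915.PW.e_int b
      rw [h5, mul_one]
    have hclass : ∀ a : ℕ, ‖∑ m ∈ (I X).filter (fun m => m ≡ a [MOD Q]),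
        e (∑ n ∈ range (D + 1), β n * (m : ℝ) ^ n + v)‖ ≤ (X : ℝ) ^ (1 - τ) := by
      intro a
      have h1 : ∑ m ∈ (I X).filter (fun m => m ≡ a [MOD Q]),
          e (∑ n ∈ range (D + 1), β n * (m : ℝ) ^ n + v) =
          e (ψ a) * ∑ m ∈ (I X).filter (fun m => m ≡ a [MOD Q]), e (φ m) := by
        rw [mul_sum]
        refine sum_congr rfl fun m hm => ?_
        rw [mem_filter] at hm
        rw [hsplit, e_add, hper m a hm.2, mul_comm]
      rw [h1, norm_mul, norm_e, one_mul]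
      refine class_bound (I X) (fun m => e (φ m)) Q (by omega) a _ ?_
      intro j _
      have h2 : ∑ n ∈ I X, e (φ n) * e ((j : ℝ) / Q * n) =
          ∑ n ∈ I X, e (φ n + (j : ℝ) / Q * n) := sum_congr rfl fun n _ => (e_add _ _).symm
      rw [h2]
      refine hx₀ X hXx _ _ (Ph_add d _ _ _ _ (Ph_sum d β) (Ph_lin d hd ((j : ℝ) / Q))) ?_
      intro t ht1 ht2 b
      have hfac : 0 < d.factorial := Nat.factorial_pos d
      have ht3 : ((t * (d.factorial * Q) : ℕ) : ℝ) ≤ (X : ℝ) ^ η := by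
        push_cast
        calc (t : ℝ) * ((d.factorial : ℝ) * Q) ≤ (X : ℝ) ^ (η / 2) * (X : ℝ) ^ (η / 2) := by gcongr
          _ = (X : ℝ) ^ η := by
              rw [← Real.rpow_add hXp]
              congr 1
              ring
      have h3 := hfar (t * (d.factorial * Q)) (Nat.mul_pos ht1 (Nat.mul_pos hfac (by omega))) ht3
        (Q * b - (if d = 1 then (t * j : ℤ) else 0))
      have h4 : ((t * (d.factorial * Q) : ℕ) : ℝ) * β d -
          ((Q * b - (if d = 1 then (t * j : ℤ) else 0) : ℤ) : ℝ) =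
          Q * (t * ((d.factorial : ℝ) * β d + (if d = 1 then (j : ℝ) / Q else 0)) - b) := by
        split_ifs
        · push_cast
          field_simp
          ring
        · push_cast
          ring
      rw [h4, abs_mul, abs_of_pos hQ0] at h3
      have h5 : (Q : ℝ) * (X : ℝ) ^ (-(1 / 4 : ℝ)) ≤ (X : ℝ) ^ (-(1 / 8 : ℝ)) := by
        calc (Q : ℝ) * (X : ℝ) ^ (-(1 / 4 : ℝ)) ≤
              (X : ℝ) ^ (1 / 8 : ℝ) * (X : ℝ) ^ (-(1 / 4 : ℝ)) := by gcongr
          _ = (X : ℝ) ^ (-(1 / 8 : ℝ)) := by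
              rw [← Real.rpow_add hXp]
              norm_num
      exact lt_of_mul_lt_mul_left (lt_of_le_of_lt h5 h3) hQ0.le
    have hdec : ∑ m ∈ I X, e (∑ n ∈ range (D + 1), β n * (m : ℝ) ^ n + v) =
        ∑ a ∈ range Q, ∑ m ∈ (I X).filter (fun m => m ≡ a [MOD Q]),
          e (∑ n ∈ range (D + 1), β n * (m : ℝ) ^ n + v) := by
      rw [← sum_fiberwise_of_maps_to (t := range Q) (g := fun m => m % Q)
        (fun m _ => mem_range.2 (Nat.mod_lt _ (by omega)))]
      refine sum_congr rfl fun a ha => ?_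
      refine sum_congr ?_ fun _ _ => rfl
      refine filter_congr fun m _ => ?_
      unfold Nat.ModEq
      rw [Nat.mod_eq_of_lt (mem_range.1 ha)]
    rw [hdec]
    calc ‖∑ a ∈ range Q, ∑ m ∈ (I X).filter (fun m => m ≡ a [MOD Q]),
          e (∑ n ∈ range (D + 1), β n * (m : ℝ) ^ n + v)‖
        ≤ ∑ a ∈ range Q, (X : ℝ) ^ (1 - τ) :=
          (norm_sum_le _ _).trans (sum_le_sum fun a _ => hclass a)
      _ = Q * (X : ℝ) ^ (1 - τ) := by rw [sum_const, card_range, nsmul_eq_mul]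
      _ ≤ (X : ℝ) ^ (τ / 2) * (X : ℝ) ^ (1 - τ) := by gcongr
      _ = (X : ℝ) ^ (1 - τ / 2) := by
          rw [← Real.rpow_add hXp]
          congr 1
          ring
  choose τ hτ x₀ hx₀ using hone
  have hne : (range (D + 1)).Nonempty := ⟨0, mem_range.2 (Nat.succ_pos D)⟩
  refine ⟨(range (D + 1)).inf' hne τ, (Finset.lt_inf'_iff _).2 fun d _ => hτ d,
    max 1 ((range (D + 1)).sup x₀), ?_⟩
  intro X hX β v d hd hdD hfar hrat
  have hdm : d ∈ range (D + 1) := mem_range.2 (by omega)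
  have hX1 : (1 : ℝ) ≤ X := by exact_mod_cast le_of_max_le_left hX
  refine (hx₀ d X ((Finset.le_sup hdm).trans (le_of_max_le_right hX)) β v hd hdD hfar hrat).trans ?_
  apply Real.rpow_le_rpow_of_exponent_le hX1
  have := Finset.inf'_le τ hdm
  linarith

end Pool.Agent.Q270.PX
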