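import Pool.Agent.Y951.TU.Dioph

/-!
# Integral linear forms in algebraic numbers, relative to a common scale
-/

set_option autoImplicit false

open Finset Filter Topology

namespace Pool.Agent.Q270.PX

open Pool.Agent.TH419.WI

/-- irrational sums of terms `h s (c . α)` with smooth `s ≥ s₀` are not close to multiples of
`s₀` -/
theorem dioph0 {r : ℕ} (α : Fin r → ℝ) (halg : ∀ j, IsAlgebraic ℚ (α j)) (S : Finset ℕ)
    (hS : ∀ p ∈ S, 0 < p) (k : ℕ) (A δ : ℝ) (hA0 : 0 ≤ A) (hδ : 0 < δ) :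
    ∃ η : ℝ, 0 < η ∧ ∃ L0 : ℝ, ∀ L : ℝ, L0 ≤ L → ∀ (s0 : ℕ) (s : Fin k → ℕ)
      (c : Fin k → Fin r → ℤ) (h : Fin k → ℤ) (P : ℤ), Smooth S s0 →
      (s0 : ℝ) ≤ Real.exp (A * L) → (∀ i, s0 ≤ s i) →
      (∀ i, Smooth S (s i)) → (∀ i, (s i : ℝ) ≤ Real.exp (A * L)) →
      (∀ i, |(h i : ℝ)| ≤ Real.exp (η * L)) → (∀ i j, |(c i j : ℝ)| ≤ Real.exp (η * L)) →
      Irrational (∑ j, ((∑ i, h i * (s i * c i j) : ℤ) : ℝ) * α j) →
      s0 * Real.exp (-(δ * L)) < |∑ j, ((∑ i, h i * (s i * c i j) : ℤ) : ℝ) * α j - s0 * P| := by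
  by_contra hcon
  push Not at hcon
  have hpos : ∀ j : ℕ, (0 : ℝ) < 1 / ((j : ℝ) + 1) := fun j => by positivity
  choose L hL s0 s c h P h0 h0b h0c h1 h2 h3 h3' h4 h5 using
    fun j : ℕ => hcon (1 / ((j : ℝ) + 1)) (hpos j) j
  have hLt : Tendsto L atTop atTop := tendsto_atTop_mono hL tendsto_natCast_atTop_atTop
  obtain ⟨O, d, hd, hfin, hA⟩ := exists_order α halg
  have hdR : (d : ℝ) ≠ 0 := by exact_mod_cast hd
  let ρ : O →+* ℝ := O.val.toRingHom
  have hρ : ∀ x : O, ρ x = (x : ℝ) := fun x => rfl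
  have hsum : ∀ t, ∑ p : Fin (k * r), ρ (⟨(d : ℝ) * α (finProdFinEquiv.symm p).2, hA _⟩ : O) *
      ((mon (gens S) (expo S (s t (finProdFinEquiv.symm p).1)) *
        (h t (finProdFinEquiv.symm p).1 * c t (finProdFinEquiv.symm p).1
          (finProdFinEquiv.symm p).2) : ℤ) : ℝ) =
      (d : ℝ) * ∑ j, ((∑ i, h t i * (s t i * c t i j) : ℤ) : ℝ) * α j := by
    intro t
    have e1 := Equiv.sum_comp (finProdFinEquiv (m := k) (n := r)).symm
      (fun q : Fin k × Fin r => ρ (⟨(d : ℝ) * α q.2, hA _⟩ : O) *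
      ((mon (gens S) (expo S (s t q.1)) * (h t q.1 * c t q.1 q.2) : ℤ) : ℝ))
    rw [e1, Fintype.sum_prod_type, Finset.sum_comm, Finset.mul_sum]
    refine Finset.sum_congr rfl fun j _ => ?_
    push_cast
    rw [Finset.sum_mul, Finset.mul_sum]
    refine Finset.sum_congr rfl fun i _ => ?_
    rw [hρ]
    have e2 : ((mon (gens S) (expo S (s t i)) : ℤ) : ℝ) = (s t i : ℝ) := by
      rw [mon_expo (h1 t i)]
      push_cast
      rfl
    rw [e2]
    ring
  have hgpos : ∀ v, 0 < gens S v := fun v => hS _ (gens_mem S v)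
  refine claim O ρ (g := gens S) hgpos hA0 (k * r)
    (fun p => (⟨(d : ℝ) * α (finProdFinEquiv.symm p).2, hA _⟩ : O)) (δ / 2) (by positivity) L hLt
    (fun t => expo S (s0 t)) (fun t p => expo S (s t (finProdFinEquiv.symm p).1))
    (fun t p => h t (finProdFinEquiv.symm p).1 * c t (finProdFinEquiv.symm p).1
          (finProdFinEquiv.symm p).2) (fun t => d * P t) ?_ ?_ ?_ ?_ ?_ ?_
  · refine Eventually.of_forall fun t => ?_
    rw [mon_expo (h0 t)]
    push_cast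
    exact h0b t
  · refine Eventually.of_forall fun t p => ?_
    rw [mon_expo (h0 t), mon_expo (h1 t _)]
    exact_mod_cast h0c t _
  · refine Eventually.of_forall fun t p => ?_
    rw [mon_expo (h1 t _)]
    push_cast
    exact h2 t _
  · intro ε hε
    have h6 : Tendsto (fun j : ℕ => 1 / ((j : ℝ) + 1)) atTop (𝓝 0) :=
      tendsto_one_div_add_atTop_nhds_zero_nat
    filter_upwards [hLt.eventually_ge_atTop 0, h6.eventually_le_const (half_pos hε)] with t hj hj2 p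
    push_cast
    rw [abs_mul]
    calc |(h t (finProdFinEquiv.symm p).1 : ℝ)| *
          |(c t (finProdFinEquiv.symm p).1 (finProdFinEquiv.symm p).2 : ℝ)|
        ≤ Real.exp (1 / ((t : ℝ) + 1) * L t) * Real.exp (1 / ((t : ℝ) + 1) * L t) :=
          mul_le_mul (h3 t _) (h3' t _ _) (abs_nonneg _) (Real.exp_pos _).le
      _ = Real.exp (1 / ((t : ℝ) + 1) * L t + 1 / ((t : ℝ) + 1) * L t) := (Real.exp_add _ _).symm
      _ ≤ Real.exp (ε * L t) := by
          apply Real.exp_le_exp.2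
          have : 1 / ((t : ℝ) + 1) * L t ≤ ε / 2 * L t := mul_le_mul_of_nonneg_right hj2 hj
          linarith
  · refine Eventually.of_forall fun t => ?_
    rw [hsum t, irrational_intCast_mul_iff]
    exact ⟨hd, h4 t⟩
  · filter_upwards [ev_const_le hLt |(d : ℝ)| (δ / 2) (by positivity)] with t h6
    rw [hsum t, mon_expo (h0 t)]
    push_cast
    have h7 := h5 t
    push_cast at h7
    have h8 : (d : ℝ) * ∑ j, (∑ i, (h t i : ℝ) * ((s t i : ℝ) * (c t i j : ℝ))) * α j -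
        (s0 t : ℝ) * ((d : ℝ) * (P t : ℝ)) =
        (d : ℝ) * (∑ j, (∑ i, (h t i : ℝ) * ((s t i : ℝ) * (c t i j : ℝ))) * α j -
          (s0 t : ℝ) * (P t : ℝ)) := by ring
    rw [h8, abs_mul]
    calc |(d : ℝ)| * |∑ j, (∑ i, (h t i : ℝ) * ((s t i : ℝ) * (c t i j : ℝ))) * α j -
          (s0 t : ℝ) * (P t : ℝ)|
        ≤ Real.exp (δ / 2 * L t) * ((s0 t : ℝ) * Real.exp (-(δ * L t))) :=
          mul_le_mul h6 h7 (abs_nonneg _) (Real.exp_pos _).le
      _ = (s0 t : ℝ) * Real.exp (-(δ / 2 * L t)) := by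
          rw [mul_left_comm, ← Real.exp_add]; congr 2; ring

/-- nonzero sums of terms `h s (c . α)` with smooth `s ≥ s₀` are not much smaller than `s₀` -/
theorem dioph_ne {r : ℕ} (α : Fin r → ℝ) (halg : ∀ j, IsAlgebraic ℚ (α j)) (S : Finset ℕ)
    (hS : ∀ p ∈ S, 0 < p) (k : ℕ) (A δ : ℝ) (hA0 : 0 ≤ A) (hδ : 0 < δ) :
    ∃ η : ℝ, 0 < η ∧ ∃ L0 : ℝ, ∀ L : ℝ, L0 ≤ L → ∀ (s0 : ℕ) (s : Fin k → ℕ)
      (c : Fin k → Fin r → ℤ) (h : Fin k → ℤ), Smooth S s0 →
      (s0 : ℝ) ≤ Real.exp (A * L) → (∀ i, s0 ≤ s i) →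
      (∀ i, Smooth S (s i)) → (∀ i, (s i : ℝ) ≤ Real.exp (A * L)) →
      (∀ i, |(h i : ℝ)| ≤ Real.exp (η * L)) → (∀ i j, |(c i j : ℝ)| ≤ Real.exp (η * L)) →
      ∑ j, ((∑ i, h i * (s i * c i j) : ℤ) : ℝ) * α j ≠ 0 →
      s0 * Real.exp (-(δ * L)) < |∑ j, ((∑ i, h i * (s i * c i j) : ℤ) : ℝ) * α j| := by
  have h2 : IsAlgebraic ℚ (√2 : ℝ) := by
    refine IsAlgebraic.of_pow (n := 2) (by norm_num) ?_
    rw [Real.sq_sqrt (by norm_num)]
    have h := isAlgebraic_algebraMap (R := ℚ) (A := ℝ) 2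
    rwa [eq_ratCast, Rat.cast_ofNat] at h
  obtain ⟨η1, hη1, L1, h1⟩ := dioph0 α halg S hS k A δ hA0 hδ
  obtain ⟨η2, hη2, L2, h2⟩ := dioph0 (fun j => √2 * α j) (fun j => h2.mul (halg j)) S hS k A
    (δ / 2) hA0 (by positivity)
  refine ⟨min η1 η2, lt_min hη1 hη2, max (max L1 L2) (max 0 (2 / δ)), ?_⟩
  intro L hL s0 s c h h0 h0b h0c hs hsA hh hc hne
  have hL1 : L1 ≤ L := le_of_max_le_left (le_of_max_le_left hL)
  have hL2 : L2 ≤ L := le_of_max_le_right (le_of_max_le_left hL)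
  have hL3 : 0 ≤ L := le_of_max_le_left (le_of_max_le_right hL)
  have hL4 : 2 / δ ≤ L := le_of_max_le_right (le_of_max_le_right hL)
  have hη1' : ∀ i, |(h i : ℝ)| ≤ Real.exp (η1 * L) := fun i => (hh i).trans
    (Real.exp_le_exp.2 (mul_le_mul_of_nonneg_right (min_le_left _ _) hL3))
  have hη2' : ∀ i, |(h i : ℝ)| ≤ Real.exp (η2 * L) := fun i => (hh i).trans
    (Real.exp_le_exp.2 (mul_le_mul_of_nonneg_right (min_le_right _ _) hL3))
  have hc1' : ∀ i j, |(c i j : ℝ)| ≤ Real.exp (η1 * L) := fun i j => (hc i j).trans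
    (Real.exp_le_exp.2 (mul_le_mul_of_nonneg_right (min_le_left _ _) hL3))
  have hc2' : ∀ i j, |(c i j : ℝ)| ≤ Real.exp (η2 * L) := fun i j => (hc i j).trans
    (Real.exp_le_exp.2 (mul_le_mul_of_nonneg_right (min_le_right _ _) hL3))
  set X : ℝ := ∑ j, ((∑ i, h i * (s i * c i j) : ℤ) : ℝ) * α j with hX
  by_cases hirr : Irrational X
  · have h3 := h1 L hL1 s0 s c h 0 h0 h0b h0c hs hsA hη1' hc1' hirr
    rw [Int.cast_zero, mul_zero, sub_zero] at h3
    exact h3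
  · have hX2 : ∑ j, ((∑ i, h i * (s i * c i j) : ℤ) : ℝ) * (√2 * α j) = √2 * X := by
      rw [hX, Finset.mul_sum]
      refine Finset.sum_congr rfl fun j _ => ?_
      ring
    have hirr2 : Irrational (√2 * X) := by
      unfold Irrational at hirr
      rw [not_not] at hirr
      obtain ⟨x, hx⟩ := hirr
      rw [← hx]
      have hx0 : x ≠ 0 := by
        rintro rfl
        exact hne (by rw [← hx]; simp)
      exact irrational_sqrt_two.mul_ratCast hx0
    have h3 := h2 L hL2 s0 s c h 0 h0 h0b h0c hs hsA hη2' hc2' (by rw [hX2]; exact hirr2)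
    rw [hX2, Int.cast_zero, mul_zero, sub_zero, abs_mul, abs_of_pos (by positivity)] at h3
    have h4 : √2 ≤ 2 := by
      rw [Real.sqrt_le_left (by norm_num)]
      norm_num
    have h5 : (2 : ℝ) ≤ Real.exp (δ / 2 * L) := by
      have h6 := Real.add_one_le_exp (δ / 2 * L)
      have h7 : 1 ≤ δ / 2 * L := by
        rw [div_le_iff₀ hδ] at hL4
        linarith
      linarith
    have h6 : 0 < |X| := abs_pos.2 hne
    have h7 : s0 * Real.exp (-(δ * L)) * Real.exp (δ / 2 * L) =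
        s0 * Real.exp (-(δ / 2 * L)) := by
      rw [mul_assoc, ← Real.exp_add]
      congr 2
      ring
    have h8 : s0 * Real.exp (-(δ * L)) * Real.exp (δ / 2 * L) < |X| * Real.exp (δ / 2 * L) := by
      rw [h7]
      calc s0 * Real.exp (-(δ / 2 * L)) < √2 * |X| := h3
        _ ≤ Real.exp (δ / 2 * L) * |X| := by
            gcongr
            linarith
        _ = _ := mul_comm _ _
    exact lt_of_mul_lt_mul_right h8 (Real.exp_pos _).le

end Pool.Agent.Q270.PX
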