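import Pool.Agent.Q270.PX.Good2

/-!
# Real algebraic functions over the rational numbers
-/

set_option autoImplicit false

namespace Pool.Agent.Q270.PX

open Finset Real Filter Topology Polynomial

/-- `y` is continuous near infinity and satisfies a polynomial equation with rational
coefficients -/
def AlgFun (y : ℝ → ℝ) : Prop :=
  ∃ (P : ℚ[X][X]) (x₀ : ℝ), P ≠ 0 ∧ ContinuousOn y (Set.Ici x₀) ∧
    ∀ x, x₀ ≤ x → (P.map (mapRingHom (algebraMap ℚ ℝ))).evalEval x (y x) = 0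

/-- the field of the real algebraic numbers -/
noncomputable def RA : Subfield ℝ := (algebraicClosure ℚ ℝ).toSubfield

lemma mem_RA (u : ℝ) : u ∈ RA ↔ IsAlgebraic ℚ u := by
  unfold RA
  rw [IntermediateField.mem_toSubfield, mem_algebraicClosure_iff]

lemma RA_closed (u : ℝ) (hu : IsAlgebraic RA u) : u ∈ RA := by
  rw [mem_RA]
  have h1 : Algebra.IsAlgebraic ℚ (algebraicClosure ℚ ℝ) := algebraicClosure.isAlgebraic ℚ ℝ
  have hu' : IsAlgebraic (algebraicClosure ℚ ℝ) u := hu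
  exact hu'.restrictScalars ℚ

theorem tup_of_alg {r : ℕ} {y : Fin r → ℝ → ℝ} (hy : ∀ i, AlgFun (y i))
    (hind : ∀ l : Fin r → ℤ, l ≠ 0 → ∀ (c : ℝ) (f : ℚ[X]),
      ¬ ∀ᶠ x : ℝ in atTop, ∑ i, (l i : ℝ) * y i x = c + (f.map (algebraMap ℚ ℝ)).eval x) :
    ∃ (D q : ℕ) (G : Fin r → ℝ → ℝ) (g : Fin r → ℕ → ℝ), Tup r D q y G g := by
  classical
  choose P x₀ hP hc hPy using hy
  set Φ : ℚ[X][X] →+* ℝ[X][X] := mapRingHom (mapRingHom (algebraMap ℚ ℝ)) with hΦ
  have hΦinj : Function.Injective Φ :=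
    Polynomial.map_injective _ (Polynomial.map_injective _ (algebraMap ℚ ℝ).injective)
  set PP : ℝ[X][X] := Φ (∏ i, P i) with hPP
  have hPP0 : PP ≠ 0 := by
    rw [hPP, Ne, map_eq_zero_iff Φ hΦinj]
    exact Finset.prod_ne_zero_iff.2 fun i _ => hP i
  have hPPK : ∀ i j, (PP.coeff i).coeff j ∈ RA := by
    intro i j
    rw [hPP, hΦ, coe_mapRingHom, coeff_map, coe_mapRingHom, coeff_map]
    rw [mem_RA]
    exact isAlgebraic_algebraMap _
  have hPPev : ∀ i x, x₀ i ≤ x → PP.evalEval x (y i x) = 0 := by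
    intro i x hx
    rw [hPP, map_prod, ← coe_evalEvalRingHom, map_prod]
    apply Finset.prod_eq_zero (mem_univ i)
    rw [coe_evalEvalRingHom, hΦ, coe_mapRingHom]
    exact hPy i x hx
  obtain ⟨D, q, hq, S, hS, hSan, hroots⟩ := puiseux RA_closed PP hPP0 hPPK
  have hbr : ∀ i, ∃ G ∈ S, ∀ᶠ x : ℝ in atTop, y i x = Br D q G x := by
    intro i
    refine branch hq hS (fun G hG => (hSan G hG).1) (hc i) ?_
    filter_upwards [hroots, eventually_ge_atTop (x₀ i)] with x hx hx0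
    obtain ⟨G, hG, h⟩ := (hx (y i x)).1 (hPPev i x hx0)
    exact ⟨G, hG, h⟩
  choose G hGS hG using hbr
  choose g hg1 hg2 using fun i => exists_coeff (hSan (G i) (hGS i)).1
  refine ⟨D, q, G, g, ⟨hq, hg1, hg2, fun i j => (mem_RA _).1 (coeff_mem (hSan _ (hGS i)) (hg1 i) j),
    hG, ?_⟩⟩
  intro l hl
  by_contra hcon
  push Not at hcon
  obtain ⟨h1, h2⟩ := hcon
  have h3 : ∀ n, ∃ b : ℚ, 1 ≤ n → n ≤ D → (b : ℝ) = ∑ i, (l i : ℝ) * g i (q * (D - n)) := by
    intro n
    by_cases hn : 1 ≤ n ∧ n ≤ D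
    · have h4 := h2 n hn.1 hn.2
      unfold Irrational at h4
      rw [not_not] at h4
      obtain ⟨b, hb⟩ := h4
      exact ⟨b, fun _ _ => hb⟩
    · exact ⟨0, fun a b => absurd ⟨a, b⟩ hn⟩
  choose b hb using h3
  refine hind l hl (∑ i, (l i : ℝ) * g i (q * D)) (∑ n ∈ Finset.Icc 1 D, C (b n) * X ^ n) ?_
  filter_upwards [comb_poly (D := D) hq hg2, Filter.eventually_all.2 hG] with x hx hx2
  have h5 := hx (fun i => (l i : ℝ)) h1
  have h6 : ∑ i, (l i : ℝ) * y i x = ∑ i, (l i : ℝ) * Br D q (G i) x :=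
    sum_congr rfl fun i _ => by rw [hx2 i]
  rw [h6, h5, Polynomial.map_sum, Polynomial.eval_finsetSum, Finset.sum_range_succ',
    add_comm]
  congr 1
  · simp
  · have h7 : Finset.Icc 1 D = (range D).image (fun n => n + 1) := by
      ext n
      simp only [mem_Icc, mem_image, mem_range]
      constructor
      · rintro ⟨a1, a2⟩
        exact ⟨n - 1, by omega, by omega⟩
      · rintro ⟨m, a1, rfl⟩
        omega
    rw [h7, sum_image (fun _ _ _ _ h => Nat.succ_injective h)]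
    refine sum_congr rfl fun n hn => ?_
    have hn' := mem_range.1 hn
    rw [Polynomial.map_mul, Polynomial.map_C, Polynomial.map_pow, Polynomial.map_X,
      Polynomial.eval_mul, Polynomial.eval_C, Polynomial.eval_pow, Polynomial.eval_X,
      eq_ratCast, hb (n + 1) (by omega) (by omega)]

end Pool.Agent.Q270.PX
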