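import Pool.Agent.Q270.SQ.Series

/-!
# Analytic functions whose Taylor coefficients lie in a subfield
-/

set_option autoImplicit false

namespace Pool.Agent.Q270.PX

open Filter Topology Finset Asymptotics
open Pool.Agent.Q270.SQ (Tay tay_of_analytic tay_unique)

variable {K : Subfield ℝ}

/-- analytic at `0`, with Taylor coefficients in `K` -/
def An (K : Subfield ℝ) (f : ℝ → ℝ) : Prop :=
  AnalyticAt ℝ f 0 ∧ ∀ J : ℕ, ∃ p : Polynomial K,
    (fun σ : ℝ => f σ - Polynomial.aeval σ p) =O[𝓝[>] 0] (fun σ : ℝ => σ ^ J)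

lemma pow_isBigO {m n : ℕ} (h : m ≤ n) : (fun σ : ℝ => σ ^ n) =O[𝓝[>] 0] (fun σ : ℝ => σ ^ m) := by
  refine IsBigO.of_bound 1 ?_
  filter_upwards [Ioo_mem_nhdsGT (show (0 : ℝ) < 1 by norm_num)] with x hx
  rw [one_mul, norm_pow, norm_pow]
  apply pow_le_pow_of_le_one (norm_nonneg _) _ h
  rw [Real.norm_eq_abs, abs_of_pos hx.1]
  exact hx.2.le

lemma isBigO_one {f : ℝ → ℝ} (hf : ContinuousAt f 0) :
    f =O[𝓝[>] 0] (fun _ : ℝ => (1 : ℝ)) :=
  (hf.tendsto.mono_left nhdsWithin_le_nhds).isBigO_one ℝ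

lemma aeval_cont (p : Polynomial K) : Continuous fun σ : ℝ => Polynomial.aeval σ p := by
  have : (fun σ : ℝ => Polynomial.aeval σ p) = fun σ => (p.map (algebraMap K ℝ)).eval σ := by
    funext σ
    rw [Polynomial.eval_map_algebraMap]
  rw [this]
  exact Polynomial.continuous _

lemma aeval_analytic (p : Polynomial K) : AnalyticAt ℝ (fun σ : ℝ => Polynomial.aeval σ p) 0 := by
  have : (fun σ : ℝ => Polynomial.aeval σ p) =
      fun σ => Polynomial.aeval σ (p.map (algebraMap K ℝ)) := by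
    funext σ
    rw [Polynomial.aeval_map_algebraMap]
  rw [this]
  exact AnalyticAt.aeval_polynomial analyticAt_id _

lemma An.poly (p : Polynomial K) : An K (fun σ : ℝ => Polynomial.aeval σ p) :=
  ⟨aeval_analytic p, fun J => ⟨p, by
    simp only [sub_self]
    exact isBigO_zero _ _⟩⟩

lemma An.congr {f g : ℝ → ℝ} (hf : An K f) (h : ∀ σ, f σ = g σ) : An K g := by
  have : f = g := funext h
  rwa [← this]

lemma An.const {a : ℝ} (ha : a ∈ K) : An K (fun _ => a) :=
  (An.poly (Polynomial.C (⟨a, ha⟩ : K))).congr fun σ => by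
    rw [Polynomial.aeval_C]
    rfl

lemma An.natCast (n : ℕ) : An K (fun _ => (n : ℝ)) := An.const (natCast_mem K n)

lemma An.zero : An K (fun _ => (0 : ℝ)) := An.const (zero_mem K)

lemma An.pow_id (n : ℕ) : An K (fun σ => σ ^ n) :=
  (An.poly (Polynomial.X ^ n)).congr fun σ => by simp

lemma An.add {f g : ℝ → ℝ} (hf : An K f) (hg : An K g) : An K (fun σ => f σ + g σ) := by
  refine ⟨hf.1.add hg.1, fun J => ?_⟩
  obtain ⟨p, hp⟩ := hf.2 J
  obtain ⟨q, hq⟩ := hg.2 J
  refine ⟨p + q, (hp.add hq).congr_left fun σ => ?_⟩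
  rw [map_add]
  ring

lemma An.mul {f g : ℝ → ℝ} (hf : An K f) (hg : An K g) : An K (fun σ => f σ * g σ) := by
  refine ⟨hf.1.mul hg.1, fun J => ?_⟩
  obtain ⟨p, hp⟩ := hf.2 J
  obtain ⟨q, hq⟩ := hg.2 J
  refine ⟨p * q, ?_⟩
  have h1 : (fun σ : ℝ => f σ * (g σ - Polynomial.aeval σ q)) =O[𝓝[>] 0] (fun σ : ℝ => σ ^ J) := by
    have := (isBigO_one hf.1.continuousAt).mul hq
    simpa using this
  have h2 : (fun σ : ℝ => (f σ - Polynomial.aeval σ p) * Polynomial.aeval σ q) =O[𝓝[>] 0]
      (fun σ : ℝ => σ ^ J) := by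
    have := hp.mul (isBigO_one (aeval_cont q).continuousAt)
    simpa using this
  refine (h1.add h2).congr_left fun σ => ?_
  rw [map_mul]
  ring

lemma An.pow {f : ℝ → ℝ} (hf : An K f) (n : ℕ) : An K (fun σ => f σ ^ n) := by
  induction n with
  | zero => exact (An.natCast 1).congr fun σ => by simp
  | succ n ih => exact (ih.mul hf).congr fun σ => (pow_succ _ _).symm

lemma An.sum {ι : Type*} (s : Finset ι) {f : ι → ℝ → ℝ} (hf : ∀ i ∈ s, An K (f i)) :
    An K (fun σ => ∑ i ∈ s, f i σ) := by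
  classical
  induction s using Finset.induction_on with
  | empty => exact An.zero.congr fun σ => by simp
  | insert i s hi ih =>
    exact ((hf i (mem_insert_self _ _)).add (ih fun j hj => hf j (mem_insert_of_mem hj))).congr
      fun σ => by rw [sum_insert hi]

lemma pow_tendsto {q : ℕ} (hq : 1 ≤ q) : Tendsto (fun σ : ℝ => σ ^ q) (𝓝[>] 0) (𝓝[>] 0) := by
  rw [tendsto_nhdsWithin_iff]
  constructor
  · have h : Tendsto (fun σ : ℝ => σ ^ q) (𝓝 0) (𝓝 (0 ^ q)) := (continuous_pow q).tendsto 0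
    rw [zero_pow (by omega)] at h
    exact h.mono_left nhdsWithin_le_nhds
  · filter_upwards [self_mem_nhdsWithin] with σ hσ
    exact pow_pos (Set.mem_Ioi.1 hσ) q

lemma analytic_pow_comp {G : ℝ → ℝ} (hG : AnalyticAt ℝ G 0) {q : ℕ} (hq : 1 ≤ q) :
    AnalyticAt ℝ (fun σ => G (σ ^ q)) 0 := by
  have h : AnalyticAt ℝ (fun σ : ℝ => σ ^ q) 0 := analyticAt_id.pow q
  refine AnalyticAt.fun_comp (g := G) ?_ h
  simpa [zero_pow (show q ≠ 0 by omega)] using hG

lemma An.pow_comp {G : ℝ → ℝ} (hG : An K G) {q : ℕ} (hq : 1 ≤ q) : An K (fun σ => G (σ ^ q)) := by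
  refine ⟨analytic_pow_comp hG.1 hq, fun J => ?_⟩
  obtain ⟨p, hp⟩ := hG.2 J
  refine ⟨Polynomial.expand K q p, ?_⟩
  have h1 := hp.comp_tendsto (pow_tendsto hq)
  have h2 : ((fun σ : ℝ => σ ^ J) ∘ fun σ : ℝ => σ ^ q) =O[𝓝[>] 0] (fun σ : ℝ => σ ^ J) := by
    refine (pow_isBigO (m := J) (n := q * J) (by nlinarith)).congr_left fun σ => ?_
    simp only [Function.comp, pow_mul]
  refine (h1.trans h2).congr_left fun σ => ?_
  simp only [Function.comp, Polynomial.expand_aeval]

lemma poly_isBigO {p : Polynomial ℝ} {n : ℕ}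
    (h : (fun σ : ℝ => p.eval σ) =O[𝓝[>] 0] (fun σ : ℝ => σ ^ n)) : ∀ j < n, p.coeff j = 0 := by
  have h1 : Tay (fun j => p.coeff j) (fun σ => p.eval σ) := by
    intro J
    have h2 : (fun x : ℝ => p.eval x - ∑ j ∈ Finset.range J, p.coeff j * x ^ j) =
        fun x : ℝ => ∑ j ∈ (range (max J (p.natDegree + 1))) \ range J, p.coeff j * x ^ j := by
      funext x
      rw [Polynomial.eval_eq_sum_range' (n := max J (p.natDegree + 1)) (by
        exact lt_of_lt_of_le (Nat.lt_succ_self _) (le_max_right _ _))]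
      rw [← Finset.sum_sdiff (Finset.range_subset_range.2 (le_max_left J (p.natDegree + 1)))]
      ring
    rw [h2]
    refine IsBigO.fun_sum fun j hj => ?_
    have h3 : J ≤ j := by
      rw [Finset.mem_sdiff, mem_range, mem_range] at hj
      omega
    exact (pow_isBigO h3).const_mul_left _
  have h2 := tay_unique (J := n) (c' := fun _ => 0) (h1 n) (by simpa using h)
  exact h2

lemma An.val {f : ℝ → ℝ} (hf : An K f) : f 0 ∈ K := by
  obtain ⟨p, hp⟩ := hf.2 1
  have h1 : Tendsto (fun σ : ℝ => f σ - Polynomial.aeval σ p) (𝓝[>] 0) (𝓝 0) := by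
    refine hp.trans_tendsto ?_
    simp only [pow_one]
    exact tendsto_id.mono_left nhdsWithin_le_nhds
  have h2 : Tendsto (fun σ : ℝ => f σ - Polynomial.aeval σ p) (𝓝[>] 0)
      (𝓝 (f 0 - Polynomial.aeval 0 p)) :=
    ((hf.1.continuousAt.tendsto).sub ((aeval_cont p).tendsto 0)).mono_left nhdsWithin_le_nhds
  have h3 := tendsto_nhds_unique h1 h2
  have h4 : f 0 = Polynomial.aeval (0 : ℝ) p := by linarith
  rw [h4, ← Polynomial.coeff_zero_eq_aeval_zero']
  exact (p.coeff 0).2

lemma An.div_pow {f g : ℝ → ℝ} {n : ℕ} (hf : An K f) (hg : AnalyticAt ℝ g 0)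
    (h : ∀ᶠ σ in 𝓝[>] (0 : ℝ), f σ = σ ^ n * g σ) : An K g := by
  refine ⟨hg, fun J => ?_⟩
  obtain ⟨p, hp⟩ := hf.2 (n + J)
  have h1 : f =O[𝓝[>] 0] (fun σ : ℝ => σ ^ n) := by
    have h2 := (isBigO_refl (fun σ : ℝ => σ ^ n) (𝓝[>] 0)).mul (isBigO_one hg.continuousAt)
    simp only [mul_one] at h2
    refine h2.congr' ?_ EventuallyEq.rfl
    filter_upwards [h] with σ hσ
    exact hσ.symm
  have h2 : (fun σ : ℝ => (p.map (algebraMap K ℝ)).eval σ) =O[𝓝[>] 0] (fun σ : ℝ => σ ^ n) := by
    refine (h1.sub (hp.trans (pow_isBigO (Nat.le_add_right n J)))).congr_left fun σ => ?_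
    rw [Polynomial.eval_map_algebraMap]
    ring
  have h3 : Polynomial.X ^ n ∣ p := by
    rw [Polynomial.X_pow_dvd_iff]
    intro j hj
    have h4 := poly_isBigO h2 j hj
    rw [Polynomial.coeff_map] at h4
    exact (map_eq_zero_iff _ (algebraMap K ℝ).injective).1 h4
  obtain ⟨p', hp'⟩ := h3
  refine ⟨p', ?_⟩
  have h4 : (fun σ : ℝ => σ ^ n * (g σ - Polynomial.aeval σ p')) =O[𝓝[>] 0]
      (fun σ : ℝ => σ ^ (n + J)) := by
    refine hp.congr' ?_ EventuallyEq.rfl
    filter_upwards [h] with σ hσ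
    rw [hσ, hp', map_mul, map_pow, Polynomial.aeval_X]
    ring
  have h5 := (isBigO_refl (fun σ : ℝ => (σ ^ n)⁻¹) (𝓝[>] 0)).mul h4
  refine h5.congr' ?_ ?_
  · filter_upwards [self_mem_nhdsWithin] with σ hσ
    have : σ ^ n ≠ 0 := pow_ne_zero _ (ne_of_gt (Set.mem_Ioi.1 hσ))
    field_simp
  · filter_upwards [self_mem_nhdsWithin] with σ hσ
    have : σ ^ n ≠ 0 := pow_ne_zero _ (ne_of_gt (Set.mem_Ioi.1 hσ))
    rw [pow_add]
    field_simp

/-- the implicit function -/
lemma An.implicit {n : ℕ} {E : ℕ → ℝ → ℝ} (hE : ∀ k, An K (E k)) (h1 : E 1 0 ≠ 0)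
    {c : ℝ → ℝ} (hc : AnalyticAt ℝ c 0) (hc0 : c 0 = 0)
    (h : ∀ᶠ σ in 𝓝[>] (0 : ℝ), ∑ k ∈ range (n + 2), E k σ * c σ ^ k = 0) : An K c := by
  refine ⟨hc, fun J => ?_⟩
  have hcO : c =O[𝓝[>] 0] (fun σ : ℝ => σ ^ 1) := by
    obtain ⟨g, hg⟩ := tay_of_analytic hc
    have h2 := hg 1
    have h3 := hg 0
    have h4 : g 0 = 0 := by
      have h5 : Tendsto (fun σ : ℝ => c σ - ∑ j ∈ range 1, g j * σ ^ j) (𝓝[>] 0) (𝓝 0) := by
        refine h2.trans_tendsto ?_
        simp only [pow_one]
        exact tendsto_id.mono_left nhdsWithin_le_nhds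
      have h6 : Tendsto (fun σ : ℝ => c σ - ∑ j ∈ range 1, g j * σ ^ j) (𝓝[>] 0)
          (𝓝 (c 0 - g 0)) := by
        simp only [sum_range_one, pow_zero, mul_one]
        exact ((hc.continuousAt.tendsto).sub tendsto_const_nhds).mono_left nhdsWithin_le_nhds
      have h7 := tendsto_nhds_unique h5 h6
      rw [hc0] at h7
      linarith
    simpa [h4] using h2
  have hstep : ∀ J : ℕ, ∃ p : Polynomial K,
      (fun σ : ℝ => c σ - Polynomial.aeval σ p) =O[𝓝[>] 0] (fun σ : ℝ => σ ^ (J + 1)) := by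
    intro J
    induction J with
    | zero => exact ⟨0, by simpa using hcO⟩
    | succ J ih =>
      obtain ⟨p, hp⟩ := ih
      have hpO : (fun σ : ℝ => Polynomial.aeval σ p) =O[𝓝[>] 0] (fun σ : ℝ => σ ^ 1) := by
        refine (hcO.sub (hp.trans (pow_isBigO (by omega)))).congr_left fun σ => ?_
        ring
      -- the next coefficient
      obtain ⟨g, hg⟩ := tay_of_analytic (hc.sub (aeval_analytic p))
      have hg0 : ∀ j < J + 1, g j = 0 := tay_unique (c' := fun _ => 0) (hg (J + 1)) (by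
        simpa using hp)
      have hg1 : (fun σ : ℝ => c σ - Polynomial.aeval σ p - g (J + 1) * σ ^ (J + 1)) =O[𝓝[>] 0]
          (fun σ : ℝ => σ ^ (J + 2)) := by
        refine (hg (J + 2)).congr_left fun σ => ?_
        rw [sum_range_succ, sum_eq_zero (fun j hj => by rw [hg0 j (mem_range.1 hj), zero_mul]),
          zero_add]
        rfl
      -- the equation
      have hAn : An K (fun σ => ∑ k ∈ range (n + 2), E k σ * Polynomial.aeval σ p ^ k) :=
        An.sum _ fun k _ => (hE k).mul ((An.poly p).pow k)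
      obtain ⟨w, hw⟩ := hAn.2 (J + 2)
      have hk : ∀ k, 2 ≤ k → (fun σ : ℝ => c σ ^ k - Polynomial.aeval σ p ^ k) =O[𝓝[>] 0]
          (fun σ : ℝ => σ ^ (J + 2)) := by
        intro k hk
        have h2 : (fun σ : ℝ => ∑ i ∈ range k, c σ ^ i * Polynomial.aeval σ p ^ (k - 1 - i))
            =O[𝓝[>] 0] (fun σ : ℝ => σ ^ 1) := by
          refine IsBigO.fun_sum fun i hi => ?_
          have hi' := mem_range.1 hi
          have h3 := (hcO.pow i).mul (hpO.pow (k - 1 - i))
          refine h3.trans ?_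
          refine (pow_isBigO (m := 1) (n := k - 1) (by omega)).congr_left fun σ => ?_
          rw [← pow_mul, ← pow_mul, ← pow_add]
          congr 1
          omega
        have h3 := h2.mul hp
        refine (h3.congr_left fun σ => ?_).congr_right fun σ => ?_
        · rw [(Commute.all (c σ) (Polynomial.aeval σ p)).geom_sum₂_mul k]
        · rw [← pow_add]
          congr 1
          omega
      have hsum : (fun σ : ℝ => ∑ k ∈ range (n + 2), E k σ * c σ ^ k -
          ∑ k ∈ range (n + 2), E k σ * Polynomial.aeval σ p ^ k -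
          E 1 0 * g (J + 1) * σ ^ (J + 1)) =O[𝓝[>] 0] (fun σ : ℝ => σ ^ (J + 2)) := by
        have h2 : ∀ k ∈ range (n + 2), (fun σ : ℝ => E k σ * c σ ^ k -
            E k σ * Polynomial.aeval σ p ^ k -
            (if k = 1 then E 1 0 * g (J + 1) * σ ^ (J + 1) else 0)) =O[𝓝[>] 0]
            (fun σ : ℝ => σ ^ (J + 2)) := by
          intro k _
          rcases Nat.lt_or_ge k 2 with hk2 | hk2
          · interval_cases k
            · simp only [pow_zero, sub_self, zero_ne_one, if_false]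
              exact isBigO_zero _ _
            · simp only [pow_one, if_true]
              have h3 : (fun σ : ℝ => E 1 σ * (c σ - Polynomial.aeval σ p -
                  g (J + 1) * σ ^ (J + 1))) =O[𝓝[>] 0] (fun σ : ℝ => σ ^ (J + 2)) := by
                have := (isBigO_one (hE 1).1.continuousAt).mul hg1
                simpa using this
              have h4 : (fun σ : ℝ => E 1 σ - E 1 0) =O[𝓝[>] 0] (fun σ : ℝ => σ ^ 1) := by
                have h5 := (hE 1).1.differentiableAt.hasDerivAt.isBigO_sub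
                have h6 := h5.mono (nhdsWithin_le_nhds (s := Set.Ioi (0 : ℝ)))
                simpa using h6
              have h5 : (fun σ : ℝ => (E 1 σ - E 1 0) * (g (J + 1) * σ ^ (J + 1))) =O[𝓝[>] 0]
                  (fun σ : ℝ => σ ^ (J + 2)) := by
                have h6 := h4.mul ((isBigO_refl (fun σ : ℝ => σ ^ (J + 1)) (𝓝[>] 0)).const_mul_left
                  (g (J + 1)))
                refine h6.congr_right fun σ => ?_
                rw [← pow_add]
                congr 1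
                omega
              refine (h3.add h5).congr_left fun σ => ?_
              ring
          · have hk1 : k ≠ 1 := by omega
            simp only [if_neg hk1]
            have := (isBigO_one (hE k).1.continuousAt).mul (hk k hk2)
            simp only [one_mul] at this
            refine this.congr_left fun σ => ?_
            ring
        refine (IsBigO.fun_sum h2).congr_left fun σ => ?_
        simp only [sum_sub_distrib]
        rw [Finset.sum_ite_eq' (range (n + 2)) 1 (fun _ => E 1 0 * g (J + 1) * σ ^ (J + 1)),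
          if_pos (mem_range.2 (by omega))]
      have hfin : (fun σ : ℝ => (w.map (algebraMap K ℝ) +
          Polynomial.C (E 1 0 * g (J + 1)) * Polynomial.X ^ (J + 1)).eval σ) =O[𝓝[>] 0]
          (fun σ : ℝ => σ ^ (J + 2)) := by
        refine ((hw.add hsum).neg_left).congr' ?_ EventuallyEq.rfl
        filter_upwards [h] with σ hσ
        rw [hσ]
        simp only [Polynomial.eval_add, Polynomial.eval_mul, Polynomial.eval_C,
          Polynomial.eval_pow, Polynomial.eval_X, Polynomial.eval_map_algebraMap]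
        ring
      have h6 := poly_isBigO hfin (J + 1) (by omega)
      rw [Polynomial.coeff_add, Polynomial.coeff_map, Polynomial.coeff_C_mul_X_pow,
        if_pos rfl] at h6
      have hgK : g (J + 1) ∈ K := by
        have h7 : g (J + 1) = -(algebraMap K ℝ (w.coeff (J + 1))) / E 1 0 := by
          field_simp
          linarith
        rw [h7]
        exact div_mem (neg_mem (w.coeff (J + 1)).2) (hE 1).val
      refine ⟨p + Polynomial.C ⟨g (J + 1), hgK⟩ * Polynomial.X ^ (J + 1), ?_⟩
      refine hg1.congr_left fun σ => ?_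
      rw [map_add, map_mul, map_pow, Polynomial.aeval_X, Polynomial.aeval_C]
      have : algebraMap K ℝ ⟨g (J + 1), hgK⟩ = g (J + 1) := rfl
      rw [this]
      ring
  obtain ⟨p, hp⟩ := hstep J
  exact ⟨p, hp.trans (pow_isBigO (Nat.le_succ J))⟩

end Pool.Agent.Q270.PX
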