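import Pool.Agent.Q270.PX.Inf

/-!
# Real algebraic functions: branches and their expansions in powers of `m ^ (1/q)`
-/

set_option autoImplicit false

namespace Pool.Agent.Q270.PX

open Filter Topology Finset Asymptotics
open Pool.Agent.Q270.SQ (Tay Expands tay_of_hasFPowerSeries tay_unique)

variable {K : Subfield ℝ}

/-- the function `x ^ D G(x ^ (-1/q))` -/
noncomputable def Br (D q : ℕ) (G : ℝ → ℝ) (x : ℝ) : ℝ := x ^ D * G (rt q x)

/-- the exponents `D - j/q` -/
noncomputable def ex (D q : ℕ) (j : ℕ) : ℝ := (D : ℝ) - j / q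

lemma ex_anti (D : ℕ) {q : ℕ} (hq : 1 ≤ q) : StrictAnti (ex D q) := by
  intro i j hij
  unfold ex
  have hq0 : (0 : ℝ) < q := by exact_mod_cast hq
  have : (i : ℝ) / q < j / q := by
    apply div_lt_div_of_pos_right _ hq0
    exact_mod_cast hij
  linarith

lemma ex_tendsto (D : ℕ) {q : ℕ} (hq : 1 ≤ q) : Tendsto (ex D q) atTop atBot := by
  have hq0 : (0 : ℝ) < q := by exact_mod_cast hq
  unfold ex
  simp only [sub_eq_add_neg]
  refine tendsto_atBot_add_const_left _ _ (tendsto_neg_atTop_atBot.comp ?_)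
  exact tendsto_natCast_atTop_atTop.atTop_div_const hq0

/-- the exponent is a natural number exactly if `j = q (D - n)` -/
lemma ex_nat {D q : ℕ} (hq : 1 ≤ q) {j n : ℕ} (h : ex D q j = n) : n ≤ D ∧ j = q * (D - n) := by
  have hq0 : (0 : ℝ) < q := by exact_mod_cast hq
  unfold ex at h
  have h1 : (j : ℝ) = q * (D - n) := by
    field_simp at h
    linarith
  have h2 : (n : ℝ) ≤ D := by
    have : (0 : ℝ) ≤ j := Nat.cast_nonneg j
    rw [h1] at this
    nlinarith [(mul_nonneg_iff_of_pos_left hq0).1 this]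
  have h3 : n ≤ D := by exact_mod_cast h2
  refine ⟨h3, ?_⟩
  have h4 : (j : ℝ) = ((q * (D - n) : ℕ) : ℝ) := by
    rw [h1]
    push_cast [Nat.cast_sub h3]
    ring
  exact_mod_cast h4

lemma ex_of {D q n : ℕ} (hq : 1 ≤ q) (hn : n ≤ D) : ex D q (q * (D - n)) = n := by
  have hq0 : (q : ℝ) ≠ 0 := by exact_mod_cast (show q ≠ 0 by omega)
  unfold ex
  push_cast [Nat.cast_sub hn]
  field_simp
  ring

lemma rpow_ex {D q : ℕ} (_hq : 1 ≤ q) {x : ℝ} (hx : 0 < x) (j : ℕ) :
    x ^ ex D q j = x ^ D * rt q x ^ j := by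
  unfold ex rt
  rw [sub_eq_add_neg, Real.rpow_add hx, Real.rpow_natCast, ← Real.rpow_natCast (x ^ _) j,
    ← Real.rpow_mul hx.le]
  congr 2
  ring

/-- the Taylor coefficients of an analytic function at `0` -/
lemma exists_coeff {G : ℝ → ℝ} (hG : AnalyticAt ℝ G 0) :
    ∃ g : ℕ → ℝ, Tay g G ∧ ∀ᶠ t in 𝓝 (0 : ℝ), HasSum (fun n => t ^ n * g n) (G t) := by
  obtain ⟨p, hp⟩ := hG
  refine ⟨fun j => p.coeff j, tay_of_hasFPowerSeries hp, ?_⟩
  have h1 := hasFPowerSeriesAt_iff.1 hp
  filter_upwards [h1] with t ht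
  rw [zero_add] at ht
  simpa using ht

lemma coeff_mem {G : ℝ → ℝ} (hG : An K G) {g : ℕ → ℝ} (hg : Tay g G) (j : ℕ) : g j ∈ K := by
  obtain ⟨p, hp⟩ := hG.2 (j + 1)
  have h1 : (fun σ : ℝ => (p.map (algebraMap K ℝ)).eval σ -
      ∑ i ∈ range (j + 1), g i * σ ^ i) =O[𝓝[>] 0] (fun σ : ℝ => σ ^ (j + 1)) := by
    refine ((hg (j + 1)).sub hp).congr_left fun σ => ?_
    rw [Polynomial.eval_map_algebraMap]
    ring
  have h2 : (fun σ : ℝ => ((p.map (algebraMap K ℝ)) -
      ∑ i ∈ range (j + 1), Polynomial.C (g i) * Polynomial.X ^ i).eval σ) =O[𝓝[>] 0]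
        (fun σ : ℝ => σ ^ (j + 1)) := by
    refine h1.congr_left fun σ => ?_
    rw [Polynomial.eval_sub, Polynomial.eval_finsetSum]
    simp
  have h3 := poly_isBigO h2 j (Nat.lt_succ_self j)
  rw [Polynomial.coeff_sub, Polynomial.coeff_map, Polynomial.finsetSum_coeff] at h3
  simp only [Polynomial.coeff_C_mul_X_pow] at h3
  rw [Finset.sum_ite_eq (range (j + 1)) j, if_pos (mem_range.2 (Nat.lt_succ_self j))] at h3
  have h4 : g j = algebraMap K ℝ (p.coeff j) := by linarith
  rw [h4]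
  exact (p.coeff j).2

/-- the expansion along the reals -/
lemma br_isBigO {D q : ℕ} (hq : 1 ≤ q) {G : ℝ → ℝ} {g : ℕ → ℝ} (hg : Tay g G) (J : ℕ) :
    (fun x : ℝ => Br D q G x - ∑ j ∈ range J, g j * x ^ ex D q j) =O[atTop]
      (fun x : ℝ => x ^ ex D q J) := by
  have h1 := (hg J).comp_tendsto (rt_tendsto hq)
  have h2 := (isBigO_refl (fun x : ℝ => x ^ D) atTop).mul h1
  refine h2.congr' ?_ ?_
  · filter_upwards [eventually_gt_atTop 0] with x hx
    unfold Br
    simp only [Function.comp]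
    rw [mul_sub, mul_sum]
    congr 1
    refine sum_congr rfl fun j _ => ?_
    rw [rpow_ex hq hx]
    ring
  · filter_upwards [eventually_gt_atTop 0] with x hx
    simp only [Function.comp]
    rw [rpow_ex hq hx]

lemma br_expands {D q : ℕ} (hq : 1 ≤ q) {G : ℝ → ℝ} {g : ℕ → ℝ} (hg : Tay g G) :
    Expands (ex D q) g (fun m : ℕ => Br D q G m) := fun J =>
  (br_isBigO hq hg J).comp_tendsto tendsto_natCast_atTop_atTop

/-- a branch without exponents which are not natural numbers is a polynomial -/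
lemma br_poly {D q : ℕ} (hq : 1 ≤ q) {G : ℝ → ℝ} {g : ℕ → ℝ}
    (hs : ∀ᶠ t in 𝓝 (0 : ℝ), HasSum (fun n => t ^ n * g n) (G t))
    (h : ∀ j, (∀ n : ℕ, ex D q j ≠ n) → g j = 0) :
    ∀ᶠ x : ℝ in atTop, Br D q G x =
      (∑ n ∈ range (D + 1), Polynomial.C (g (q * (D - n))) * Polynomial.X ^ n).eval x := by
  filter_upwards [(rt_tendsto hq).eventually (hs.filter_mono nhdsWithin_le_nhds),
    eventually_gt_atTop 0] with x hx hx0
  have h1 : HasSum (fun n => rt q x ^ n * g n)
      (∑ j ∈ (range (D + 1)).image (fun n => q * (D - n)), rt q x ^ j * g j) := by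
    refine hasSum_sum_of_ne_finset_zero fun j hj => ?_
    rw [h j, mul_zero]
    intro n hn
    apply hj
    obtain ⟨h2, h3⟩ := ex_nat hq hn
    rw [mem_image]
    exact ⟨n, mem_range.2 (by omega), h3.symm⟩
  have h2 := hx.unique h1
  unfold Br
  rw [h2, Polynomial.eval_finsetSum, sum_image, mul_sum]
  · refine sum_congr rfl fun n hn => ?_
    have hnD : n ≤ D := by have := mem_range.1 hn; omega
    simp only [Polynomial.eval_mul, Polynomial.eval_C, Polynomial.eval_pow, Polynomial.eval_X]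
    rw [pow_mul, rt_pow hq hx0]
    have h3 : x ^ D = x ^ n * x ^ (D - n) := by rw [← pow_add]; congr 1; omega
    rw [h3, inv_pow]
    field_simp
  · intro n hn n' hn' heq
    have h3 := mem_range.1 (Finset.mem_coe.1 hn)
    have h4 := mem_range.1 (Finset.mem_coe.1 hn')
    simp only at heq
    have h5 := Nat.eq_of_mul_eq_mul_left (by omega : 0 < q) heq
    omega

/-- a continuous choice of roots is one branch -/
lemma branch {D q : ℕ} (hq : 1 ≤ q) {S : Set (ℝ → ℝ)} (hS : S.Finite)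
    (hSa : ∀ G ∈ S, AnalyticAt ℝ G 0) {y : ℝ → ℝ} {x₀ : ℝ} (hy : ContinuousOn y (Set.Ici x₀))
    (h : ∀ᶠ x : ℝ in atTop, ∃ G ∈ S, y x = Br D q G x) :
    ∃ G ∈ S, ∀ᶠ x : ℝ in atTop, y x = Br D q G x := by
  classical
  -- two branches are equal or different near infinity
  have hpair : ∀ G ∈ S, ∀ G' ∈ S, (∀ᶠ t in 𝓝[>] (0 : ℝ), G t = G' t) ∨
      (∀ᶠ t in 𝓝[>] (0 : ℝ), G t ≠ G' t) := by
    intro G hG G' hG'
    rcases (hSa G hG).eventually_eq_or_eventually_ne (hSa G' hG') with h1 | h1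
    · exact Or.inl (h1.filter_mono nhdsWithin_le_nhds)
    · exact Or.inr (h1.filter_mono (nhdsWithin_mono _ fun t ht => (Set.mem_Ioi.1 ht).ne'))
  have hev : ∀ᶠ t in 𝓝[>] (0 : ℝ), ∀ G ∈ S, ∀ G' ∈ S,
      (G t = G' t ↔ ∀ᶠ s in 𝓝[>] (0 : ℝ), G s = G' s) := by
    refine (Filter.eventually_all_finite hS).2 fun G hG =>
      (Filter.eventually_all_finite hS).2 fun G' hG' => ?_
    rcases hpair G hG G' hG' with h1 | h1
    · filter_upwards [h1] with t ht
      exact ⟨fun _ => h1, fun _ => ht⟩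
    · filter_upwards [h1] with t ht
      refine ⟨fun h2 => absurd h2 ht, fun h2 => ?_⟩
      obtain ⟨s, hs1, hs2⟩ := (h1.and h2).exists
      exact absurd hs2 hs1
  have hcont : ∀ᶠ t in 𝓝[>] (0 : ℝ), ∀ G ∈ S, ContinuousAt G t := by
    refine (Filter.eventually_all_finite hS).2 fun G hG => ?_
    exact (hSa G hG).eventually_analyticAt.filter_mono nhdsWithin_le_nhds |>.mono
      fun t ht => ht.continuousAt
  obtain ⟨X, hX⟩ := eventually_atTop.1 (h.and (((rt_tendsto hq).eventually (hev.and hcont)).and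
    ((eventually_ge_atTop x₀).and (eventually_gt_atTop (0 : ℝ)))))
  obtain ⟨G, hG, hyG⟩ := (hX X le_rfl).1
  refine ⟨G, hG, ?_⟩
  -- the set where `y` is the branch `G` is open and closed
  have hx0 : ∀ x ∈ Set.Ici X, 0 < x := fun x hx => (hX x hx).2.2.2
  have hyc : ContinuousOn y (Set.Ici X) := hy.mono fun x hx => (hX x hx).2.2.1
  have hrt : ContinuousOn (rt q) (Set.Ici X) := by
    intro x hx
    exact (Real.continuousAt_rpow_const x _ (Or.inl (hx0 x hx).ne')).continuousWithinAt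
  have hBc : ∀ G' ∈ S, ContinuousOn (Br D q G') (Set.Ici X) := by
    intro G' hG' x hx
    have h1 : ContinuousAt G' (rt q x) := (hX x hx).2.1.2 G' hG'
    exact ((continuous_pow D).continuousWithinAt).mul
      (h1.comp_continuousWithinAt (hrt x hx))
  set R : Finset (ℝ → ℝ) := hS.toFinset.filter
    (fun G' => ¬ ∀ᶠ s in 𝓝[>] (0 : ℝ), G s = G' s) with hR
  -- the separating function
  set F : ℝ → ℝ := fun x => ∏ G' ∈ R, ((y x - Br D q G x) / (Br D q G' x - Br D q G x)) with hF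
  have hmemR : ∀ G' ∈ R, G' ∈ S ∧ ∀ x ∈ Set.Ici X, Br D q G' x - Br D q G x ≠ 0 := by
    intro G' hG'
    rw [hR, mem_filter, Set.Finite.mem_toFinset] at hG'
    refine ⟨hG'.1, fun x hx => ?_⟩
    have h1 := (hX x hx).2.1.1 G hG G' hG'.1
    have h2 : G (rt q x) ≠ G' (rt q x) := fun h3 => hG'.2 (h1.1 h3)
    unfold Br
    rw [← mul_sub]
    have h3 := hx0 x hx
    exact mul_ne_zero (by positivity) (sub_ne_zero.2 (Ne.symm h2))
  -- the quotient by one of them
  have hclaim : ∀ x ∈ Set.Ici X, y x = Br D q G x := by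
    intro x hx
    by_contra hne
    obtain ⟨G', hG', hyG'⟩ := (hX x hx).1
    have hGG' : G' ∈ R := by
      rw [hR, mem_filter, Set.Finite.mem_toFinset]
      refine ⟨hG', fun h1 => hne ?_⟩
      have h2 := ((hX x hx).2.1.1 G hG G' hG').2 h1
      rw [hyG']
      unfold Br
      rw [h2]
    -- the continuous function |y - G| / min |G'' - G|
    have hRne : R.Nonempty := ⟨G', hGG'⟩
    set f : ℝ → ℝ := fun x => |y x - Br D q G x| with hf
    set μ : ℝ → ℝ := fun x => R.inf' hRne (fun G'' => |Br D q G'' x - Br D q G x|) with hμ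
    have hμpos : ∀ z ∈ Set.Ici X, 0 < μ z := by
      intro z hz
      simp only [hμ]
      rw [Finset.lt_inf'_iff]
      intro G'' hG''
      exact abs_pos.2 ((hmemR G'' hG'').2 z hz)
    have hμc : ContinuousOn μ (Set.Ici X) := by
      simp only [hμ]
      refine ContinuousOn.finset_inf'_apply hRne fun G'' hG'' => ?_
      exact ((hBc G'' (hmemR G'' hG'').1).sub (hBc G hG)).abs
    have hfc : ContinuousOn (fun z => f z / μ z) (Set.Ici X) :=
      ((hyc.sub (hBc G hG)).abs).div hμc fun z hz => (hμpos z hz).ne'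
    have hval : ∀ z ∈ Set.Ici X, f z / μ z = 0 ∨ 1 ≤ f z / μ z := by
      intro z hz
      obtain ⟨G₁, hG₁, hyG₁⟩ := (hX z hz).1
      by_cases h1 : G₁ ∈ R
      · right
        rw [one_le_div (hμpos z hz)]
        simp only [hf, hμ, hyG₁]
        exact Finset.inf'_le _ h1
      · left
        have h2 : ∀ᶠ s in 𝓝[>] (0 : ℝ), G s = G₁ s := by
          rw [hR, mem_filter, Set.Finite.mem_toFinset, not_and, not_not] at h1
          exact h1 hG₁
        have h3 := ((hX z hz).2.1.1 G hG G₁ hG₁).2 h2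
        simp only [hf, hyG₁]
        unfold Br
        rw [h3, sub_self, abs_zero, zero_div]
    have hconn : (Set.Ici X : Set ℝ).OrdConnected := Set.ordConnected_Ici
    have himg := (isPreconnected_Ici (a := X)).image _ hfc
    have h0 : (0 : ℝ) ∈ (fun z => f z / μ z) '' Set.Ici X := by
      refine ⟨X, Set.mem_Ici.2 le_rfl, ?_⟩
      simp only [hf, hyG, sub_self, abs_zero, zero_div]
    have h1 : f x / μ x ∈ (fun z => f z / μ z) '' Set.Ici X := ⟨x, hx, rfl⟩
    have h2 : 1 ≤ f x / μ x := by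
      rcases hval x hx with h3 | h3
      · exfalso
        rw [div_eq_zero_iff] at h3
        rcases h3 with h4 | h4
        · simp only [hf] at h4
          exact hne (by linarith [abs_eq_zero.1 h4])
        · exact (hμpos x hx).ne' h4
      · exact h3
    have h3 : (1 / 2 : ℝ) ∈ (fun z => f z / μ z) '' Set.Ici X :=
      himg.ordConnected.out h0 h1 ⟨by norm_num, by linarith⟩
    obtain ⟨z, hz, hz2⟩ := h3
    simp only at hz2
    rcases hval z hz with h4 | h4
    · rw [h4] at hz2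
      norm_num at hz2
    · rw [hz2] at h4
      norm_num at h4
  filter_upwards [eventually_ge_atTop X] with x hx
  exact hclaim x hx

end Pool.Agent.Q270.PX
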