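import Pool.Agent.Q270.PX.Alg

/-!
# The converse: rational relations forbid a digit matrix
-/

set_option autoImplicit false

namespace Pool.Agent.Q270.PX

open Finset Real Filter Topology Polynomial

/-- the values are algebraic -/
lemma values_alg {y : ℝ → ℝ} (hy : AlgFun y) : ∀ᶠ m : ℕ in atTop, IsAlgebraic ℚ (y m) := by
  obtain ⟨P, x₀, hP, -, hPy⟩ := hy
  obtain ⟨i, hi⟩ : ∃ i, P.coeff i ≠ 0 := by
    by_contra hcon
    push Not at hcon
    exact hP (Polynomial.ext (by simpa using hcon))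
  have hfin : {m : ℕ | (P.coeff i).IsRoot (m : ℚ)}.Finite := by
    have h1 : {x : ℚ | (P.coeff i).IsRoot x}.Finite := by
      refine ((P.coeff i).roots.toFinset.finite_toSet).subset fun x hx => ?_
      simp only [Finset.mem_coe, Multiset.mem_toFinset]
      exact (mem_roots hi).2 hx
    exact h1.preimage (Nat.cast_injective.injOn)
  have h2 : ∀ᶠ m : ℕ in atTop, ¬ (P.coeff i).IsRoot (m : ℚ) := by
    rw [← Nat.cofinite_eq_atTop]
    exact hfin.eventually_cofinite_notMem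
  filter_upwards [h2, tendsto_natCast_atTop_atTop.eventually (eventually_ge_atTop x₀)] with m hm hx
  refine ⟨P.map (evalRingHom (m : ℚ)), ?_, ?_⟩
  · intro h3
    apply hm
    have h4 := congrArg (fun p => p.coeff i) h3
    simp only [coeff_map, coe_evalRingHom, coeff_zero] at h4
    exact h4
  · have h3 := hPy m hx
    rw [← map_evalRingHom_eval, Polynomial.map_map] at h3
    have h4 : (evalRingHom (m : ℝ)).comp (mapRingHom (algebraMap ℚ ℝ)) =
        (algebraMap ℚ ℝ).comp (evalRingHom (m : ℚ)) := by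
      apply Polynomial.ringHom_ext
      · intro a
        simp
      · simp
    rw [h4, ← Polynomial.map_map] at h3
    rw [← eval_map_algebraMap]
    exact h3

/-- a common denominator of the values of a rational polynomial at the integers -/
lemma denom_poly (f : ℚ[X]) : ∃ d : ℕ, 1 ≤ d ∧ ∀ m : ℕ, ∃ a : ℤ,
    (d : ℝ) * (f.map (algebraMap ℚ ℝ)).eval (m : ℝ) = a := by
  refine ⟨∏ i ∈ range (f.natDegree + 1), (f.coeff i).den,
    Nat.succ_le_of_lt (Finset.prod_pos fun i _ => (f.coeff i).den_pos), fun m => ?_⟩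
  have h1 : ∀ i ∈ range (f.natDegree + 1), ∃ a : ℤ,
      ((∏ i ∈ range (f.natDegree + 1), (f.coeff i).den : ℕ) : ℝ) * ((f.coeff i : ℚ) : ℝ) = a := by
    intro i hi
    obtain ⟨k, hk⟩ := Finset.dvd_prod_of_mem (fun i => (f.coeff i).den) hi
    refine ⟨k * (f.coeff i).num, ?_⟩
    rw [hk]
    push_cast
    have h1 : ((f.coeff i : ℚ) : ℝ) * (f.coeff i).den = (f.coeff i).num := by
      exact_mod_cast Rat.mul_den_eq_num (f.coeff i)
    calc ((f.coeff i).den : ℝ) * k * (f.coeff i : ℝ) = k * ((f.coeff i : ℝ) * (f.coeff i).den) := by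
          ring
      _ = _ := by rw [h1]
  choose! a ha using h1
  refine ⟨∑ i ∈ range (f.natDegree + 1), a i * (m : ℤ) ^ i, ?_⟩
  have h2 : (f.map (algebraMap ℚ ℝ)).natDegree = f.natDegree := natDegree_map _
  rw [eval_eq_sum_range, h2, mul_sum]
  push_cast
  refine sum_congr rfl fun i hi => ?_
  rw [← ha i hi, coeff_map, eq_ratCast]
  push_cast
  ring

theorem conv {r : ℕ} {y : Fin r → ℝ → ℝ} (l : Fin r → ℤ) (hl : l ≠ 0) (f : ℚ[X])
    (h : ∀ᶠ x : ℝ in atTop, ∑ j, (l j : ℝ) * y j x = (f.map (algebraMap ℚ ℝ)).eval x)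
    (b : ℕ) (hb : 2 ≤ b) :
    ∃ k : ℕ, 1 ≤ k ∧ ∃ E : Fin r → ℕ, (∀ j, E j < b ^ k) ∧ ∀ᶠ m : ℕ in atTop, ∀ s : ℕ,
      ¬ ∀ j, ⌊(b : ℝ) ^ k * Int.fract ((b : ℝ) ^ s * y j m)⌋₊ = E j := by
  classical
  obtain ⟨d, hd, hdf⟩ := denom_poly f
  obtain ⟨j0, hj0⟩ : ∃ j, l j ≠ 0 := by
    by_contra hcon
    push Not at hcon
    exact hl (funext hcon)
  set Ls : ℕ := ∑ j, d * (l j).natAbs with hLs
  set a0 : ℕ := d * (l j0).natAbs with ha0
  have ha01 : 1 ≤ a0 := Nat.mul_pos hd (Int.natAbs_pos.2 hj0)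
  have ha0L : a0 ≤ Ls := Finset.single_le_sum (f := fun j => d * (l j).natAbs)
    (fun _ _ => Nat.zero_le _) (mem_univ j0)
  set k : ℕ := 8 * Ls with hk
  have hk1 : 1 ≤ k := by omega
  have hbk : 8 * Ls ≤ b ^ k := by
    have := Nat.lt_pow_self (n := k) (show 1 < b by omega)
    omega
  have hb0 : 0 < b := by omega
  have hbk0 : (0 : ℝ) < (b : ℝ) ^ k := by positivity
  have hbkR : 8 * (Ls : ℝ) ≤ (b : ℝ) ^ k := by exact_mod_cast hbk
  have ha0R : (1 : ℝ) ≤ a0 := by exact_mod_cast ha01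
  have ha0LR : (a0 : ℝ) ≤ Ls := by exact_mod_cast ha0L
  set E : Fin r → ℕ := fun j => if j = j0 then b ^ k / (2 * a0) else 0 with hE
  refine ⟨k, hk1, E, ?_, ?_⟩
  · intro j
    rw [hE]
    simp only
    split_ifs
    · exact Nat.div_lt_self (by positivity) (by omega)
    · positivity
  filter_upwards [tendsto_natCast_atTop_atTop.eventually h] with m hm s hs
  obtain ⟨a, ha⟩ := hdf m
  -- the integer relation
  set z : Fin r → ℝ := fun j => Int.fract ((b : ℝ) ^ s * y j m) with hz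
  have hint : ∃ c : ℤ, ∑ j, ((d : ℝ) * l j) * z j = c := by
    refine ⟨(b : ℤ) ^ s * a - ∑ j, (d : ℤ) * l j * ⌊(b : ℝ) ^ s * y j m⌋, ?_⟩
    have h1 : ∀ j, ((d : ℝ) * l j) * z j = (b : ℝ) ^ s * (d * (l j * y j m)) -
        ((d : ℝ) * l j) * (⌊(b : ℝ) ^ s * y j m⌋ : ℝ) := by
      intro j
      rw [hz]
      simp only
      have h2 : Int.fract ((b : ℝ) ^ s * y j m) =
          (b : ℝ) ^ s * y j m - (⌊(b : ℝ) ^ s * y j m⌋ : ℝ) := rfl
      rw [h2]
      ring
    rw [sum_congr rfl fun j _ => h1 j, sum_sub_distrib, ← mul_sum, ← mul_sum, hm, ha]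
    push_cast
    rfl
  obtain ⟨c, hc⟩ := hint
  have hz0 : ∀ j, 0 ≤ z j := fun j => Int.fract_nonneg _
  have hzE : ∀ j, |z j - E j / (b : ℝ) ^ k| ≤ 1 / (b : ℝ) ^ k := by
    intro j
    have h1 := hs j
    have h2 : (0 : ℝ) ≤ (b : ℝ) ^ k * z j := mul_nonneg hbk0.le (hz0 j)
    have h3 := Nat.floor_le h2
    have h4 := Nat.lt_floor_add_one ((b : ℝ) ^ k * z j)
    have h5 : (⌊(b : ℝ) ^ k * z j⌋₊ : ℝ) = E j := by
      rw [← h1]
    rw [h5] at h3 h4
    have h6 : z j - E j / (b : ℝ) ^ k = ((b : ℝ) ^ k * z j - E j) / (b : ℝ) ^ k := by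
      field_simp
    rw [h6, abs_div, abs_of_pos hbk0]
    gcongr
    rw [abs_le]
    constructor <;> linarith
  -- the distance from the centre
  have hT : |(c : ℝ) - (d : ℝ) * l j0 * (E j0 / (b : ℝ) ^ k)| ≤ 1 / 8 := by
    have h1 : (c : ℝ) - (d : ℝ) * l j0 * (E j0 / (b : ℝ) ^ k) =
        ∑ j, ((d : ℝ) * l j) * (z j - E j / (b : ℝ) ^ k) := by
      have h2 : ∑ j, ((d : ℝ) * l j) * ((E j : ℝ) / (b : ℝ) ^ k) =
          (d : ℝ) * l j0 * (E j0 / (b : ℝ) ^ k) := by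
        refine sum_eq_single_of_mem j0 (mem_univ _) fun j _ hj => ?_
        rw [hE]
        simp only
        rw [if_neg hj]
        simp
      rw [← hc, ← h2, ← sum_sub_distrib]
      refine sum_congr rfl fun j _ => ?_
      ring
    rw [h1]
    calc |∑ j, ((d : ℝ) * l j) * (z j - E j / (b : ℝ) ^ k)| ≤
          ∑ j, |((d : ℝ) * l j) * (z j - E j / (b : ℝ) ^ k)| := abs_sum_le_sum_abs _ _
      _ ≤ ∑ j, ((d * (l j).natAbs : ℕ) : ℝ) * (1 / (b : ℝ) ^ k) := by
          refine sum_le_sum fun j _ => ?_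
          rw [abs_mul]
          have h3 : |(d : ℝ) * l j| = ((d * (l j).natAbs : ℕ) : ℝ) := by
            rw [abs_mul, Nat.abs_cast]
            push_cast
            rw [Nat.cast_natAbs]
            push_cast
            rfl
          rw [h3]
          exact mul_le_mul_of_nonneg_left (hzE j) (Nat.cast_nonneg _)
      _ = (Ls : ℝ) * (1 / (b : ℝ) ^ k) := by
          rw [← sum_mul, hLs]
          push_cast
          rfl
      _ ≤ 1 / 8 := by
          rw [mul_one_div, div_le_div_iff₀ hbk0 (by norm_num)]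
          linarith
  have hcen : 3 / 8 ≤ |(d : ℝ) * l j0 * (E j0 / (b : ℝ) ^ k)| ∧
      |(d : ℝ) * l j0 * (E j0 / (b : ℝ) ^ k)| ≤ 1 / 2 := by
    have h1 : |(d : ℝ) * l j0 * (E j0 / (b : ℝ) ^ k)| = (a0 : ℝ) * (E j0 / (b : ℝ) ^ k) := by
      rw [abs_mul, abs_mul, Nat.abs_cast, abs_of_nonneg (by positivity : (0 : ℝ) ≤ E j0 / (b : ℝ) ^ k),
        ha0]
      push_cast
      rw [Nat.cast_natAbs]
      push_cast
      rfl
    have h2 : E j0 = b ^ k / (2 * a0) := by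
      rw [hE]
      simp
    have h3 : (E j0 : ℝ) * (2 * a0) ≤ (b : ℝ) ^ k := by
      rw [h2]
      exact_mod_cast Nat.div_mul_le_self (b ^ k) (2 * a0)
    have h4 : (b : ℝ) ^ k < (E j0 + 1) * (2 * a0) := by
      rw [h2]
      have := Nat.lt_div_mul_add (a := b ^ k) (show 0 < 2 * a0 by omega)
      have h5 : b ^ k < (b ^ k / (2 * a0) + 1) * (2 * a0) := by
        rw [add_mul, one_mul]
        exact this
      exact_mod_cast h5
    rw [h1, ← mul_div_assoc]
    constructor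
    · rw [div_le_div_iff₀ (by norm_num) hbk0]
      nlinarith
    · rw [div_le_div_iff₀ hbk0 (by norm_num)]
      nlinarith
  have h1 : |(c : ℝ)| ≤ 5 / 8 := by
    have h2 : (c : ℝ) = ((c : ℝ) - (d : ℝ) * l j0 * (E j0 / (b : ℝ) ^ k)) +
      (d : ℝ) * l j0 * (E j0 / (b : ℝ) ^ k) := by ring
    rw [h2]
    refine (abs_add_le _ _).trans ?_
    linarith [hcen.2]
  have h2 : 1 / 4 ≤ |(c : ℝ)| := by
    have h3 : (d : ℝ) * l j0 * (E j0 / (b : ℝ) ^ k) =
      (c : ℝ) + -((c : ℝ) - (d : ℝ) * l j0 * (E j0 / (b : ℝ) ^ k)) := by ring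
    have h4 := abs_add_le (c : ℝ) (-((c : ℝ) - (d : ℝ) * l j0 * (E j0 / (b : ℝ) ^ k)))
    rw [← h3, abs_neg] at h4
    linarith [hcen.1]
  have h3 : |c| < 1 := by
    have : |(c : ℝ)| < 1 := by linarith
    exact_mod_cast this
  have h4 : c = 0 := Int.abs_lt_one_iff.1 h3
  rw [h4] at h2
  norm_num at h2

end Pool.Agent.Q270.PX
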