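import Pool.Agent.Q270.SQ.Exp

/-!
# Sums over phases with an expansion one of whose coefficients is large
-/

set_option autoImplicit false

namespace Pool.Agent.Q270.PX

open Finset Real Filter MeasureTheory Asymptotics
open scoped NNReal
open Pool.Agent.H469R2.NK (e norm_e e_add)
open Pool.Agent.Q270.SP (Fp)
open Pool.Agent.Q270.SQ (Expands GoodI e_sub)

section

variable {r : ℕ} {α : ℕ → ℝ} {c : Fin r → ℕ → ℝ} {g : Fin r → ℕ → ℝ}

/-- sums over the phases which are combinations of sequences with asymptotic expansions -/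
theorem phase_coef (hα : StrictAnti α) (hαt : Tendsto α atTop atBot)
    (hg : ∀ i, Expands α (c i) (g i)) {J0 : ℕ} {κ : ℝ} (hκ : ∀ j < J0, -κ ≤ α j) {I : ℕ → Finset ℕ} (hI : GoodI I) (d : ℕ) (δ A : ℝ)
    (hδ : 0 < δ) (hA : 0 ≤ A) :
    ∃ τ : ℝ, 0 < τ ∧ ∃ x₀ : ℕ, ∀ M : ℕ, x₀ ≤ M → ∀ x : Fin r → ℝ,
      (∃ j < J0, (∀ n : ℕ, α j ≠ n) ∧ (M : ℝ) ^ (κ + δ) ≤ |∑ i, x i * c i j|) →
      (∀ i, |x i| ≤ (M : ℝ) ^ A) →
      ∀ Q : Polynomial ℝ, Q.natDegree ≤ d →
      ‖∑ m ∈ I M, e (∑ i, x i * g i m + Q.eval (m : ℝ))‖ ≤ (M : ℝ) ^ (1 - τ) := by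
  classical
  obtain ⟨hIsub, -, hIsum⟩ := hI
  obtain ⟨J, hJJ0, hJα⟩ : ∃ J, J0 ≤ J ∧ α J ≤ -(2 * (A + 2)) :=
    ((eventually_ge_atTop J0).and (hαt.eventually_le_atBot _)).exists
  have hα0 : α J ≤ 0 := by linarith
  -- the exponents
  set D0 : ℝ := α J - 1 with hD0
  set θ : Fin J → ℝ := fun j => if (∃ n : ℕ, α j = n) then D0 - j else α j with hθdef
  have hDneg : ∀ j : ℕ, D0 - (j : ℝ) < α J ∧ D0 - (j : ℝ) < 0 := fun j => by
    have : (0 : ℝ) ≤ j := Nat.cast_nonneg j
    constructor <;> linarith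
  have hθ : ∀ j, ∀ m : ℕ, θ j ≠ m := by
    intro j m
    simp only [hθdef]
    split_ifs with h
    · have h1 := (hDneg j).2
      have h2 : (0 : ℝ) ≤ m := Nat.cast_nonneg m
      intro h3
      linarith
    · push Not at h
      exact h m
  have hinj : Function.Injective θ := by
    intro j k hjk
    simp only [hθdef] at hjk
    have h1 := hα j.2
    have h2 := hα k.2
    have h3 := (hDneg j).1
    have h4 := (hDneg k).1
    split_ifs at hjk with a1 a2 a2
    · have : (j : ℝ) = k := by linarith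
      exact Fin.ext (by exact_mod_cast this)
    · linarith
    · linarith
    · exact Fin.ext (hα.injective hjk)
  -- the degree
  obtain ⟨D, hD⟩ : ∃ D : ℕ, ∀ j : ℕ, ∀ n : ℕ, α j = n → n ≤ D := by
    refine ⟨⌈|α 0|⌉₊, fun j n hn => ?_⟩
    have h1 : α j ≤ α 0 := hα.antitone (Nat.zero_le j)
    have h2 : (n : ℝ) ≤ ⌈|α 0|⌉₊ := by
      rw [← hn]
      exact h1.trans ((le_abs_self _).trans (Nat.le_ceil _))
    exact_mod_cast h2
  set Cc : ℝ := ∑ i, ∑ j ∈ range J, |c i j| with hCc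
  have hCc0 : 0 ≤ Cc := sum_nonneg fun i _ => sum_nonneg fun j _ => abs_nonneg _
  -- the remainders
  have hrem : ∀ i, ∃ C : ℝ, 0 ≤ C ∧ ∃ m0 : ℕ, ∀ m : ℕ, m0 ≤ m →
      |g i m - ∑ j ∈ range J, c i j * (m : ℝ) ^ α j| ≤ C * (m : ℝ) ^ α J := by
    intro i
    obtain ⟨C, hC⟩ := (hg i J).bound
    obtain ⟨m0, hm0⟩ := eventually_atTop.1 hC
    refine ⟨max C 0, le_max_right _ _, m0, fun m hm => ?_⟩
    have h1 := hm0 m hm
    rw [Real.norm_eq_abs, Real.norm_eq_abs, abs_of_nonneg (by positivity : 0 ≤ (m : ℝ) ^ α J)] at h1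
    exact h1.trans (mul_le_mul_of_nonneg_right (le_max_left _ _) (by positivity))
  choose C hC0 m0 hm0 using hrem
  set CR : ℝ := ∑ i, C i with hCR
  have hCR0 : 0 ≤ CR := sum_nonneg fun i _ => hC0 i
  set mm : ℕ := (univ : Finset (Fin r)).sup m0 with hmm
  -- the constants
  obtain ⟨τ, hτ, x₀, hx₀⟩ := hIsum J (max d D) θ hθ hinj δ (A + |α 0| + 1) (by positivity)
    (by positivity)
  set τ' : ℝ := min (τ / 2) (1 / 4) with hτ'
  have hτ'0 : 0 < τ' := lt_min (by positivity) (by norm_num)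
  have hτ'1 : τ' ≤ τ / 2 := min_le_left _ _
  have hτ'2 : τ' ≤ 1 / 4 := min_le_right _ _
  have hev : ∀ᶠ x : ℝ in atTop, Cc ≤ x ∧ CR ≤ x ∧ (mm : ℝ) + 1 ≤ x ^ (1 / 2 : ℝ) ∧
      10 ≤ x ^ τ' ∧ 1 ≤ x := by
    filter_upwards [eventually_ge_atTop Cc, eventually_ge_atTop CR,
      (tendsto_rpow_atTop (show (0 : ℝ) < 1 / 2 by norm_num)).eventually_ge_atTop ((mm : ℝ) + 1),
      (tendsto_rpow_atTop hτ'0).eventually_ge_atTop 10,
      eventually_ge_atTop (1 : ℝ)] with x a2 a3 a4 a5 a6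
    exact ⟨a2, a3, a4, a5, a6⟩
  obtain ⟨x₁, hx₁⟩ := eventually_atTop.mp hev
  refine ⟨τ', hτ'0, max x₀ ⌈x₁⌉₊, ?_⟩
  intro M hM x hx1 hxA Q hQ
  obtain ⟨a2, a3, a4, a5, a6⟩ := hx₁ M (Nat.ceil_le.mp (le_of_max_le_right hM))
  have hM0 : (0 : ℝ) < M := by linarith
  set H : ℝ := (M : ℝ) ^ (1 / 2 : ℝ) with hH
  have hHH : H * H = M := by rw [hH, ← Real.rpow_add hM0]; norm_num
  have hH0 : 0 < H := by positivity
  -- the frequencies
  set F : ℕ → ℝ := fun j => ∑ i, x i * c i j with hF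
  set f : Fin J → ℝ := fun j => if (∃ n : ℕ, α j = n) then 0 else F j with hf
  set Q' : Polynomial ℝ := Q + ∑ j : Fin J, (if h : (∃ n : ℕ, α j = n) then
    Polynomial.C (F j) * Polynomial.X ^ h.choose else 0) with hQ'
  have hQ'd : Q'.natDegree ≤ max d D := by
    refine (Polynomial.natDegree_add_le _ _).trans (max_le_max hQ ?_)
    refine Polynomial.natDegree_sum_le_of_forall_le _ _ fun j _ => ?_
    split_ifs with h
    · refine (Polynomial.natDegree_C_mul_X_pow_le _ _).trans ?_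
      exact hD j _ h.choose_spec
    · simp
  have hFbd : ∀ j < J, |F j| ≤ (M : ℝ) ^ A * Cc := by
    intro j hj
    calc |F j| ≤ ∑ i, |x i * c i j| := abs_sum_le_sum_abs _ _
      _ ≤ ∑ i, (M : ℝ) ^ A * |c i j| := by
          refine sum_le_sum fun i _ => ?_
          rw [abs_mul]
          exact mul_le_mul_of_nonneg_right (hxA i) (abs_nonneg _)
      _ = (M : ℝ) ^ A * ∑ i, |c i j| := by rw [mul_sum]
      _ ≤ (M : ℝ) ^ A * Cc := by
          apply mul_le_mul_of_nonneg_left _ (by positivity)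
          refine sum_le_sum fun i _ => ?_
          exact single_le_sum (f := fun j => |c i j|) (fun j _ => abs_nonneg _) (mem_range.2 hj)
  have hkey := hx₀ M (le_of_max_le_left hM) f (by
    obtain ⟨j, hj, hjn, hjK⟩ := hx1
    refine ⟨⟨j, hj.trans_le hJJ0⟩, ?_⟩
    have hnn : ¬ ∃ n : ℕ, α j = n := by push Not; exact hjn
    have h1 : f ⟨j, hj.trans_le hJJ0⟩ = F j := by
      simp only [hf]
      rw [if_neg hnn]
    have h2 : θ ⟨j, hj.trans_le hJJ0⟩ = α j := by
      simp only [hθdef]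
      rw [if_neg hnn]
    rw [h1, h2]
    calc (M : ℝ) ^ δ = (M : ℝ) ^ (κ + δ) * (M : ℝ) ^ (-κ) := by
          rw [← Real.rpow_add hM0]
          congr 1
          ring
      _ ≤ |F j| * (M : ℝ) ^ α j := by
          apply mul_le_mul hjK (Real.rpow_le_rpow_of_exponent_le a6 (hκ j hj)) (by positivity)
            (abs_nonneg _)) (by
    intro j
    simp only [hf, hθdef]
    split_ifs with h
    · rw [abs_zero, zero_mul]
      positivity
    · calc |F j| * (M : ℝ) ^ α j ≤ ((M : ℝ) ^ A * Cc) * (M : ℝ) ^ |α 0| := by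
            apply mul_le_mul (hFbd j j.2) _ (by positivity) (by positivity)
            exact Real.rpow_le_rpow_of_exponent_le a6
              ((hα.antitone (Nat.zero_le _)).trans (le_abs_self _))
        _ ≤ ((M : ℝ) ^ A * M) * (M : ℝ) ^ |α 0| := by gcongr
        _ = (M : ℝ) ^ (A + |α 0| + 1) := by
            rw [show A + |α 0| + 1 = A + 1 + |α 0| by ring, Real.rpow_add hM0, Real.rpow_add hM0,
              Real.rpow_one]) Q' hQ'd
  -- the phases
  have hFp : ∀ m : ℕ, Fp θ f Q' m = ∑ j ∈ range J, F j * (m : ℝ) ^ α j + Q.eval (m : ℝ) := by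
    intro m
    unfold Pool.Agent.Q270.SP.Fp
    rw [hQ', Polynomial.eval_add, Polynomial.eval_finsetSum, ← Fin.sum_univ_eq_sum_range
      (fun j => F j * (m : ℝ) ^ α j) J, add_comm (Q.eval (m : ℝ)), ← add_assoc, ← sum_add_distrib]
    congr 1
    refine sum_congr rfl fun j _ => ?_
    simp only [hf, hθdef]
    by_cases h : ∃ n : ℕ, α j = n
    · rw [if_pos h, if_pos h, dif_pos h]
      simp only [Polynomial.eval_mul, Polynomial.eval_C, Polynomial.eval_pow, Polynomial.eval_X,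
        zero_mul, zero_add]
      conv_rhs => rw [h.choose_spec, Real.rpow_natCast]
    · rw [if_neg h, if_neg h, dif_neg h]
      simp
  have hdiff : ∀ m ∈ I M, ‖e (∑ i, x i * g i m + Q.eval (m : ℝ)) - e (Fp θ f Q' m)‖ ≤
      (if (m : ℝ) ≤ H then 2 else 0) + 2 * π / M := by
    intro m hm
    have hm1 := mem_Ioc.1 (hIsub M hm)
    have hmR : (1 : ℝ) ≤ m := by exact_mod_cast hm1.1
    have hmM : (m : ℝ) ≤ M := by exact_mod_cast hm1.2
    split_ifs with h
    · have h1 := norm_sub_le (e (∑ i, x i * g i m + Q.eval (m : ℝ))) (e (Fp θ f Q' m))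
      rw [norm_e, norm_e] at h1
      have : 0 ≤ 2 * π / M := by positivity
      linarith
    · push Not at h
      rw [zero_add]
      refine (e_sub _ _).trans ?_
      rw [mul_div_assoc]
      have h2 : |∑ i, x i * g i m + Q.eval (m : ℝ) - Fp θ f Q' m| ≤ 1 / M := by
        rw [hFp]
        have h3 : ∑ i, x i * g i m + Q.eval (m : ℝ) -
            (∑ j ∈ range J, F j * (m : ℝ) ^ α j + Q.eval (m : ℝ)) =
            ∑ i, x i * (g i m - ∑ j ∈ range J, c i j * (m : ℝ) ^ α j) := by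
          simp only [mul_sub, sum_sub_distrib, hF, sum_mul, mul_sum]
          rw [sum_comm]
          simp only [mul_assoc]
          ring
        rw [h3]
        have hmm0 : ∀ i, m0 i ≤ m := by
          intro i
          have h4 : m0 i ≤ mm := Finset.le_sup (mem_univ i)
          have h5 : (mm : ℝ) < m := by linarith
          have h6 : mm < m := by exact_mod_cast h5
          omega
        have hpow : (m : ℝ) ^ α J ≤ (M : ℝ) ^ (-(A + 2)) := by
          calc (m : ℝ) ^ α J ≤ H ^ α J := Real.rpow_le_rpow_of_nonpos hH0 h.le hα0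
            _ = (M : ℝ) ^ (α J / 2) := by
                rw [hH, ← Real.rpow_mul hM0.le]
                congr 1
                ring
            _ ≤ _ := Real.rpow_le_rpow_of_exponent_le a6 (by linarith)
        calc |∑ i, x i * (g i m - ∑ j ∈ range J, c i j * (m : ℝ) ^ α j)| ≤
              ∑ i, |x i * (g i m - ∑ j ∈ range J, c i j * (m : ℝ) ^ α j)| :=
              abs_sum_le_sum_abs _ _
          _ ≤ ∑ i, (M : ℝ) ^ A * (C i * (M : ℝ) ^ (-(A + 2))) := by
              refine sum_le_sum fun i _ => ?_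
              rw [abs_mul]
              apply mul_le_mul (hxA i) _ (abs_nonneg _) (by positivity)
              refine (hm0 i m (hmm0 i)).trans ?_
              exact mul_le_mul_of_nonneg_left hpow (hC0 i)
          _ = (M : ℝ) ^ A * (M : ℝ) ^ (-(A + 2)) * CR := by
              rw [hCR, mul_sum]
              refine sum_congr rfl fun i _ => ?_
              ring
          _ ≤ (M : ℝ) ^ A * (M : ℝ) ^ (-(A + 2)) * M := by gcongr
          _ = 1 / M := by
              rw [← Real.rpow_add hM0, show A + -(A + 2) = -2 by ring]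
              have : (M : ℝ) ^ (-2 : ℝ) = 1 / (M * M) := by
                rw [Real.rpow_neg hM0.le, Real.rpow_two, one_div, sq]
              rw [this]
              field_simp
      calc 2 * π * |∑ i, x i * g i m + Q.eval (m : ℝ) - Fp θ f Q' m| ≤ 2 * π * (1 / M) := by
            gcongr
        _ = 2 * (π / M) := by ring
  have hcardH : (((I M).filter (fun m : ℕ => (m : ℝ) ≤ H)).card : ℝ) ≤ H := by
    have h1 : (I M).filter (fun m : ℕ => (m : ℝ) ≤ H) ⊆ Ioc 0 ⌊H⌋₊ := by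
      intro m hm
      rw [mem_filter] at hm
      rw [mem_Ioc]
      exact ⟨(mem_Ioc.1 (hIsub M hm.1)).1, Nat.le_floor hm.2⟩
    calc (((I M).filter (fun m : ℕ => (m : ℝ) ≤ H)).card : ℝ) ≤ (Ioc 0 ⌊H⌋₊).card := by
          exact_mod_cast card_le_card h1
      _ = ⌊H⌋₊ := by rw [Nat.card_Ioc, Nat.sub_zero]
      _ ≤ H := Nat.floor_le hH0.le
  have hcardI : ((I M).card : ℝ) ≤ M := by
    have := card_le_card (hIsub M)
    rw [Nat.card_Ioc, Nat.sub_zero] at this
    exact_mod_cast this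
  have h1 : ‖∑ m ∈ I M, e (∑ i, x i * g i m + Q.eval (m : ℝ))‖ ≤
      ‖∑ m ∈ I M, e (Fp θ f Q' m)‖ + (2 * H + 2 * π) := by
    have h2 : ∑ m ∈ I M, e (∑ i, x i * g i m + Q.eval (m : ℝ)) =
        ∑ m ∈ I M, e (Fp θ f Q' m) +
        ∑ m ∈ I M, (e (∑ i, x i * g i m + Q.eval (m : ℝ)) - e (Fp θ f Q' m)) := by
      rw [← sum_add_distrib]
      refine sum_congr rfl fun m _ => ?_
      ring
    rw [h2]
    refine (norm_add_le _ _).trans (add_le_add le_rfl ?_)
    refine (norm_sum_le _ _).trans ((sum_le_sum hdiff).trans ?_)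
    rw [sum_add_distrib, ← sum_filter, sum_const, sum_const, nsmul_eq_mul, nsmul_eq_mul]
    have h3 : ((I M).card : ℝ) * (2 * π / M) ≤ 2 * π := by
      calc ((I M).card : ℝ) * (2 * π / M) ≤ M * (2 * π / M) := by gcongr
        _ = 2 * π := by field_simp
    linarith
  refine h1.trans ?_
  have hpi := Real.pi_lt_d2
  have h2 : 1 ≤ (M : ℝ) ^ (1 - 2 * τ') := Real.one_le_rpow a6 (by linarith)
  calc ‖∑ m ∈ I M, e (Fp θ f Q' m)‖ + (2 * H + 2 * π) ≤
        (M : ℝ) ^ (1 - 2 * τ') + (2 * (M : ℝ) ^ (1 - 2 * τ') + 7 * (M : ℝ) ^ (1 - 2 * τ')) := by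
        refine add_le_add (hkey.trans (Real.rpow_le_rpow_of_exponent_le a6 (by linarith)))
          (add_le_add ?_ ?_)
        · have : H ≤ (M : ℝ) ^ (1 - 2 * τ') := Real.rpow_le_rpow_of_exponent_le a6 (by linarith)
          linarith
        · linarith
    _ = 10 * (M : ℝ) ^ (1 - 2 * τ') := by ring
    _ ≤ (M : ℝ) ^ τ' * (M : ℝ) ^ (1 - 2 * τ') := by gcongr
    _ = (M : ℝ) ^ (1 - τ') := by
        rw [← Real.rpow_add hM0]
        congr 1
        ring

end

end Pool.Agent.Q270.PX
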