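import Pool.Agent.Q270.PX.Comb
import Pool.Agent.Q270.PX.Phase
import Pool.Agent.Q270.PX.Dioph0
import Pool.Agent.Q270.PX.Str

/-!
# Tuples of real algebraic functions: the good family
-/

set_option autoImplicit false

namespace Pool.Agent.Q270.PX

open Finset Real Filter Topology MeasureTheory
open Pool.Agent.H469R2.NK (e norm_e e_add)
open Pool.Agent.TH419.WI (Smooth)
open Pool.Agent.Y951.TU (hat lin lin_apply unif unif_prob integral_unif)
open Pool.Agent.Q270.SQ (Tay Expands GoodI)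

/-- a tuple of branches at infinity with algebraic coefficients, no nontrivial integer combination
of which is a rational polynomial plus a constant -/
structure Tup (r D q : ℕ) (y G : Fin r → ℝ → ℝ) (g : Fin r → ℕ → ℝ) : Prop where
  hq : 1 ≤ q
  tay : ∀ i, Tay (g i) (G i)
  sum : ∀ i, ∀ᶠ t in 𝓝 (0 : ℝ), HasSum (fun n => t ^ n * g i n) (G i t)
  alg : ∀ i j, IsAlgebraic ℚ (g i j)
  eq : ∀ i, ∀ᶠ x : ℝ in atTop, y i x = Br D q (G i) x
  ind : ∀ l : Fin r → ℤ, l ≠ 0 →
    (∃ j, (∀ n : ℕ, ex D q j ≠ n) ∧ ∑ i, (l i : ℝ) * g i j ≠ 0) ∨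
    (∃ n, 1 ≤ n ∧ n ≤ D ∧ Irrational (∑ i, (l i : ℝ) * g i (q * (D - n))))

/-- the measures -/
def SY {r : ℕ} (y : Fin r → ℝ → ℝ) (I : ℕ → Finset ℕ) (M : ℕ) : Set (Measure (Fin r → ℝ)) :=
  {μ | (I M).Nonempty ∧ ∃ v : Fin r → ℝ, μ = unif (I M) (fun m j => y j m + v j)}

lemma SY_prob {r : ℕ} (y : Fin r → ℝ → ℝ) (I : ℕ → Finset ℕ) (M : ℕ) (_hM : 1 ≤ M)
    (μ : Measure (Fin r → ℝ)) (hμ : μ ∈ SY y I M) : IsProbabilityMeasure μ := by
  obtain ⟨hne, v, rfl⟩ := hμ
  exact unif_prob hne _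

lemma inf_range {n : ℕ} (f : ℕ → ℝ) (hf : ∀ i, 0 < f i) :
    ∃ a : ℝ, 0 < a ∧ ∀ i ≤ n, a ≤ f i := by
  have hne : (range (n + 1)).Nonempty := ⟨0, mem_range.2 (Nat.succ_pos n)⟩
  exact ⟨(range (n + 1)).inf' hne f, (Finset.lt_inf'_iff _).2 fun i _ => hf i,
    fun i hi => Finset.inf'_le f (mem_range.2 (by omega))⟩

lemma sup_range {n : ℕ} (f : ℕ → ℝ) : ∃ a : ℝ, ∀ i ≤ n, f i ≤ a := by
  have hne : (range (n + 1)).Nonempty := ⟨0, mem_range.2 (Nat.succ_pos n)⟩
  exact ⟨(range (n + 1)).sup' hne f, fun i hi => Finset.le_sup' f (mem_range.2 (by omega))⟩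

theorem good_S {r D q : ℕ} {y G : Fin r → ℝ → ℝ} {g : Fin r → ℕ → ℝ} (H : Tup r D q y G g) :
    ∃ κ : ℝ, 0 ≤ κ ∧ ∀ I : ℕ → Finset ℕ, GoodI I → WeylI I → GoodS r (SY y I) κ := by
  classical
  obtain ⟨J0, hJ0⟩ := stab (fun j => ∀ n : ℕ, ex D q j ≠ n) g
  have hq0 : (0 : ℝ) < q := by exact_mod_cast H.hq
  set κ' : ℝ := (J0 : ℝ) / q with hκ'
  have hκ'0 : 0 ≤ κ' := by positivity
  have hκex : ∀ j < J0, -κ' ≤ ex D q j := by
    intro j hj
    unfold ex
    have h1 : (j : ℝ) / q ≤ (J0 : ℝ) / q := by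
      gcongr
    have h2 : (0 : ℝ) ≤ D := Nat.cast_nonneg D
    linarith
  refine ⟨κ' + 1, by linarith, ?_⟩
  intro I hGI hWI Sm hSm k A hA
  -- expansions
  have hexp : ∀ i, Expands (ex D q) (g i) (fun m : ℕ => y i m) := by
    intro i J
    refine (br_expands H.hq (H.tay i) J).congr' ?_ Filter.EventuallyEq.rfl
    filter_upwards [tendsto_natCast_atTop_atTop.eventually (H.eq i)] with m hm
    rw [hm]
  -- the diophantine constants
  choose ηa hηa La hLa using fun j : ℕ => dioph_ne (fun i => g i j) (fun i => H.alg i j) Sm hSm k A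
    (1 / 4) hA (by norm_num)
  choose ηb hηb Lb hLb using fun n : ℕ => dioph0 (fun i => g i (q * (D - n)))
    (fun i => H.alg i _) Sm hSm k A (1 / 16) hA (by norm_num)
  choose Qn hQn hQn2 using fun n : ℕ => denom (fun i => g i (q * (D - n)))
  obtain ⟨η1, hη1, hη1'⟩ := inf_range (n := J0) ηa hηa
  obtain ⟨η2, hη2, hη2'⟩ := inf_range (n := D) ηb hηb
  obtain ⟨L1, hL1⟩ := sup_range (n := J0) La
  obtain ⟨L2, hL2⟩ := sup_range (n := D) Lb
  set Q : ℕ := ∏ n ∈ range (D + 1), Qn n with hQ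
  have hQ1 : 1 ≤ Q := Nat.succ_le_of_lt (Finset.prod_pos fun n _ => hQn n)
  have hQint : ∀ l : Fin r → ℤ, ∀ n ≤ D, ¬ Irrational (∑ i, (l i : ℝ) * g i (q * (D - n))) →
      ∃ a : ℤ, (Q : ℝ) * ∑ i, (l i : ℝ) * g i (q * (D - n)) = a := by
    intro l n hn hirr
    obtain ⟨a, ha⟩ := hQn2 n l hirr
    obtain ⟨b, hb⟩ := Finset.dvd_prod_of_mem Qn (mem_range.2 (Nat.lt_succ_of_le hn))
    refine ⟨b * a, ?_⟩
    rw [hQ, hb]
    push_cast
    rw [← ha]
    ring
  obtain ⟨τ2, hτ2, x2, hx2⟩ := poly_sum hWI D Q hQ1 (η2 / 2) (by positivity)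
  obtain ⟨τ1, hτ1, x1, hx1⟩ := phase_coef (ex_anti D H.hq) (ex_tendsto D H.hq) hexp hκex hGI 0
    (1 / 2) (A + 2) (by norm_num) (by linarith)
  -- the identity for large `m`
  obtain ⟨m1, hm1⟩ := eventually_atTop.1 (tendsto_natCast_atTop_atTop.eventually
    ((comb_poly (D := D) H.hq H.sum).and (Filter.eventually_all.2 H.eq)))
  set τ : ℝ := min (min τ1 (τ2 / 2)) (1 / 2) with hτ
  have hτ0 : 0 < τ := lt_min (lt_min hτ1 (by positivity)) (by norm_num)
  have hττ1 : τ ≤ τ1 := (min_le_left _ _).trans (min_le_left _ _)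
  have hττ2 : τ ≤ τ2 / 2 := (min_le_left _ _).trans (min_le_right _ _)
  have hτ12 : τ ≤ 1 / 2 := min_le_right _ _
  set η : ℝ := min (min η1 (η2 / 2)) (min 1 (τ / 2)) with hη
  have hη0 : 0 < η := lt_min (lt_min hη1 (by positivity)) (lt_min one_pos (by positivity))
  have hηη1 : η ≤ η1 := (min_le_left _ _).trans (min_le_left _ _)
  have hηη2 : η ≤ η2 / 2 := (min_le_left _ _).trans (min_le_right _ _)
  have hη11 : η ≤ 1 := (min_le_right _ _).trans (min_le_left _ _)
  have hητ : η ≤ τ / 2 := (min_le_right _ _).trans (min_le_right _ _)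
  have hlog : Tendsto (fun M : ℕ => log (M : ℝ)) atTop atTop :=
    Real.tendsto_log_atTop.comp tendsto_natCast_atTop_atTop
  have hcast : Tendsto (fun M : ℕ => (M : ℝ)) atTop atTop := tendsto_natCast_atTop_atTop
  have hev : ∀ᶠ M : ℕ in atTop, x1 ≤ M ∧ x2 ≤ M ∧ L1 ≤ log (M : ℝ) ∧ L2 ≤ log (M : ℝ) ∧
      (M : ℝ) ^ (1 - τ / 2) ≤ ((I M).card : ℝ) ∧ (k : ℝ) ≤ M ∧ 2 ≤ (M : ℝ) ^ (τ2 / 2) ∧
      4 * (m1 : ℝ) ≤ (M : ℝ) ^ (1 - τ) ∧ (1 : ℝ) ≤ M := by
    filter_upwards [eventually_ge_atTop x1, eventually_ge_atTop x2,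
      hlog.eventually_ge_atTop L1, hlog.eventually_ge_atTop L2, hGI.2.1 (τ / 2) (by positivity),
      hcast.eventually_ge_atTop (k : ℝ),
      ((tendsto_rpow_atTop (show (0 : ℝ) < τ2 / 2 by positivity)).comp hcast).eventually_ge_atTop 2,
      ((tendsto_rpow_atTop (show (0 : ℝ) < 1 - τ by linarith)).comp hcast).eventually_ge_atTop
        (4 * (m1 : ℝ)), hcast.eventually_ge_atTop 1] with M a1 a2 a3 a4 a5 a6 a7 a8 a9
    exact ⟨a1, a2, a3, a4, a5, a6, a7, a8, a9⟩
  obtain ⟨M0, hM0⟩ := eventually_atTop.1 hev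
  refine ⟨η, hη0, M0, ?_⟩
  intro M hM μ hμ qq hqq h hh hne
  obtain ⟨-, v, rfl⟩ := hμ
  obtain ⟨b1, b2, b3, b4, b5, b6, b7, b8, b9⟩ := hM0 M hM
  have hMp : (0 : ℝ) < M := by linarith
  have hexpM : ∀ a : ℝ, Real.exp (a * log (M : ℝ)) = (M : ℝ) ^ a := fun a => by
    rw [Real.rpow_def_of_pos hMp, mul_comm]
  choose s jj hs1 hs2 hs3 hs4 using hqq
  set c : Fin k → Fin r → ℤ := fun i => Pi.single (jj i) 1 with hc
  set l : Fin r → ℤ := ∑ i, h i • qq i with hl
  have hlj : ∀ j, l j = ∑ i, h i * (s i * c i j) := by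
    intro j
    rw [hl, Finset.sum_apply]
    refine sum_congr rfl fun i _ => ?_
    rw [Pi.smul_apply, hs4 i, smul_eq_mul]
  have hcabs : ∀ i j, |(c i j : ℝ)| ≤ 1 := by
    intro i j
    rw [hc]
    simp only [Pi.single_apply]
    split_ifs <;> simp
  -- the smallest scale
  have hk : Nonempty (Fin k) := by
    by_contra hcon
    rw [not_nonempty_iff] at hcon
    apply hne
    rw [hl]
    exact Finset.sum_of_isEmpty _
  obtain ⟨i0, -, hi0⟩ := Finset.exists_min_image univ s (univ_nonempty (α := Fin k))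
  have hsum : ∀ α : Fin r → ℝ, ∑ j, ((∑ i, h i * (s i * c i j) : ℤ) : ℝ) * α j =
      ∑ j, (l j : ℝ) * α j := by
    intro α
    refine sum_congr rfl fun j _ => ?_
    rw [hlj]
  -- the sums
  have hkey : ‖∑ m ∈ I M, e (∑ j, (l j : ℝ) * y j m + ∑ j, (l j : ℝ) * v j)‖ ≤
      (M : ℝ) ^ (1 - τ) := by
    by_cases hcase : ∃ j < J0, (∀ n : ℕ, ex D q j ≠ n) ∧ ∑ i, (l i : ℝ) * g i j ≠ 0
    · obtain ⟨j, hj, hjn, hj0⟩ := hcase
      have h1 := hLa j (log M) ((hL1 j hj.le).trans b3) (s i0) s c h (hs1 i0)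
        (by rw [hexpM]; exact hs3 i0) (fun i => hi0 i (mem_univ i)) hs1
        (fun i => by rw [hexpM]; exact hs3 i)
        (fun i => by
          rw [hexpM]
          exact (hh i).trans (Real.rpow_le_rpow_of_exponent_le b9 (hηη1.trans (hη1' j hj.le))))
        (fun i j' => by
          rw [hexpM]
          exact (hcabs i j').trans (Real.one_le_rpow b9 (hηa j).le))
        (by rw [hsum]; exact hj0)
      rw [hsum] at h1
      have h2 : (M : ℝ) ^ (κ' + 1 / 2) ≤ |∑ i, (l i : ℝ) * g i j| := by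
        refine le_trans ?_ h1.le
        have h3 : Real.exp (-(1 / 4 * log (M : ℝ))) = (M : ℝ) ^ (-(1 / 4) : ℝ) := by
          rw [← hexpM]
          congr 1
          ring
        rw [h3]
        calc (M : ℝ) ^ (κ' + 1 / 2) ≤ (M : ℝ) ^ (κ' + 1 + -(1 / 4)) :=
              Real.rpow_le_rpow_of_exponent_le b9 (by linarith)
          _ = (M : ℝ) ^ (κ' + 1) * (M : ℝ) ^ (-(1 / 4) : ℝ) := Real.rpow_add hMp _ _
          _ ≤ (s i0 : ℝ) * (M : ℝ) ^ (-(1 / 4) : ℝ) := by
              gcongr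
              exact hs2 i0
      have h4 := hx1 M b1 (fun i => (l i : ℝ)) ⟨j, hj, hjn, h2⟩ (by
        intro i
        rw [hlj]
        push_cast
        calc |∑ i', (h i' : ℝ) * ((s i' : ℝ) * (c i' i : ℝ))| ≤
              ∑ i', |(h i' : ℝ) * ((s i' : ℝ) * (c i' i : ℝ))| := abs_sum_le_sum_abs _ _
          _ ≤ ∑ _i' : Fin k, (M : ℝ) ^ (1 : ℝ) * ((M : ℝ) ^ A * 1) := by
              refine sum_le_sum fun i' _ => ?_
              rw [abs_mul, abs_mul]
              have h5 : |((s i' : ℕ) : ℝ)| ≤ (M : ℝ) ^ A := by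
                rw [Nat.abs_cast]; exact hs3 i'
              have h6 : |(h i' : ℝ)| ≤ (M : ℝ) ^ (1 : ℝ) :=
                (hh i').trans (Real.rpow_le_rpow_of_exponent_le b9 hη11)
              exact mul_le_mul h6 (mul_le_mul h5 (hcabs i' i) (abs_nonneg _) (by positivity))
                (by positivity) (by positivity)
          _ = k * ((M : ℝ) ^ (1 : ℝ) * (M : ℝ) ^ A) := by
              rw [sum_const, card_univ, Fintype.card_fin, nsmul_eq_mul, mul_one]
          _ ≤ M * ((M : ℝ) ^ (1 : ℝ) * (M : ℝ) ^ A) := by gcongr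
          _ = (M : ℝ) ^ (A + 2) := by
              rw [show A + 2 = 1 + (1 + A) by ring, Real.rpow_add hMp, Real.rpow_add hMp,
                Real.rpow_one])
        (Polynomial.C (∑ j, (l j : ℝ) * v j)) (Polynomial.natDegree_C _).le
      simp only [Polynomial.eval_C] at h4
      exact h4.trans (Real.rpow_le_rpow_of_exponent_le b9 (by linarith))
    · push Not at hcase
      have hall : ∀ j, (∀ n : ℕ, ex D q j ≠ n) → ∑ i, (l i : ℝ) * g i j = 0 :=
        hJ0 (fun i => (l i : ℝ)) hcase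
      -- the largest irrational coefficient
      set R : Finset ℕ := (Finset.Icc 1 D).filter
        (fun n => Irrational (∑ i, (l i : ℝ) * g i (q * (D - n)))) with hR
      have hRne : R.Nonempty := by
        rcases H.ind l hne with ⟨j, hj1, hj2⟩ | ⟨n, hn1, hn2, hn3⟩
        · exact absurd (hall j hj1) hj2
        · exact ⟨n, mem_filter.2 ⟨mem_Icc.2 ⟨hn1, hn2⟩, hn3⟩⟩
      set d : ℕ := R.max' hRne with hd
      have hdR : d ∈ R := Finset.max'_mem R hRne
      rw [hR, mem_filter, mem_Icc] at hdR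
      obtain ⟨⟨hd1, hdD⟩, hdirr⟩ := hdR
      set β : ℕ → ℝ := fun n => ∑ i, (l i : ℝ) * g i (q * (D - n)) with hβ
      have hrat : ∀ n, d < n → n ≤ D → ∃ a : ℤ, (Q : ℝ) * β n = a := by
        intro n hn hnD
        apply hQint l n hnD
        intro hirr
        have : n ∈ R := mem_filter.2 ⟨mem_Icc.2 ⟨by omega, hnD⟩, hirr⟩
        have := Finset.le_max' R n this
        omega
      have hfar : Far (η2 / 2) (1 / 8) M (β d) := by
        intro t ht1 ht2 a
        have h1 := hLb d (log M) ((hL2 d hdD).trans b4) 1 s c (fun i => (t : ℤ) * h i) a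
          ⟨one_ne_zero, by simp⟩ (by
            rw [hexpM, Nat.cast_one]
            exact Real.one_le_rpow b9 hA) (fun i => Nat.pos_of_ne_zero (hs1 i).1) hs1
          (fun i => by rw [hexpM]; exact hs3 i) (fun i => by
            rw [hexpM]
            push_cast
            rw [abs_mul, Nat.abs_cast]
            calc (t : ℝ) * |(h i : ℝ)| ≤ (M : ℝ) ^ (η2 / 2) * (M : ℝ) ^ (η2 / 2) := by
                  have h2 : |(h i : ℝ)| ≤ (M : ℝ) ^ (η2 / 2) :=
                    (hh i).trans (Real.rpow_le_rpow_of_exponent_le b9 hηη2)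
                  gcongr
              _ = (M : ℝ) ^ η2 := by
                  rw [← Real.rpow_add hMp]
                  congr 1
                  ring
              _ ≤ (M : ℝ) ^ ηb d := Real.rpow_le_rpow_of_exponent_le b9 (hη2' d hdD))
          (fun i j' => by
            rw [hexpM]
            exact (hcabs i j').trans (Real.one_le_rpow b9 (hηb d).le))
        have h2 : ∑ j, ((∑ i, (t : ℤ) * h i * (s i * c i j) : ℤ) : ℝ) * g j (q * (D - d)) =
            t * β d := by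
          rw [hβ]
          simp only
          rw [mul_sum]
          refine sum_congr rfl fun j _ => ?_
          rw [hlj]
          push_cast
          rw [← mul_assoc, mul_sum]
          congr 1
          refine sum_congr rfl fun i _ => ?_
          ring
        rw [h2] at h1
        have h3 := h1 (hdirr.natCast_mul (by omega))
        have h4 : Real.exp (-(1 / 16 * log (M : ℝ))) = (M : ℝ) ^ (-(1 / 16) : ℝ) := by
          rw [← hexpM]
          congr 1
          ring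
        rw [h4, Nat.cast_one, one_mul, one_mul] at h3
        refine lt_of_le_of_lt ?_ h3
        exact Real.rpow_le_rpow_of_exponent_le b9 (by norm_num)
      have h5 := hx2 M b2 β (∑ j, (l j : ℝ) * v j) d hd1 hdD hfar hrat
      have h6 : ∀ m ∈ I M, m1 ≤ m → e (∑ j, (l j : ℝ) * y j m + ∑ j, (l j : ℝ) * v j) =
          e (∑ n ∈ range (D + 1), β n * (m : ℝ) ^ n + ∑ j, (l j : ℝ) * v j) := by
        intro m _ hm
        obtain ⟨h7, h8⟩ := hm1 m hm
        have h9 := h7 (fun i => (l i : ℝ)) hall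
        rw [← h9]
        congr 2
        refine sum_congr rfl fun j _ => ?_
        rw [h8 j]
      have h7 : ‖∑ m ∈ I M, e (∑ j, (l j : ℝ) * y j m + ∑ j, (l j : ℝ) * v j)‖ ≤
          ‖∑ m ∈ I M, e (∑ n ∈ range (D + 1), β n * (m : ℝ) ^ n + ∑ j, (l j : ℝ) * v j)‖ +
            2 * m1 := by
        have h8 : ∑ m ∈ I M, e (∑ j, (l j : ℝ) * y j m + ∑ j, (l j : ℝ) * v j) =
            ∑ m ∈ I M, e (∑ n ∈ range (D + 1), β n * (m : ℝ) ^ n + ∑ j, (l j : ℝ) * v j) +
            ∑ m ∈ I M, (e (∑ j, (l j : ℝ) * y j m + ∑ j, (l j : ℝ) * v j) -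
              e (∑ n ∈ range (D + 1), β n * (m : ℝ) ^ n + ∑ j, (l j : ℝ) * v j)) := by
          rw [← sum_add_distrib]
          refine sum_congr rfl fun m _ => ?_
          ring
        rw [h8]
        refine (norm_add_le _ _).trans (add_le_add le_rfl ?_)
        refine (norm_sum_le _ _).trans ?_
        have h9 : ∀ m ∈ I M, ‖e (∑ j, (l j : ℝ) * y j m + ∑ j, (l j : ℝ) * v j) -
              e (∑ n ∈ range (D + 1), β n * (m : ℝ) ^ n + ∑ j, (l j : ℝ) * v j)‖ ≤
            if m < m1 then 2 else 0 := by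
          intro m hm
          split_ifs with h10
          · refine (norm_sub_le _ _).trans ?_
            rw [norm_e, norm_e]
            norm_num
          · rw [h6 m hm (by omega), sub_self, norm_zero]
        refine (sum_le_sum h9).trans ?_
        rw [← sum_filter, sum_const, nsmul_eq_mul]
        have h10 : (I M).filter (fun m => m < m1) ⊆ range m1 := by
          intro m hm
          rw [mem_filter] at hm
          exact mem_range.2 hm.2
        have h11 : (((I M).filter (fun m => m < m1)).card : ℝ) ≤ m1 := by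
          have := card_le_card h10
          rw [card_range] at this
          exact_mod_cast this
        linarith
      refine h7.trans ?_
      have h8 : (M : ℝ) ^ (1 - τ2) ≤ (M : ℝ) ^ (1 - τ) / 2 := by
        rw [le_div_iff₀ (by norm_num)]
        calc (M : ℝ) ^ (1 - τ2) * 2 ≤ (M : ℝ) ^ (1 - τ2) * (M : ℝ) ^ (τ2 / 2) := by
              gcongr
          _ = (M : ℝ) ^ (1 - τ2 / 2) := by
              rw [← Real.rpow_add hMp]
              congr 1
              ring
          _ ≤ (M : ℝ) ^ (1 - τ) := Real.rpow_le_rpow_of_exponent_le b9 (by linarith)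
      linarith
  unfold hat
  rw [integral_unif]
  have h1 : ∀ m : ℕ, Pool.Agent.Y933.KD.e (lin r l (fun j => y j m + v j)) =
      e (∑ j, (l j : ℝ) * y j m + ∑ j, (l j : ℝ) * v j) := by
    intro m
    have h2 : lin r l (fun j => y j m + v j) =
        ∑ j, (l j : ℝ) * y j m + ∑ j, (l j : ℝ) * v j := by
      rw [lin_apply, ← sum_add_distrib]
      refine sum_congr rfl fun j _ => ?_
      ring
    rw [h2]
    rfl
  rw [sum_congr rfl fun m _ => h1 m, norm_mul]
  have hc0 : 0 < (M : ℝ) ^ (1 - τ / 2) := by positivity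
  have h4 : ‖(1 / ((I M).card : ℂ))‖ ≤ 1 / (M : ℝ) ^ (1 - τ / 2) := by
    rw [norm_div, norm_one, Complex.norm_natCast]
    exact one_div_le_one_div_of_le hc0 b5
  calc ‖(1 / ((I M).card : ℂ))‖ *
        ‖∑ m ∈ I M, e (∑ j, (l j : ℝ) * y j m + ∑ j, (l j : ℝ) * v j)‖
      ≤ 1 / (M : ℝ) ^ (1 - τ / 2) * (M : ℝ) ^ (1 - τ) := by gcongr
    _ = (M : ℝ) ^ (-(τ / 2)) := by
        rw [one_div, ← Real.rpow_neg hMp.le, ← Real.rpow_add hMp]
        congr 1
        ring
    _ ≤ (M : ℝ) ^ (-η) := Real.rpow_le_rpow_of_exponent_le b9 (by linarith)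

end Pool.Agent.Q270.PX
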