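import Pool.Agent.Q270.PX.Puiseux

/-!
# Puiseux expansions of the real roots at infinity
-/

set_option autoImplicit false

namespace Pool.Agent.Q270.PX

open Filter Topology Finset

variable {K : Subfield ℝ}

/-- the reciprocal of the `q`-th root -/
noncomputable def rt (q : ℕ) (x : ℝ) : ℝ := x ^ (-(1 / (q : ℝ)))

lemma rt_pos {q : ℕ} {x : ℝ} (hx : 0 < x) : 0 < rt q x := Real.rpow_pos_of_pos hx _

lemma rt_pow {q : ℕ} (hq : 1 ≤ q) {x : ℝ} (hx : 0 < x) : rt q x ^ q = x⁻¹ := by
  unfold rt
  rw [← Real.rpow_natCast, ← Real.rpow_mul hx.le, ← Real.rpow_neg_one]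
  congr 1
  have : (q : ℝ) ≠ 0 := by exact_mod_cast (show q ≠ 0 by omega)
  field_simp

lemma rt_tendsto {q : ℕ} (hq : 1 ≤ q) : Tendsto (rt q) atTop (𝓝[>] 0) := by
  rw [tendsto_nhdsWithin_iff]
  have hq0 : (0 : ℝ) < q := by exact_mod_cast hq
  refine ⟨tendsto_rpow_neg_atTop (by positivity), ?_⟩
  filter_upwards [eventually_gt_atTop 0] with x hx
  exact rt_pos hx

/-- **Puiseux expansions at infinity** -/
theorem puiseux (hK : ∀ u : ℝ, IsAlgebraic K u → u ∈ K) (P : Polynomial (Polynomial ℝ))
    (hP : P ≠ 0) (hPK : ∀ i j, (P.coeff i).coeff j ∈ K) :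
    ∃ D q : ℕ, 1 ≤ q ∧ ∃ S : Set (ℝ → ℝ), S.Finite ∧ (∀ G ∈ S, An K G) ∧
      ∀ᶠ x : ℝ in atTop, ∀ y : ℝ,
        (P.evalEval x y = 0 ↔ ∃ G ∈ S, y = x ^ D * G (rt q x)) := by
  set d := P.natDegree with hd
  set a := P.leadingCoeff with ha
  have ha0 : a ≠ 0 := Polynomial.leadingCoeff_ne_zero.2 hP
  set e := a.natDegree with he
  set E : ℕ := (range (d + 1)).sup fun i => (P.coeff i).natDegree with hE
  have hEi : ∀ i ≤ d, (P.coeff i).natDegree ≤ E := fun i hi =>
    Finset.le_sup (f := fun i => (P.coeff i).natDegree) (mem_range.2 (by omega))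
  set D : ℕ := E + 1 with hD
  set A : ℕ → ℝ → ℝ := fun i s => ∑ j ∈ range (E + 1),
    (P.coeff i).coeff j * s ^ (D * d + e - D * i - j) with hA
  have hAn : ∀ i, An K (A i) := fun i =>
    An.sum _ fun j _ => (An.const (hPK i j)).mul (An.pow_id _)
  have hAeval : ∀ i ≤ d, ∀ s : ℝ, 0 < s →
      A i s = s ^ (D * d + e - D * i) * (P.coeff i).eval s⁻¹ := by
    intro i hi s hs
    rw [Polynomial.eval_eq_sum_range' (n := E + 1) (by have := hEi i hi; omega), mul_sum]
    refine sum_congr rfl fun j hj => ?_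
    have hj' := mem_range.1 hj
    rcases Nat.lt_or_ge i d with h | h
    · have h1 : D * i + D ≤ D * d := by
        rw [← Nat.mul_succ]
        exact Nat.mul_le_mul_left _ h
      have h2 : D * d + e - D * i = (D * d + e - D * i - j) + j := by omega
      conv_rhs => rw [h2, pow_add]
      rw [inv_pow]
      field_simp
    · have hid : i = d := le_antisymm hi h
      by_cases hje : j ≤ e
      · have h2 : D * d + e - D * i = (D * d + e - D * i - j) + j := by rw [hid]; omega
        conv_rhs => rw [h2, pow_add]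
        rw [inv_pow]
        field_simp
      · have h3 : (P.coeff i).coeff j = 0 := by
          rw [hid]
          exact Polynomial.coeff_eq_zero_of_natDegree_lt (by
            show e < j
            omega)
        rw [h3]
        ring
  have hPF : ∀ s : ℝ, 0 < s → ∀ W : ℝ, PF d A s W =
      s ^ (D * d + e) * P.evalEval s⁻¹ (W * (s⁻¹) ^ D) := by
    intro s hs W
    unfold PF Polynomial.evalEval
    rw [Polynomial.eval_eq_sum_range (p := P), Polynomial.eval_finsetSum, mul_sum]
    refine sum_congr rfl fun i hi => ?_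
    have hi' : i ≤ d := by have := mem_range.1 hi; omega
    rw [hAeval i hi' s hs]
    simp only [Polynomial.eval_mul, Polynomial.eval_pow, Polynomial.eval_C]
    have h1 : D * i ≤ D * d := Nat.mul_le_mul_left _ hi'
    have h2 : D * d + e = (D * d + e - D * i) + D * i := by omega
    conv_rhs => rw [h2, pow_add]
    rw [mul_pow, ← pow_mul, inv_pow]
    field_simp
  have hAd : A d 0 ≠ 0 := by
    have h1 : A d 0 = a.coeff e := by
      simp only [hA]
      rw [sum_eq_single e]
      · rw [show D * d + e - D * d - e = 0 by omega, pow_zero, mul_one]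
        rfl
      · intro j _ hj
        rcases lt_or_gt_of_ne hj with h | h
        · rw [zero_pow (by omega), mul_zero]
        · have h3 : (P.coeff d).coeff j = 0 :=
            Polynomial.coeff_eq_zero_of_natDegree_lt h
          rw [h3, zero_mul]
      · intro h
        exact absurd (mem_range.2 (Nat.lt_succ_of_le (hEi d le_rfl))) h
    rw [h1]
    exact Polynomial.leadingCoeff_ne_zero.2 ha0
  have hAi : ∀ i < d, A i 0 = 0 := by
    intro i hi
    simp only [hA]
    refine sum_eq_zero fun j hj => ?_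
    have hj' := mem_range.1 hj
    have h1 : D * i + D ≤ D * d := by
      rw [← Nat.mul_succ]
      exact Nat.mul_le_mul_left _ hi
    rw [zero_pow (by omega), mul_zero]
  obtain ⟨q, hq, S, hS, hSa, ε, hε, hev⟩ := loc_main hK d d A hAn le_rfl hAi hAd
  have ha1 : 0 < |A d 0| / 2 := by
    have : 0 < |A d 0| := abs_pos.2 hAd
    linarith
  -- the roots are small
  have hsmall : ∀ᶠ s in 𝓝 (0 : ℝ), ∀ W, PF d A s W = 0 → |W| < ε := by
    have h1 : ∀ᶠ s in 𝓝 (0 : ℝ), |A d 0| / 2 < |A d s| := by
      have h3 : ContinuousAt (fun σ => |A d σ|) 0 := (hAn d).1.continuousAt.abs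
      exact h3.eventually_const_lt (by linarith)
    have h2 : ∀ᶠ s in 𝓝 (0 : ℝ), ∑ i ∈ range d, |A i s| / ε ^ (d - i) < |A d 0| / 2 := by
      have h3 : ContinuousAt (fun s => ∑ i ∈ range d, |A i s| / ε ^ (d - i)) 0 := by
        refine tendsto_finsetSum _ fun i _ => ?_
        exact ((hAn i).1.continuousAt.abs).div_const _
      refine h3.eventually_lt_const ?_
      simp only
      rw [sum_eq_zero (fun i hi => by rw [hAi i (mem_range.1 hi), abs_zero, zero_div])]
      exact ha1
    filter_upwards [h1, h2] with s hs1 hs2 W hW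
    by_contra hcon
    push Not at hcon
    have hW0 : 0 < |W| := lt_of_lt_of_le hε hcon
    unfold PF at hW
    rw [sum_range_succ] at hW
    have h3 : |A d s| * |W| ^ d ≤ ∑ i ∈ range d, |A i s| * |W| ^ i := by
      calc |A d s| * |W| ^ d = |A d s * W ^ d| := by rw [abs_mul, abs_pow]
        _ = |∑ i ∈ range d, A i s * W ^ i| := by
            rw [show A d s * W ^ d = -∑ i ∈ range d, A i s * W ^ i by linarith, abs_neg]
        _ ≤ ∑ i ∈ range d, |A i s * W ^ i| := abs_sum_le_sum_abs _ _
        _ = ∑ i ∈ range d, |A i s| * |W| ^ i := by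
            refine sum_congr rfl fun i _ => ?_
            rw [abs_mul, abs_pow]
    have h4 : ∑ i ∈ range d, |A i s| * |W| ^ i ≤
        (∑ i ∈ range d, |A i s| / ε ^ (d - i)) * |W| ^ d := by
      rw [sum_mul]
      refine sum_le_sum fun i hi => ?_
      have hi' := mem_range.1 hi
      have h5 : |W| ^ d = |W| ^ i * |W| ^ (d - i) := by rw [← pow_add]; congr 1; omega
      have h6 : ε ^ (d - i) ≤ |W| ^ (d - i) := pow_le_pow_left₀ hε.le hcon _
      have h7 : 0 < ε ^ (d - i) := by positivity
      rw [div_mul_eq_mul_div, le_div_iff₀ h7, h5]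
      have h8 : 0 ≤ |A i s| * |W| ^ i := by positivity
      nlinarith
    have h5 : 0 < |W| ^ d := by positivity
    nlinarith
  have hGsmall : ∀ᶠ σ in 𝓝[>] (0 : ℝ), ∀ G ∈ S, |G σ| < ε := by
    refine (Filter.eventually_all_finite hS).2 fun G hG => ?_
    have h4 : Tendsto G (𝓝[>] 0) (𝓝 0) := by
      have := (hSa G hG).1.1.continuousAt.tendsto
      rw [(hSa G hG).2] at this
      exact this.mono_left nhdsWithin_le_nhds
    filter_upwards [h4.eventually (Metric.ball_mem_nhds 0 hε)] with σ hσ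
    simpa [Real.dist_eq] using hσ
  refine ⟨D, q, hq, S, hS, fun G hG => (hSa G hG).1, ?_⟩
  filter_upwards [(rt_tendsto hq).eventually (hev.and (hGsmall.and
    ((pow_tendsto hq).eventually (hsmall.filter_mono nhdsWithin_le_nhds)))),
    eventually_gt_atTop 0] with x hx hx0 y
  obtain ⟨h1, h2, h3⟩ := hx
  have hxinv : (rt q x) ^ q = x⁻¹ := rt_pow hq hx0
  rw [hxinv] at h1 h3
  have hxD : x ^ D ≠ 0 := by positivity
  have h4 : P.evalEval x y = 0 ↔ PF d A x⁻¹ (y / x ^ D) = 0 := by
    rw [hPF _ (by positivity), inv_inv, div_mul_cancel₀ _ hxD]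
    constructor
    · intro h
      rw [h, mul_zero]
    · intro h
      exact (mul_eq_zero.1 h).resolve_left (by positivity)
  rw [h4]
  constructor
  · intro h
    obtain ⟨G, hG, h5⟩ := (h1 _ (by rw [sub_zero]; exact h3 _ h)).1 h
    refine ⟨G, hG, ?_⟩
    rw [← h5]
    field_simp
  · rintro ⟨G, hG, rfl⟩
    rw [mul_div_cancel_left₀ _ hxD]
    exact (h1 _ (by rw [sub_zero]; exact h2 G hG)).2 ⟨G, hG, rfl⟩

end Pool.Agent.Q270.PX
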