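import Pool.Agent.Q270.PX.An

/-!
# Real Puiseux expansions of the roots of a polynomial with analytic coefficients

The Taylor coefficients stay in a subfield `K` of `ℝ` which is algebraically closed in `ℝ`.
-/

set_option autoImplicit false

namespace Pool.Agent.Q270.PX

open Filter Topology Finset

variable {K : Subfield ℝ}

/-- the value of the polynomial with the coefficients `A i σ` -/
noncomputable def PF (d : ℕ) (A : ℕ → ℝ → ℝ) (σ V : ℝ) : ℝ := ∑ i ∈ range (d + 1), A i σ * V ^ i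

/-- the real zeros near `c` are given by finitely many analytic functions of `σ ^ (1/q)` -/
def Loc (K : Subfield ℝ) (d : ℕ) (A : ℕ → ℝ → ℝ) (c : ℝ) : Prop :=
  ∃ q : ℕ, 1 ≤ q ∧ ∃ S : Set (ℝ → ℝ), S.Finite ∧ (∀ G ∈ S, An K G ∧ G 0 = c) ∧
    ∃ ε : ℝ, 0 < ε ∧ ∀ᶠ σ in 𝓝[>] (0 : ℝ), ∀ V, |V - c| < ε →
      (PF d A (σ ^ q) V = 0 ↔ ∃ G ∈ S, V = G σ)

/-- continuity of the value at `σ = 0` -/
lemma PF_continuousAt {d : ℕ} {A : ℕ → ℝ → ℝ} (hA : ∀ i, An K (A i)) (V : ℝ) :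
    ContinuousAt (fun x : ℝ × ℝ => PF d A x.1 x.2) (0, V) := by
  unfold PF
  refine tendsto_finsetSum _ fun i _ => ?_
  refine Tendsto.mul ?_ ?_
  · exact Tendsto.comp (g := A i) (f := Prod.fst) (y := 𝓝 0) (hA i).1.continuousAt.tendsto
      (continuous_fst.tendsto ((0 : ℝ), V))
  · exact (continuous_snd.pow i).tendsto _

/-- translation -/
noncomputable def TF (d : ℕ) (A : ℕ → ℝ → ℝ) (c : ℝ → ℝ) (i : ℕ) (σ : ℝ) : ℝ :=
  ∑ k ∈ range (d + 1), A k σ * ((k.choose i : ℝ) * c σ ^ (k - i))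

lemma PF_add (d : ℕ) (A : ℕ → ℝ → ℝ) (c : ℝ → ℝ) (σ W : ℝ) :
    PF d A σ (c σ + W) = PF d (TF d A c) σ W := by
  unfold PF TF
  simp only [sum_mul]
  rw [sum_comm]
  refine sum_congr rfl fun k hk => ?_
  rw [add_comm (c σ) W, add_pow, mul_sum]
  have hk' : k < d + 1 := mem_range.1 hk
  rw [← sum_subset (s₁ := range (k + 1)) (s₂ := range (d + 1))]
  · refine sum_congr rfl fun i _ => ?_
    ring
  · intro i hi
    rw [mem_range] at hi ⊢
    omega
  · intro i _ hi
    rw [mem_range] at hi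
    rw [Nat.choose_eq_zero_of_lt (by omega)]
    simp

lemma TF_analytic {d : ℕ} {A : ℕ → ℝ → ℝ} (hA : ∀ i, An K (A i)) {c : ℝ → ℝ}
    (hc : An K c) (i : ℕ) : An K (TF d A c i) :=
  An.sum _ fun k _ => (hA k).mul ((An.natCast _).mul (hc.pow _))

lemma TF_zero {d : ℕ} {A : ℕ → ℝ → ℝ} {c : ℝ → ℝ} (hc : c 0 = 0) {i : ℕ} (hi : i ≤ d) :
    TF d A c i 0 = A i 0 := by
  unfold TF
  rw [sum_eq_single i]
  · simp
  · intro k _ hki
    rcases lt_or_gt_of_ne hki with h | h
    · rw [Nat.choose_eq_zero_of_lt h]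
      simp
    · rw [hc, zero_pow (by omega)]
      simp
  · intro h
    exact absurd (mem_range.2 (by omega)) h

/-- the implicit function theorem for the derivative of order `μ - 1` -/
lemma exists_center {d μ : ℕ} {A : ℕ → ℝ → ℝ} (hA : ∀ i, An K (A i)) (hμ : 1 ≤ μ)
    (hμd : μ ≤ d) (h0 : A (μ - 1) 0 = 0) (h1 : A μ 0 ≠ 0) :
    ∃ c : ℝ → ℝ, An K c ∧ c 0 = 0 ∧ ∀ᶠ σ in 𝓝 (0 : ℝ), TF d A c (μ - 1) σ = 0 := by
  set f : ℝ × ℝ → ℝ := fun x => ∑ k ∈ range (d + 1),
    A k x.1 * ((k.choose (μ - 1) : ℝ) * x.2 ^ (k - (μ - 1))) with hf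
  have hfa : AnalyticAt ℝ f (0, 0) := by
    have : f = ∑ k ∈ range (d + 1), fun x : ℝ × ℝ =>
        A k x.1 * ((k.choose (μ - 1) : ℝ) * x.2 ^ (k - (μ - 1))) := by
      funext x
      rw [Finset.sum_apply]
    rw [this]
    refine Finset.analyticAt_sum _ fun k _ => ?_
    refine AnalyticAt.mul ?_ (analyticAt_const.mul (analyticAt_snd.pow _))
    exact AnalyticAt.fun_comp (g := A k) (hA k).1 analyticAt_fst
  have hf0 : f (0, 0) = 0 := by
    simp only [hf]
    rw [sum_eq_single (μ - 1)]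
    · rw [h0, zero_mul]
    · intro k _ hk
      rcases lt_or_gt_of_ne hk with h | h
      · rw [Nat.choose_eq_zero_of_lt h]
        simp
      · rw [zero_pow (by omega)]
        simp
    · intro h
      exact absurd (mem_range.2 (by omega)) h
  have hcd : ContDiffAt ℝ (⊤ : WithTop ℕ∞) f (0, 0) := hfa.contDiffAt
  have hder : HasDerivAt (fun V : ℝ => f (0, V)) (μ * A μ 0) 0 := by
    have h2 : ∀ k ∈ range (d + 1), HasDerivAt (fun V : ℝ =>
        A k 0 * ((k.choose (μ - 1) : ℝ) * V ^ (k - (μ - 1))))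
        (A k 0 * ((k.choose (μ - 1) : ℝ) * ((k - (μ - 1) : ℕ) * (0 : ℝ) ^ (k - (μ - 1) - 1)))) 0 :=
      fun k _ => ((hasDerivAt_pow (k - (μ - 1)) (0 : ℝ)).const_mul _).const_mul _
    have h3 := HasDerivAt.fun_sum h2
    refine h3.congr_deriv ?_
    rw [sum_eq_single μ]
    · have : μ - (μ - 1) = 1 := by omega
      rw [this, Nat.choose_symm_of_eq_add (a := μ - 1) (b := 1) (by omega), Nat.choose_one_right]
      simp
      ring
    · intro k _ hk
      rcases lt_or_gt_of_ne hk with h | h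
      · rcases Nat.lt_or_ge k (μ - 1) with h4 | h4
        · rw [Nat.choose_eq_zero_of_lt h4]
          simp
        · have : k - (μ - 1) = 0 := by omega
          rw [this]
          simp
      · rw [zero_pow (by omega)]
        simp
    · intro h
      exact absurd (mem_range.2 (by omega)) h
  have hne : (μ : ℝ) * A μ 0 ≠ 0 := mul_ne_zero (by exact_mod_cast (show μ ≠ 0 by omega)) h1
  have hinv : (fderiv ℝ f (0, 0) ∘L .inr ℝ ℝ ℝ).IsInvertible := by
    have h2 : HasFDerivAt (fun V : ℝ => f (0, V)) (fderiv ℝ f (0, 0) ∘L .inr ℝ ℝ ℝ) 0 := by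
      have h3 : HasFDerivAt f (fderiv ℝ f (0, 0)) (0, 0) :=
        (hfa.differentiableAt).hasFDerivAt
      have h4 : HasFDerivAt (fun V : ℝ => ((0 : ℝ), V)) (ContinuousLinearMap.inr ℝ ℝ ℝ) 0 :=
        (hasFDerivAt_const _ _).prodMk (hasFDerivAt_id _)
      exact h3.comp (0 : ℝ) h4
    have h5 : (fderiv ℝ f (0, 0) ∘L .inr ℝ ℝ ℝ) =
        ((ContinuousLinearEquiv.unitsEquivAut ℝ (Units.mk0 _ hne) : ℝ ≃L[ℝ] ℝ) : ℝ →L[ℝ] ℝ) := by
      refine h2.unique ?_
      refine hder.hasFDerivAt.congr_fderiv ?_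
      ext
      simp
    rw [h5]
    exact ⟨_, rfl⟩
  have hω : (⊤ : WithTop ℕ∞) ≠ 0 := by simp
  have hca : AnalyticAt ℝ (hcd.implicitFunction hω hinv) 0 :=
    (hcd.contDiffAt_implicitFunction hω hinv).analyticAt
  have hc0 : hcd.implicitFunction hω hinv 0 = 0 := hcd.implicitFunction_apply_self hω hinv
  have hcev : ∀ᶠ σ in 𝓝 (0 : ℝ), TF d A (hcd.implicitFunction hω hinv) (μ - 1) σ = 0 := by
    have := hcd.eventually_apply_implicitFunction hω hinv
    rw [hf0] at this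
    exact this
  refine ⟨hcd.implicitFunction hω hinv, ?_, hc0, hcev⟩
  refine An.implicit (n := d - μ) (E := fun k σ => A (μ - 1 + k) σ *
    ((μ - 1 + k).choose (μ - 1) : ℕ)) (fun k => (hA _).mul (An.natCast _)) ?_ hca hc0 ?_
  · rw [show μ - 1 + 1 = μ by omega, Nat.choose_symm_of_eq_add (a := μ - 1) (b := 1) (by omega),
      Nat.choose_one_right]
    exact mul_ne_zero h1 (by exact_mod_cast (show μ ≠ 0 by omega))
  · filter_upwards [hcev.filter_mono nhdsWithin_le_nhds] with σ hσ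
    unfold TF at hσ
    rw [show d + 1 = (μ - 1) + (d - μ + 2) by omega, Finset.sum_range_add] at hσ
    rw [sum_eq_zero (fun k hk => by
      rw [Nat.choose_eq_zero_of_lt (mem_range.1 hk)]
      simp), zero_add] at hσ
    refine Eq.trans (sum_congr rfl fun k _ => ?_) hσ
    rw [show μ - 1 + k - (μ - 1) = k by omega]
    ring

lemma ev_prod (P : ℝ → ℝ → Prop) {V₀ : ℝ} (h : ∀ᶠ x : ℝ × ℝ in 𝓝 (0, V₀), P x.1 x.2) :
    ∃ ε : ℝ, 0 < ε ∧ ∀ᶠ σ in 𝓝 (0 : ℝ), ∀ V, |V - V₀| < ε → P σ V := by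
  rw [nhds_prod_eq, eventually_prod_iff] at h
  obtain ⟨pa, hpa, pb, hpb, h⟩ := h
  obtain ⟨ε, hε, hb⟩ := Metric.eventually_nhds_iff.1 hpb
  refine ⟨ε, hε, ?_⟩
  filter_upwards [hpa] with σ hσ V hV
  exact h hσ (hb (by rwa [Real.dist_eq]))

lemma loc_shift {d : ℕ} {A : ℕ → ℝ → ℝ} {c : ℝ} (hcK : c ∈ K)
    (h : Loc K d (TF d A (fun _ => c)) 0) : Loc K d A c := by
  obtain ⟨q, hq, S, hS, hSa, ε, hε, hev⟩ := h
  refine ⟨q, hq, (fun (G : ℝ → ℝ) => fun σ => c + G σ) '' S, hS.image _, ?_, ε, hε, ?_⟩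
  · rintro _ ⟨G, hG, rfl⟩
    refine ⟨(An.const hcK).add (hSa G hG).1, ?_⟩
    simp only [(hSa G hG).2, add_zero]
  · filter_upwards [hev] with σ hσ V hV
    have h1 := hσ (V - c) (by rwa [sub_zero])
    have h2 := PF_add d A (fun _ => c) (σ ^ q) (V - c)
    rw [add_sub_cancel] at h2
    rw [h2, h1]
    constructor
    · rintro ⟨G, hG, hV⟩
      exact ⟨_, ⟨G, hG, rfl⟩, by linarith⟩
    · rintro ⟨_, ⟨G, hG, rfl⟩, hV⟩
      exact ⟨G, hG, by linarith⟩

/-- gluing the local descriptions -/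
lemma glue {d : ℕ} {B : ℕ → ℝ → ℝ} (hB : ∀ i, An K (B i)) (C : ℝ)
    (hfin : {u : ℝ | |u| ≤ C ∧ PF d B 0 u = 0}.Finite)
    (h : ∀ u, |u| ≤ C → PF d B 0 u = 0 → Loc K d B u) :
    ∃ q : ℕ, 1 ≤ q ∧ ∃ S : Set (ℝ → ℝ), S.Finite ∧ (∀ G ∈ S, An K G) ∧
      ∀ᶠ σ in 𝓝[>] (0 : ℝ), (∀ V, |V| ≤ C → PF d B (σ ^ q) V = 0 → ∃ G ∈ S, V = G σ) ∧
        ∀ G ∈ S, PF d B (σ ^ q) (G σ) = 0 := by
  classical
  set R := hfin.toFinset with hR
  have hmem : ∀ u, u ∈ R ↔ |u| ≤ C ∧ PF d B 0 u = 0 := fun u => by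
    rw [hR, Set.Finite.mem_toFinset]; rfl
  have hloc : ∀ u : ℝ, ∃ q : ℕ, 1 ≤ q ∧ ∃ S : Set (ℝ → ℝ), ∃ ε : ℝ, 0 < ε ∧ (u ∈ R →
      S.Finite ∧ (∀ G ∈ S, An K G ∧ G 0 = u) ∧
      ∀ᶠ σ in 𝓝[>] (0 : ℝ), ∀ V, |V - u| < ε →
      (PF d B (σ ^ q) V = 0 ↔ ∃ G ∈ S, V = G σ)) := by
    intro u
    by_cases hu : u ∈ R
    · obtain ⟨q, hq, S, h1, h2, ε, hε, h3⟩ := h u ((hmem u).1 hu).1 ((hmem u).1 hu).2
      exact ⟨q, hq, S, ε, hε, fun _ => ⟨h1, h2, h3⟩⟩
    · exact ⟨1, le_rfl, ∅, 1, one_pos, fun h => absurd h hu⟩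
  choose q hq S ε hε hloc using hloc
  set Q : ℕ := ∏ u ∈ R, q u with hQ
  have hQ1 : 1 ≤ Q := Nat.succ_le_of_lt (Finset.prod_pos fun u _ => hq u)
  set m : ℝ → ℕ := fun u => ∏ v ∈ R.erase u, q v with hm
  have hm1 : ∀ u, 1 ≤ m u := fun u => Nat.succ_le_of_lt (Finset.prod_pos fun v _ => hq v)
  have hmQ : ∀ u ∈ R, m u * q u = Q := fun u hu => by
    simp only [hm, hQ]
    rw [Finset.prod_erase_mul _ _ hu]
  refine ⟨Q, hQ1, ⋃ u ∈ R, (fun (G : ℝ → ℝ) => fun σ => G (σ ^ m u)) '' S u, ?_, ?_, ?_⟩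
  · exact Set.Finite.biUnion (R.finite_toSet) fun u hu => ((hloc u hu).1).image _
  · intro G hG
    rw [Set.mem_iUnion₂] at hG
    obtain ⟨u, hu, G', hG', rfl⟩ := hG
    exact ((hloc u hu).2.1 G' hG').1.pow_comp (hm1 u)
  · -- the compact set away from the roots
    have hK : IsCompact {V : ℝ | |V| ≤ C ∧ ∀ u ∈ R, ε u ≤ |V - u|} := by
      have h1 : {V : ℝ | |V| ≤ C ∧ ∀ u ∈ R, ε u ≤ |V - u|} =
          Metric.closedBall 0 C ∩ ⋂ u ∈ R, {V : ℝ | ε u ≤ |V - u|} := by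
        ext V
        simp [Real.norm_eq_abs]
      rw [h1]
      refine (isCompact_closedBall _ _).inter_right ?_
      refine isClosed_biInter fun u _ => ?_
      exact isClosed_le continuous_const ((continuous_id.sub continuous_const).abs)
    have hKev : ∀ᶠ σ in 𝓝 (0 : ℝ), ∀ V ∈ {V : ℝ | |V| ≤ C ∧ ∀ u ∈ R, ε u ≤ |V - u|},
        PF d B σ V ≠ 0 := by
      refine hK.eventually_forall_of_forall_eventually fun V hV => ?_
      have h1 : PF d B 0 V ≠ 0 := by
        intro h2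
        have h3 := hV.2 V ((hmem V).2 ⟨hV.1, h2⟩)
        rw [sub_self, abs_zero] at h3
        linarith [hε V]
      exact (PF_continuousAt hB V).eventually_ne h1
    have h1 : ∀ᶠ σ in 𝓝[>] (0 : ℝ), ∀ u ∈ R, ∀ V, |V - u| < ε u →
        (PF d B ((σ ^ m u) ^ q u) V = 0 ↔ ∃ G ∈ S u, V = G (σ ^ m u)) := by
      rw [Filter.eventually_all_finset]
      intro u hu
      exact (pow_tendsto (hm1 u)).eventually (hloc u hu).2.2
    have h2 : ∀ᶠ σ in 𝓝[>] (0 : ℝ), ∀ u ∈ R, ∀ G ∈ S u, |G (σ ^ m u) - u| < ε u := by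
      rw [Filter.eventually_all_finset]
      intro u hu
      have h3 : ∀ G ∈ S u, ∀ᶠ σ in 𝓝[>] (0 : ℝ), |G (σ ^ m u) - u| < ε u := by
        intro G hG
        obtain ⟨hGa, hG0⟩ := (hloc u hu).2.1 G hG
        have h4 : Tendsto G (𝓝[>] 0) (𝓝 u) := by
          rw [← hG0]
          exact hGa.1.continuousAt.tendsto.mono_left nhdsWithin_le_nhds
        have h5 := (h4.comp (pow_tendsto (hm1 u))).eventually (Metric.ball_mem_nhds u (hε u))
        filter_upwards [h5] with σ hσ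
        rw [← Real.dist_eq]
        exact hσ
      exact (Filter.eventually_all_finite (hloc u hu).1).2 h3
    filter_upwards [h1, h2, (pow_tendsto hQ1).eventually (hKev.filter_mono nhdsWithin_le_nhds)]
      with σ hσ1 hσ2 hσ3
    have hpow : ∀ u ∈ R, (σ ^ m u) ^ q u = σ ^ Q := fun u hu => by
      rw [← pow_mul, hmQ u hu]
    constructor
    · intro V hV hV0
      by_cases hfar : ∀ u ∈ R, ε u ≤ |V - u|
      · exact absurd hV0 (hσ3 V ⟨hV, hfar⟩)
      · push Not at hfar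
        obtain ⟨u, hu, hVu⟩ := hfar
        obtain ⟨G, hG, hVG⟩ := (hσ1 u hu V hVu).1 (by rw [hpow u hu]; exact hV0)
        exact ⟨_, Set.mem_iUnion₂.2 ⟨u, hu, G, hG, rfl⟩, hVG⟩
    · intro G hG
      rw [Set.mem_iUnion₂] at hG
      obtain ⟨u, hu, G', hG', rfl⟩ := hG
      have h5 := (hσ1 u hu _ (hσ2 u hu G' hG')).2 ⟨G', hG', rfl⟩
      rw [hpow u hu] at h5
      exact h5

/-- splitting off the low terms -/
lemma PF_split {d μ : ℕ} (hμd : μ ≤ d) (T : ℕ → ℝ → ℝ) (σ W : ℝ) :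
    PF d T σ W = ∑ i ∈ range μ, T i σ * W ^ i +
      W ^ μ * PF (d - μ) (fun j => T (μ + j)) σ W := by
  unfold PF
  rw [show d + 1 = μ + (d - μ + 1) by omega, Finset.sum_range_add, mul_sum]
  congr 1
  refine sum_congr rfl fun i _ => ?_
  ring

/-- a polynomial has finitely many zeros -/
lemma PF_finite {d μ : ℕ} {B : ℕ → ℝ → ℝ} (hμd : μ ≤ d) (h : B μ 0 ≠ 0) (C : ℝ) :
    {u : ℝ | |u| ≤ C ∧ PF d B 0 u = 0}.Finite := by
  have h1 : ∃ P : Polynomial ℝ, P ≠ 0 ∧ ∀ u, P.eval u = PF d B 0 u := by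
    refine ⟨∑ i ∈ range (d + 1), Polynomial.C (B i 0) * Polynomial.X ^ i, ?_, ?_⟩
    · intro h1
      have h2 := congrArg (fun P => Polynomial.coeff P μ) h1
      simp only [Polynomial.finsetSum_coeff, Polynomial.coeff_C_mul_X_pow,
        Polynomial.coeff_zero] at h2
      rw [sum_eq_single μ] at h2
      · simp [h] at h2
      · intro i _ hi
        rw [if_neg (Ne.symm hi)]
      · intro h
        exact absurd (mem_range.2 (by omega)) h
    · intro u
      unfold PF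
      rw [Polynomial.eval_finsetSum]
      simp
  obtain ⟨P, hP0, hP⟩ := h1
  refine (P.roots.toFinset.finite_toSet).subset ?_
  intro u hu
  rw [Finset.mem_coe, Multiset.mem_toFinset, Polynomial.mem_roots hP0, Polynomial.IsRoot, hP]
  exact hu.2

/-- the zeros are algebraic -/
lemma PF_algebraic {d μ : ℕ} {B : ℕ → ℝ → ℝ} (hμd : μ ≤ d) (hB : ∀ i, An K (B i))
    (h : B μ 0 ≠ 0) {u : ℝ} (hu : PF d B 0 u = 0) : IsAlgebraic K u := by
  refine ⟨∑ i ∈ range (d + 1), Polynomial.C (⟨B i 0, (hB i).val⟩ : K) * Polynomial.X ^ i, ?_, ?_⟩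
  · intro h1
    have h2 := congrArg (fun P => Polynomial.coeff P μ) h1
    simp only [Polynomial.finsetSum_coeff, Polynomial.coeff_C_mul_X_pow,
      Polynomial.coeff_zero] at h2
    rw [sum_eq_single μ] at h2
    · rw [if_pos rfl] at h2
      exact h (congrArg Subtype.val h2)
    · intro i _ hi
      rw [if_neg (Ne.symm hi)]
    · intro h
      exact absurd (mem_range.2 (by omega)) h
  · rw [map_sum]
    unfold PF at hu
    refine Eq.trans (sum_congr rfl fun i _ => ?_) hu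
    rw [map_mul, map_pow, Polynomial.aeval_C, Polynomial.aeval_X]
    rfl

/-- the factor which does not vanish -/
lemma ev_unit {d μ : ℕ} {T : ℕ → ℝ → ℝ} (hT : ∀ i, An K (T i)) (h : T μ 0 ≠ 0) :
    ∃ ε : ℝ, 0 < ε ∧ ∀ᶠ σ in 𝓝 (0 : ℝ), ∀ W, |W| < ε →
      |T μ 0| / 2 < |PF (d - μ) (fun j => T (μ + j)) σ W| := by
  have h0 : PF (d - μ) (fun j => T (μ + j)) 0 0 = T μ 0 := by
    unfold PF
    rw [sum_eq_single 0]
    · simp
    · intro i _ hi
      rw [zero_pow hi, mul_zero]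
    · intro h
      exact absurd (mem_range.2 (by omega)) h
  have h1 : ∀ᶠ x : ℝ × ℝ in 𝓝 ((0 : ℝ), (0 : ℝ)),
      |T μ 0| / 2 < |PF (d - μ) (fun j => T (μ + j)) x.1 x.2| := by
    have h2 := (PF_continuousAt (d := d - μ) (A := fun j => T (μ + j)) (fun i => hT _) 0).abs
    refine h2.eventually_const_lt ?_
    simp only [h0]
    have : 0 < |T μ 0| := abs_pos.2 h
    linarith
  obtain ⟨ε, hε, h2⟩ := ev_prod (fun σ W => |T μ 0| / 2 <
    |PF (d - μ) (fun j => T (μ + j)) σ W|) h1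
  refine ⟨ε, hε, ?_⟩
  filter_upwards [h2] with σ hσ W hW
  exact hσ W (by rwa [sub_zero])

/-- the local description of the real zeros, by induction on the multiplicity -/
theorem loc_main (hK : ∀ u : ℝ, IsAlgebraic K u → u ∈ K) : ∀ (μ : ℕ) (d : ℕ) (A : ℕ → ℝ → ℝ),
    (∀ i, An K (A i)) → μ ≤ d → (∀ i < μ, A i 0 = 0) → A μ 0 ≠ 0 → Loc K d A 0 := by
  classical
  intro μ
  induction μ using Nat.strong_induction_on with
  | _ μ ih =>
  intro d A hA hμd hlow hμ
  rcases Nat.eq_zero_or_pos μ with rfl | hμ0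
  · -- no zeros
    have h1 : ∀ᶠ x : ℝ × ℝ in 𝓝 ((0 : ℝ), (0 : ℝ)), PF d A x.1 x.2 ≠ 0 := by
      refine (PF_continuousAt hA 0).eventually_ne ?_
      unfold PF
      rw [sum_eq_single 0]
      · simpa using hμ
      · intro i _ hi
        rw [zero_pow hi, mul_zero]
      · intro h
        exact absurd (mem_range.2 (by omega)) h
    obtain ⟨ε, hε, h2⟩ := ev_prod (fun σ V => PF d A σ V ≠ 0) h1
    refine ⟨1, le_rfl, ∅, Set.finite_empty, fun G hG => absurd hG (Set.notMem_empty _), ε, hε, ?_⟩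
    filter_upwards [h2.filter_mono nhdsWithin_le_nhds] with σ hσ V hV
    rw [pow_one]
    simp [hσ V hV]
  obtain ⟨c, hc, hc0, hcev⟩ := exists_center hA hμ0 hμd (hlow _ (by omega)) hμ
  set T : ℕ → ℝ → ℝ := TF d A c with hTdef
  have hT : ∀ i, An K (T i) := fun i => TF_analytic hA hc i
  have hT0 : ∀ i ≤ d, T i 0 = A i 0 := fun i hi => TF_zero hc0 hi
  have hTμ : T μ 0 ≠ 0 := by rw [hT0 μ hμd]; exact hμ
  have hTlow : ∀ i < μ, T i 0 = 0 := fun i hi => by rw [hT0 i (by omega)]; exact hlow i hi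
  obtain ⟨ε0, hε0, hunit⟩ := ev_unit (d := d) hT hTμ
  have hcsmall : ∀ᶠ σ in 𝓝 (0 : ℝ), |c σ| < ε0 / 2 := by
    have h1 := hc.1.continuousAt.tendsto.eventually (Metric.ball_mem_nhds (c 0)
      (show 0 < ε0 / 2 by positivity))
    filter_upwards [h1] with σ hσ
    rw [hc0] at hσ
    simpa [Real.dist_eq] using hσ
  have hPFA : ∀ σ V, PF d A σ V = PF d T σ (V - c σ) := fun σ V => by
    rw [hTdef, ← PF_add]
    congr 1
    ring
  have ha : 0 < |T μ 0| / 2 := by
    have : 0 < |T μ 0| := abs_pos.2 hTμ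
    linarith
  by_cases hz : ∀ i < μ, ∀ᶠ σ in 𝓝 (0 : ℝ), T i σ = 0
  · -- one multiple zero
    refine ⟨1, le_rfl, {c}, Set.finite_singleton _, ?_, ε0 / 2, by positivity, ?_⟩
    · intro G hG
      rw [Set.mem_singleton_iff.1 hG]
      exact ⟨hc, hc0⟩
    · have h1 : ∀ᶠ σ in 𝓝 (0 : ℝ), ∀ i ∈ range μ, T i σ = 0 := by
        rw [Filter.eventually_all_finset]
        intro i hi
        exact hz i (mem_range.1 hi)
      filter_upwards [(h1.and (hunit.and hcsmall)).filter_mono nhdsWithin_le_nhds] with σ hσ V hV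
      obtain ⟨h2, h3, h4⟩ := hσ
      rw [sub_zero] at hV
      rw [pow_one, hPFA, PF_split hμd, sum_eq_zero (fun i hi => by rw [h2 i hi, zero_mul]),
        zero_add]
      have h5 : |V - c σ| < ε0 := by
        have := abs_sub V (c σ)
        linarith
      have h6 := h3 (V - c σ) h5
      have h7 : PF (d - μ) (fun j => T (μ + j)) σ (V - c σ) ≠ 0 := by
        intro h8
        rw [h8, abs_zero] at h6
        linarith
      constructor
      · intro h8
        rcases mul_eq_zero.1 h8 with h9 | h9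
        · exact ⟨c, rfl, by linarith [pow_eq_zero_iff (by omega : μ ≠ 0) |>.1 h9]⟩
        · exact absurd h9 h7
      · rintro ⟨G, hG, hV⟩
        rw [Set.mem_singleton_iff.1 hG] at hV
        rw [hV, sub_self, zero_pow (by omega), zero_mul]
  -- the Newton polygon
  simp only [not_forall] at hz
  set I : Finset ℕ := (range μ).filter (fun i => ¬ ∀ᶠ σ in 𝓝 (0 : ℝ), T i σ = 0) with hI
  have hIne : I.Nonempty := by
    obtain ⟨i, hi, h⟩ := hz
    exact ⟨i, mem_filter.2 ⟨mem_range.2 hi, h⟩⟩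
  have hord : ∀ i, ∃ n : ℕ, ∃ g : ℝ → ℝ, i ∈ I → (1 ≤ n ∧ An K g ∧ g 0 ≠ 0 ∧
      ∀ᶠ σ in 𝓝 (0 : ℝ), T i σ = σ ^ n * g σ) := by
    intro i
    by_cases hi : i ∈ I
    · obtain ⟨hi1, hi2⟩ := mem_filter.1 hi
      obtain ⟨n, g, hg, hg0, hev⟩ := (hT i).1.exists_eventuallyEq_pow_smul_nonzero_iff.2 hi2
      have hgK : An K g := (hT i).div_pow (n := n) hg (by
        filter_upwards [hev.filter_mono nhdsWithin_le_nhds] with σ hσ
        rw [hσ]
        simp)
      refine ⟨n, g, fun _ => ⟨?_, hgK, hg0, ?_⟩⟩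
      · by_contra hn
        have hn0 : n = 0 := by omega
        have h1 := hev.self_of_nhds
        rw [hTlow i (mem_range.1 hi1), hn0] at h1
        simp at h1
        exact hg0 h1.symm
      · filter_upwards [hev] with σ hσ
        rw [hσ]
        simp
    · exact ⟨0, fun _ => 0, fun h => absurd h hi⟩
  choose n g hord using hord
  obtain ⟨i0, hi0, hmin⟩ := Finset.exists_min_image I (fun i => (n i : ℚ) / ((μ : ℚ) - i)) hIne
  have hi0μ : i0 < μ := mem_range.1 (mem_filter.1 hi0).1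
  set p : ℕ := n i0 with hp
  set q : ℕ := μ - i0 with hq
  have hp1 : 1 ≤ p := (hord i0 hi0).1
  have hq1 : 1 ≤ q := by omega
  have hpq : ∀ i ∈ I, p * (μ - i) ≤ n i * q := by
    intro i hi
    have hiμ : i < μ := mem_range.1 (mem_filter.1 hi).1
    have h1 := hmin i hi
    have h2 : (0 : ℚ) < (μ : ℚ) - i0 := by
      have : (i0 : ℚ) < μ := by exact_mod_cast hi0μ
      linarith
    have h3 : (0 : ℚ) < (μ : ℚ) - i := by
      have : (i : ℚ) < μ := by exact_mod_cast hiμ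
      linarith
    rw [div_le_div_iff₀ h2 h3] at h1
    have h4 : ((p * (μ - i) : ℕ) : ℚ) ≤ ((n i * q : ℕ) : ℚ) := by
      push_cast [hp, hq, Nat.cast_sub hiμ.le, Nat.cast_sub hi0μ.le]
      exact h1
    exact_mod_cast h4
  set B : ℕ → ℝ → ℝ := fun i σ => if i ∈ I then σ ^ (n i * q - p * (μ - i)) * g i (σ ^ q) else
    if i < μ then 0 else T i (σ ^ q) * σ ^ (p * (i - μ)) with hBdef
  have hB : ∀ i, An K (B i) := by
    intro i
    by_cases hi : i ∈ I
    · refine ((An.pow_id (n i * q - p * (μ - i))).mul ((hord i hi).2.1.pow_comp hq1)).congr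
        fun σ => ?_
      simp only [hBdef]
      rw [if_pos hi]
    · by_cases hi2 : i < μ
      · refine An.zero.congr fun σ => ?_
        simp only [hBdef]
        rw [if_neg hi, if_pos hi2]
      · refine (((hT i).pow_comp hq1).mul (An.pow_id (p * (i - μ)))).congr fun σ => ?_
        simp only [hBdef]
        rw [if_neg hi, if_neg hi2]
  have hIμ : ∀ i ∈ I, i < μ := fun i hi => mem_range.1 (mem_filter.1 hi).1
  have hBge : ∀ i, μ ≤ i → ∀ σ, B i σ = T i (σ ^ q) * σ ^ (p * (i - μ)) := by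
    intro i hi σ
    simp only [hBdef]
    rw [if_neg (fun h => by have := hIμ i h; omega), if_neg (by omega)]
  have hBμ : B μ 0 = T μ 0 := by
    rw [hBge μ le_rfl, Nat.sub_self, mul_zero, pow_zero, mul_one, zero_pow (by omega)]
  have hBgt : ∀ i, μ < i → B i 0 = 0 := by
    intro i hi
    have h0 : p * (i - μ) ≠ 0 := Nat.mul_ne_zero (by omega) (by omega)
    rw [hBge i hi.le, zero_pow h0, mul_zero]
  have hBi0 : B i0 0 ≠ 0 := by
    simp only [hBdef]
    rw [if_pos hi0, show n i0 * q - p * (μ - i0) = 0 by rw [← hp, ← hq, Nat.sub_self], pow_zero,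
      one_mul, zero_pow (by omega)]
    exact (hord i0 hi0).2.2.1
  have hBpred : B (μ - 1) 0 = 0 := by
    have hni : μ - 1 ∉ I := by
      rw [hI, mem_filter]
      exact fun h => h.2 hcev
    simp only [hBdef]
    rw [if_neg hni, if_pos (by omega)]
  have hBne : ∀ i, B i 0 ≠ 0 → i ≤ μ := fun i hi => by
    by_contra h
    exact hi (hBgt i (by omega))
  -- the scaling
  have hscale : ∀ᶠ σ in 𝓝[>] (0 : ℝ), ∀ U, PF d T (σ ^ q) (σ ^ p * U) =
      σ ^ (p * μ) * PF d B σ U := by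
    have h1 : ∀ᶠ σ in 𝓝[>] (0 : ℝ), ∀ i ∈ I, T i (σ ^ q) = (σ ^ q) ^ n i * g i (σ ^ q) := by
      rw [Filter.eventually_all_finset]
      intro i hi
      exact (pow_tendsto hq1).eventually ((hord i hi).2.2.2.filter_mono nhdsWithin_le_nhds)
    have h2 : ∀ᶠ σ in 𝓝[>] (0 : ℝ), ∀ i ∈ range μ \ I, T i (σ ^ q) = 0 := by
      rw [Filter.eventually_all_finset]
      intro i hi
      rw [Finset.mem_sdiff, hI, mem_filter, not_and, not_not] at hi
      exact (pow_tendsto hq1).eventually ((hi.2 hi.1).filter_mono nhdsWithin_le_nhds)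
    filter_upwards [h1, h2] with σ hσ1 hσ2 U
    unfold PF
    rw [mul_sum]
    refine sum_congr rfl fun i _ => ?_
    rw [mul_pow, ← pow_mul]
    by_cases hi : i ∈ I
    · have hiμ := hIμ i hi
      have hle := hpq i hi
      simp only [hBdef]
      rw [if_pos hi, hσ1 i hi, ← pow_mul]
      have h3 : σ ^ (q * n i) * σ ^ (p * i) = σ ^ (p * μ) * σ ^ (n i * q - p * (μ - i)) := by
        rw [← pow_add, ← pow_add]
        congr 1
        have h4 : p * μ = p * (μ - i) + p * i := by rw [← mul_add]; congr 1; omega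
        have h5 : q * n i = n i * q := mul_comm _ _
        omega
      calc σ ^ (q * n i) * g i (σ ^ q) * (σ ^ (p * i) * U ^ i) =
            (σ ^ (q * n i) * σ ^ (p * i)) * g i (σ ^ q) * U ^ i := by ring
        _ = _ := by rw [h3]; ring
    · by_cases hi2 : i < μ
      · simp only [hBdef]
        rw [if_neg hi, if_pos hi2, hσ2 i (Finset.mem_sdiff.2 ⟨mem_range.2 hi2, hi⟩)]
        ring
      · rw [hBge i (by omega)]
        have h3 : p * i = p * μ + p * (i - μ) := by rw [← mul_add]; congr 1; omega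
        rw [h3, pow_add]
        ring
  -- the multiplicities drop
  have hloc : ∀ u, PF d B 0 u = 0 → Loc K d B u := by
    intro u hu
    have huK : u ∈ K := hK u (PF_algebraic (μ := μ) hμd hB (by rw [hBμ]; exact hTμ) hu)
    apply loc_shift huK
    have hT'a : ∀ i, An K (TF d B (fun _ => u) i) := fun i =>
      TF_analytic hB (An.const huK) i
    have hex : ∃ i, i < μ ∧ TF d B (fun _ => u) i 0 ≠ 0 := by
      by_cases hu0 : u = 0
      · refine ⟨i0, hi0μ, ?_⟩
        rw [TF_zero (by simpa using hu0) (by omega)]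
        exact hBi0
      · refine ⟨μ - 1, by omega, ?_⟩
        unfold TF
        rw [sum_eq_single μ]
        · rw [hBμ, show μ - (μ - 1) = 1 by omega,
            Nat.choose_symm_of_eq_add (a := μ - 1) (b := 1) (by omega), Nat.choose_one_right]
          refine mul_ne_zero hTμ (mul_ne_zero ?_ ?_)
          · exact_mod_cast (show μ ≠ 0 by omega)
          · simpa using hu0
        · intro k _ hk
          rcases lt_or_gt_of_ne hk with h | h
          · rcases Nat.lt_or_ge k (μ - 1) with h4 | h4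
            · rw [Nat.choose_eq_zero_of_lt h4]
              simp
            · have h5 : k = μ - 1 := by omega
              rw [h5, hBpred, zero_mul]
          · rw [hBgt k h, zero_mul]
        · intro h
          exact absurd (mem_range.2 (by omega)) h
    have hfind := Nat.find_spec hex
    refine ih (Nat.find hex) hfind.1 d _ hT'a (by omega) (fun i hi => ?_) hfind.2
    have h1 := Nat.find_min hex hi
    rw [not_and, not_not] at h1
    exact h1 (hi.trans hfind.1)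
  -- the bound
  set Mb : ℝ := ∑ i ∈ range μ, |B i 0| + 1 with hMb
  have hMb0 : 0 < Mb := by
    have : 0 ≤ ∑ i ∈ range μ, |B i 0| := sum_nonneg fun i _ => abs_nonneg _
    linarith
  set C : ℝ := max 1 (Mb * μ / (|T μ 0| / 2)) with hC
  have hbound : ∀ᶠ σ in 𝓝[>] (0 : ℝ), ∀ U, |σ ^ p * U| < ε0 → PF d B σ U = 0 → |U| ≤ C := by
    have h1 : ∀ᶠ σ in 𝓝[>] (0 : ℝ), ∀ i ∈ range μ, |B i σ| < Mb := by
      rw [Filter.eventually_all_finset]
      intro i hi
      have h2 : ContinuousAt (fun σ => |B i σ|) 0 := (hB i).1.continuousAt.abs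
      have h3 : |B i 0| < Mb := by
        have h4 : |B i 0| ≤ ∑ i ∈ range μ, |B i 0| :=
          single_le_sum (f := fun i => |B i 0|) (fun i _ => abs_nonneg _) hi
        linarith
      exact (h2.eventually_lt_const h3).filter_mono nhdsWithin_le_nhds
    filter_upwards [h1, (pow_tendsto hq1).eventually (hunit.filter_mono nhdsWithin_le_nhds)]
      with σ hσ1 hσ2 U hU hU0
    rw [PF_split hμd] at hU0
    have h3 : PF (d - μ) (fun j => B (μ + j)) σ U =
        PF (d - μ) (fun j => T (μ + j)) (σ ^ q) (σ ^ p * U) := by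
      unfold PF
      refine sum_congr rfl fun j _ => ?_
      simp only
      rw [hBge (μ + j) (by omega), show μ + j - μ = j by omega, mul_pow, ← pow_mul]
      ring
    rw [h3] at hU0
    have h4 := hσ2 _ hU
    by_contra hcon
    rw [not_le, hC, max_lt_iff] at hcon
    obtain ⟨hU1, hU2⟩ := hcon
    have h5 : |U| ^ μ * (|T μ 0| / 2) < Mb * μ * |U| ^ (μ - 1) := by
      calc |U| ^ μ * (|T μ 0| / 2) < |U| ^ μ *
            |PF (d - μ) (fun j => T (μ + j)) (σ ^ q) (σ ^ p * U)| := by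
            have : 0 < |U| ^ μ := by positivity
            exact mul_lt_mul_of_pos_left h4 this
        _ = |U ^ μ * PF (d - μ) (fun j => T (μ + j)) (σ ^ q) (σ ^ p * U)| := by
            rw [abs_mul, abs_pow]
        _ = |∑ i ∈ range μ, B i σ * U ^ i| := by
            rw [show U ^ μ * PF (d - μ) (fun j => T (μ + j)) (σ ^ q) (σ ^ p * U) =
              -∑ i ∈ range μ, B i σ * U ^ i by linarith, abs_neg]
        _ ≤ ∑ i ∈ range μ, |B i σ * U ^ i| := abs_sum_le_sum_abs _ _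
        _ ≤ ∑ i ∈ range μ, Mb * |U| ^ (μ - 1) := by
            refine sum_le_sum fun i hi => ?_
            rw [abs_mul, abs_pow]
            have h6 := mem_range.1 hi
            exact mul_le_mul (hσ1 i hi).le (pow_le_pow_right₀ hU1.le (by omega)) (by positivity)
              hMb0.le
        _ = Mb * μ * |U| ^ (μ - 1) := by
            rw [sum_const, card_range, nsmul_eq_mul]
            ring
    have h6 : |U| ^ μ = |U| * |U| ^ (μ - 1) := by
      rw [← pow_succ']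
      congr 1
      omega
    rw [h6] at h5
    have h7 : 0 < |U| ^ (μ - 1) := by positivity
    rw [div_lt_iff₀ ha] at hU2
    nlinarith
  obtain ⟨q', hq', S, hS, hSa, hev⟩ := glue hB C (PF_finite (μ := μ) hμd (by rw [hBμ]; exact hTμ) C)
    (fun u _ hu => hloc u hu)
  refine ⟨q' * q, Nat.mul_pos hq' hq1, (fun (G : ℝ → ℝ) => fun τ => c (τ ^ (q' * q)) +
    τ ^ (q' * p) * G τ) '' S, hS.image _, ?_, ε0 / 2, by positivity, ?_⟩
  · rintro _ ⟨G, hG, rfl⟩
    refine ⟨(hc.pow_comp (Nat.mul_pos hq' hq1)).add ((An.pow_id _).mul (hSa G hG)), ?_⟩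
    simp only
    rw [zero_pow (Nat.mul_pos hq' hq1).ne', zero_pow (Nat.mul_pos hq' hp1).ne', hc0]
    ring
  · filter_upwards [hev, (pow_tendsto hq').eventually hscale,
      (pow_tendsto hq').eventually hbound,
      (pow_tendsto (Nat.mul_pos hq' hq1)).eventually (hcsmall.filter_mono nhdsWithin_le_nhds),
      self_mem_nhdsWithin] with τ h1 h2 h3 h4 h5 V hV
    have hτ : 0 < τ := h5
    rw [sub_zero] at hV
    have hσq : τ ^ (q' * q) = (τ ^ q') ^ q := pow_mul _ _ _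
    have hσp : τ ^ (q' * p) = (τ ^ q') ^ p := pow_mul _ _ _
    have hW : |V - c (τ ^ (q' * q))| < ε0 := by
      have := abs_sub V (c (τ ^ (q' * q)))
      linarith
    have hppos : 0 < (τ ^ q') ^ p := by positivity
    rw [hPFA, hσq]
    constructor
    · intro h6
      have h7 : V - c ((τ ^ q') ^ q) = (τ ^ q') ^ p * ((V - c ((τ ^ q') ^ q)) / (τ ^ q') ^ p) := by
        field_simp
      rw [h7, h2] at h6
      have h8 : PF d B (τ ^ q') ((V - c ((τ ^ q') ^ q)) / (τ ^ q') ^ p) = 0 :=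
        (mul_eq_zero.1 h6).resolve_left (by positivity)
      have h9 := h3 _ (by rw [← h7, ← hσq]; exact hW) h8
      obtain ⟨G, hG, hUG⟩ := h1.1 _ h9 h8
      refine ⟨_, ⟨G, hG, rfl⟩, ?_⟩
      simp only
      rw [hσq, hσp, ← hUG, ← h7]
      ring
    · rintro ⟨_, ⟨G, hG, rfl⟩, hVG⟩
      simp only [hσq, hσp] at hVG
      rw [hVG, add_sub_cancel_left, h2, h1.2 G hG, mul_zero]

end Pool.Agent.Q270.PX
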