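import Pool.Agent.Q270.PX.Str

/-!
# Joint normality in all bases at once, structured frequencies
-/

set_option autoImplicit false

namespace Pool.Agent.Q270.PX

open Finset Real Filter MeasureTheory
open Pool.Agent.Y951.TU (unif tw exists_ge)

variable {r : ℕ}

open Classical in
/-- joint normality in all bases at once -/
theorem normal_all_S {κ : ℝ} {S : ℕ → Set (Measure (Fin r → ℝ))}
    (hS : ∀ M, 1 ≤ M → ∀ P ∈ S M, IsProbabilityMeasure P) (hG : GoodS r S κ) (hr : 1 ≤ r)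
    (B w : ℕ) (A ε : ℝ) (hε : 0 < ε) :
    ∃ c : ℝ, 0 < c ∧ ∃ M₀ : ℕ, ∀ M : ℕ, M₀ ≤ M → ∀ (T : Finset ℕ) (x : ℕ → Fin r → ℝ),
      T.Nonempty → unif T x ∈ S M →
      ((T.filter (fun m => ¬ ∀ b : Fin r → ℕ, (∀ j, 2 ≤ b j ∧ b j ≤ B) →
        ∀ (k : ℕ) (D s : Fin r → ℕ) (N : ℕ), 1 ≤ k → k ≤ w →
        (∀ j, D j < b j ^ k) → (∀ j, (M : ℝ) ^ κ ≤ (b j : ℝ) ^ s j) →
        (∀ j, (s j : ℝ) + N ≤ A * log M) →
        |(((range N).filter (fun i => tw b k (fun j => s j + i) (x m) = D)).card : ℝ) -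
          N / ((∏ j, b j : ℕ) : ℝ) ^ k| ≤ ε * log M)).card : ℝ) ≤ T.card * (M : ℝ) ^ (-c) := by
  set Bs : Finset (Fin r → ℕ) := Fintype.piFinset fun _ : Fin r => Finset.Icc 2 B with hBs
  have hmem : ∀ b : Fin r → ℕ, b ∈ Bs ↔ ∀ j, 2 ≤ b j ∧ b j ≤ B := fun b => by
    rw [hBs, Fintype.mem_piFinset]
    simp only [Finset.mem_Icc]
  have hone : ∀ b : Fin r → ℕ, ∃ c : ℝ, 0 < c ∧ ∃ M₀ : ℕ, b ∈ Bs → ∀ M : ℕ, M₀ ≤ M →
      ∀ (T : Finset ℕ) (x : ℕ → Fin r → ℝ), T.Nonempty → unif T x ∈ S M →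
      ((T.filter (fun m => ¬ ∀ (k : ℕ) (D s : Fin r → ℕ) (N : ℕ), 1 ≤ k → k ≤ w →
        (∀ j, D j < b j ^ k) → (∀ j, (M : ℝ) ^ κ ≤ (b j : ℝ) ^ s j) →
        (∀ j, (s j : ℝ) + N ≤ A * log M) →
        |(((range N).filter (fun i => tw b k (fun j => s j + i) (x m) = D)).card : ℝ) -
          N / ((∏ j, b j : ℕ) : ℝ) ^ k| ≤ ε * log M)).card : ℝ) ≤ T.card * (M : ℝ) ^ (-c) := by
    intro b
    by_cases hb : b ∈ Bs
    · obtain ⟨c, hc, M0, h⟩ := normal_one_S (ι := ℕ) hS hG hr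
        (fun j => ((hmem b).1 hb j).1) w A ε hε
      exact ⟨c, hc, M0, fun _ => h⟩
    · exact ⟨1, one_pos, 0, fun h => absurd h hb⟩
  choose c hc M0 h using hone
  rcases Bs.eq_empty_or_nonempty with hBe | hBne
  · refine ⟨1, one_pos, 0, fun M _ T x _ _ => ?_⟩
    have h0 : T.filter (fun m => ¬ ∀ b : Fin r → ℕ, (∀ j, 2 ≤ b j ∧ b j ≤ B) →
        ∀ (k : ℕ) (D s : Fin r → ℕ) (N : ℕ), 1 ≤ k → k ≤ w →
        (∀ j, D j < b j ^ k) → (∀ j, (M : ℝ) ^ κ ≤ (b j : ℝ) ^ s j) →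
        (∀ j, (s j : ℝ) + N ≤ A * log M) →
        |(((range N).filter (fun i => tw b k (fun j => s j + i) (x m) = D)).card : ℝ) -
          N / ((∏ j, b j : ℕ) : ℝ) ^ k| ≤ ε * log M) = ∅ := by
      rw [Finset.filter_eq_empty_iff]
      intro m _ hm
      apply hm
      intro b hb
      have := (hmem b).2 hb
      rw [hBe] at this
      exact absurd this (Finset.notMem_empty _)
    rw [h0]
    simp only [Finset.card_empty, Nat.cast_zero]
    positivity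
  · obtain ⟨b0, _, hb0⟩ := Finset.exists_min_image Bs c hBne
    obtain ⟨M1, hM1⟩ := eventually_atTop.1
      (Pool.Agent.Y933.KD.VdC.ev_le (Bs.card : ℝ) (c b0 / 2) (by have := hc b0; positivity))
    refine ⟨c b0 / 2, by have := hc b0; positivity, max (Bs.sup M0) (max M1 1), ?_⟩
    intro M hM T x hT hx
    have hMs : Bs.sup M0 ≤ M := le_of_max_le_left hM
    have hMM1 : M1 ≤ M := le_of_max_le_left (le_of_max_le_right hM)
    have hM1' : 1 ≤ M := le_of_max_le_right (le_of_max_le_right hM)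
    have hMR : (1 : ℝ) ≤ M := by exact_mod_cast hM1'
    have hMp : (0 : ℝ) < M := by linarith
    have hsub : T.filter (fun m => ¬ ∀ b : Fin r → ℕ, (∀ j, 2 ≤ b j ∧ b j ≤ B) →
        ∀ (k : ℕ) (D s : Fin r → ℕ) (N : ℕ), 1 ≤ k → k ≤ w →
        (∀ j, D j < b j ^ k) → (∀ j, (M : ℝ) ^ κ ≤ (b j : ℝ) ^ s j) →
        (∀ j, (s j : ℝ) + N ≤ A * log M) →
        |(((range N).filter (fun i => tw b k (fun j => s j + i) (x m) = D)).card : ℝ) -
          N / ((∏ j, b j : ℕ) : ℝ) ^ k| ≤ ε * log M) ⊆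
        Bs.biUnion fun b => T.filter (fun m => ¬ ∀ (k : ℕ) (D s : Fin r → ℕ) (N : ℕ), 1 ≤ k →
          k ≤ w → (∀ j, D j < b j ^ k) → (∀ j, (M : ℝ) ^ κ ≤ (b j : ℝ) ^ s j) →
        (∀ j, (s j : ℝ) + N ≤ A * log M) →
          |(((range N).filter (fun i => tw b k (fun j => s j + i) (x m) = D)).card : ℝ) -
            N / ((∏ j, b j : ℕ) : ℝ) ^ k| ≤ ε * log M) := by
      intro m hm
      rw [mem_filter] at hm
      obtain ⟨hmT, hm⟩ := hm
      by_contra hcon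
      apply hm
      intro b hb
      by_contra h3
      apply hcon
      rw [mem_biUnion]
      exact ⟨b, (hmem b).2 hb, mem_filter.2 ⟨hmT, h3⟩⟩
    have h2 : ∀ b ∈ Bs, ((T.filter (fun m => ¬ ∀ (k : ℕ) (D s : Fin r → ℕ) (N : ℕ), 1 ≤ k →
          k ≤ w → (∀ j, D j < b j ^ k) → (∀ j, (M : ℝ) ^ κ ≤ (b j : ℝ) ^ s j) →
        (∀ j, (s j : ℝ) + N ≤ A * log M) →
          |(((range N).filter (fun i => tw b k (fun j => s j + i) (x m) = D)).card : ℝ) -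
            N / ((∏ j, b j : ℕ) : ℝ) ^ k| ≤ ε * log M)).card : ℝ) ≤
        T.card * (M : ℝ) ^ (-(c b0)) := by
      intro b hb
      refine (h b hb M ((Finset.le_sup hb).trans hMs) T x hT hx).trans ?_
      apply mul_le_mul_of_nonneg_left _ (Nat.cast_nonneg _)
      exact Real.rpow_le_rpow_of_exponent_le hMR (by linarith [hb0 b hb])
    calc _ ≤ ((Bs.biUnion fun b => T.filter (fun m => ¬ ∀ (k : ℕ) (D s : Fin r → ℕ) (N : ℕ), 1 ≤ k →
          k ≤ w → (∀ j, D j < b j ^ k) → (∀ j, (M : ℝ) ^ κ ≤ (b j : ℝ) ^ s j) →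
        (∀ j, (s j : ℝ) + N ≤ A * log M) →
          |(((range N).filter (fun i => tw b k (fun j => s j + i) (x m) = D)).card : ℝ) -
            N / ((∏ j, b j : ℕ) : ℝ) ^ k| ≤ ε * log M)).card : ℝ) :=
          Nat.cast_le.2 (card_le_card hsub)
      _ ≤ ((∑ b ∈ Bs, (T.filter (fun m => ¬ ∀ (k : ℕ) (D s : Fin r → ℕ) (N : ℕ), 1 ≤ k →
          k ≤ w → (∀ j, D j < b j ^ k) → (∀ j, (M : ℝ) ^ κ ≤ (b j : ℝ) ^ s j) →
        (∀ j, (s j : ℝ) + N ≤ A * log M) →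
          |(((range N).filter (fun i => tw b k (fun j => s j + i) (x m) = D)).card : ℝ) -
            N / ((∏ j, b j : ℕ) : ℝ) ^ k| ≤ ε * log M)).card : ℕ) : ℝ) :=
          Nat.cast_le.2 card_biUnion_le
      _ = ∑ b ∈ Bs, ((T.filter (fun m => ¬ ∀ (k : ℕ) (D s : Fin r → ℕ) (N : ℕ), 1 ≤ k →
          k ≤ w → (∀ j, D j < b j ^ k) → (∀ j, (M : ℝ) ^ κ ≤ (b j : ℝ) ^ s j) →
        (∀ j, (s j : ℝ) + N ≤ A * log M) →
          |(((range N).filter (fun i => tw b k (fun j => s j + i) (x m) = D)).card : ℝ) -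
            N / ((∏ j, b j : ℕ) : ℝ) ^ k| ≤ ε * log M)).card : ℝ) := by push_cast; rfl
      _ ≤ ∑ _b ∈ Bs, T.card * (M : ℝ) ^ (-(c b0)) := sum_le_sum h2
      _ = Bs.card * (T.card * (M : ℝ) ^ (-(c b0))) := by rw [sum_const, nsmul_eq_mul]
      _ ≤ (M : ℝ) ^ (c b0 / 2) * (T.card * (M : ℝ) ^ (-(c b0))) := by
          have := hM1 M hMM1
          gcongr
      _ = T.card * ((M : ℝ) ^ (c b0 / 2) * (M : ℝ) ^ (-(c b0))) := by ring
      _ = T.card * (M : ℝ) ^ (-(c b0 / 2)) := by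
          rw [← Real.rpow_add hMp]
          congr 2
          ring


end Pool.Agent.Q270.PX
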